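import Pool.Agent.Lib.MP_2add11_gt.Space

/-!
The presentation complex as the orbit space, its CW structure and the subcomplex `L`.
-/

noncomputable section

namespace Pool.Agent.Lib.MP_2add11_gt

open Set Metric Topology

abbrev K : Type := Quotient (MulAction.orbitRel G5 E)

def pr : E → K := Quotient.mk _

theorem pr_cover : IsQuotientCoveringMap pr G5 :=
  isQuotientCoveringMap_quotientMk_of_properlyDiscontinuousSMul

@[fun_prop] theorem continuous_pr : Continuous pr := pr_cover.continuous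

theorem pr_eq {a b : E} (h : pr a = pr b) : ∃ g : G5, sh g b.1 = a.1 := by
  obtain ⟨g, e⟩ := pr_cover.apply_eq_iff_mem_orbit.1 h
  exact ⟨g, congrArg Subtype.val e⟩

theorem pr_smul (g : G5) (a : E) : pr (g • a) = pr a := pr_cover.map_smul g

theorem pr_eF (g : G5) (c : Bool) (z : Sq) : pr (eF g c z) = pr (eF 1 c z) := by
  rw [← pr_smul g (eF 1 c z), smul_eF, mul_one]
theorem pr_eE (g : G5) (b : Bool) (s : ℝ) : pr (eE g b s) = pr (eE 1 b s) := by
  rw [← pr_smul g (eE 1 b s), smul_eE, mul_one]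
theorem pr_eV (g : G5) : pr (eV g) = pr (eV 1) := pr_eE _ _ _

theorem pr_F_inj {c c' : Bool} {z z' : Sq} (h : ‖z.1‖ ≠ 1) (e : pr (eF 1 c z) = pr (eF 1 c' z')) :
    c = c' ∧ z = z' := by
  obtain ⟨g, e⟩ := pr_eq e
  have := face_inj (Sq.rho_ne h) (e.symm.trans (sh_face _ _ _ _))
  exact ⟨this.2.1, Subtype.ext this.2.2⟩

theorem pr_F_ne {c b : Bool} {z : Sq} {s : ℝ} (h : ‖z.1‖ ≠ 1) : pr (eF 1 c z) ≠ pr (eE 1 b s) :=
  fun e => by
    obtain ⟨g, e⟩ := pr_eq e
    exact face_not_mem (Sq.rho_ne h)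
      ⟨_, _, _, clamp_nonneg s, clamp_le_one s, (sh_edge _ _ _ _).symm.trans e⟩

theorem pr_E_inj {b b' : Bool} {s s' : ℝ} (h0 : 0 < s) (h1 : s < 1)
    (e : pr (eE 1 b s) = pr (eE 1 b' s')) : b = b' ∧ s = clamp s' := by
  obtain ⟨g, e⟩ := pr_eq e
  have e' : edge 1 b (clamp s) = _ := e.symm.trans (sh_edge _ _ _ _)
  rw [clamp_of_mem h0.le h1.le] at e'
  exact (edge_inj h0 h1 e').2

theorem eE_le (g : G5) (b : Bool) {s : ℝ} (h : s ≤ 0) : eE g b s = eV g :=
  Subtype.ext (by rw [eV_val]; simp [eE, clamp_of_le h, edge_zero])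

theorem eE_ge (g : G5) (b : Bool) {s : ℝ} (h : 1 ≤ s) : eE g b s = eV (g * gen) :=
  Subtype.ext (by rw [eV_val]; simp [eE, clamp_of_ge h, edge_one])

theorem pr_sphere (c : Bool) {z : Sq} (h : ‖z.1‖ = 1) :
    ∃ b s, (c = false → b = false) ∧ 0 ≤ s ∧ s ≤ 1 ∧ pr (eF 1 c z) = pr (eE 1 b s) := by
  obtain ⟨u, -, -, e⟩ := face_sphere 1 c h
  rcases wp_cases 1 (R c) ((R c).length * u) with ⟨k, e'⟩ | ⟨l, hl, k, s, h0, h1, e'⟩
  · refine ⟨false, 0, fun _ => rfl, le_rfl, zero_le_one, ?_⟩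
    rw [← pr_eE k]
    exact congrArg pr (Subtype.ext ((e.trans e').trans (eV_val k).symm))
  · refine ⟨l.1, s, ?_, h0, h1, ?_⟩
    · rintro rfl
      rw [List.eq_of_mem_replicate hl]
    · rw [← pr_eE k]
      refine congrArg pr (Subtype.ext (e.trans (e'.symm.trans ?_)))
      simp [eE, clamp_of_mem h0 h1]

theorem pr_E_F (b : Bool) (s : ℝ) : ∃ z : Sq, ‖z.1‖ = 1 ∧ pr (eE 1 b s) = pr (eF 1 b z) := by
  obtain ⟨h, z, hz, e⟩ := edge_face 1 b (clamp_nonneg s) (clamp_le_one s)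
  exact ⟨z, hz, by rw [← pr_eF h]; exact congrArg pr (Subtype.ext e.symm)⟩

theorem exists_pr (x : K) : ∃ c z, pr (eF 1 c z) = x := by
  obtain ⟨a, rfl⟩ := pr_cover.surjective x
  obtain ⟨g, c, z, rfl⟩ := exists_eF a
  exact ⟨c, z, (pr_eF g c z).symm⟩

def prj (z : Fin 2 → ℝ) : Sq := ⟨fun i => max (-1) (min 1 (z i)),
  mem_closedBall_zero_iff.2 ((pi_norm_le_iff_of_nonneg zero_le_one).2 fun _ =>
    abs_le.2 ⟨le_max_left _ _, max_le (by norm_num) (min_le_left _ _)⟩)⟩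

@[fun_prop] theorem continuous_prj : Continuous prj := Continuous.subtype_mk (by fun_prop) _

theorem prj_val (z : Sq) : prj z.1 = z := Subtype.ext (funext fun i => by
  simp only [prj]
  rw [min_eq_right (z.bounds i).2, max_eq_right (z.bounds i).1])

theorem prj_of_mem {z : Fin 2 → ℝ} (h : z ∈ closedBall 0 1) : prj z = ⟨z, h⟩ := prj_val ⟨z, h⟩

def Cell : ℕ → Type
  | 0 => Unit
  | 1 => Bool
  | 2 => Bool
  | _ + 3 => Empty

def chi : ∀ n, Cell n → (Fin n → ℝ) → E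
  | 0, _, _ => eV 1
  | 1, b, v => eE 1 b ((v 0 + 1) / 2)
  | 2, c, z => eF 1 c (prj z)
  | _ + 3, i, _ => i.elim

theorem continuous_chi : ∀ n i, Continuous (chi n i)
  | 0, _ => continuous_const
  | 1, b => (continuous_eE 1 b).comp (by fun_prop)
  | 2, c => (continuous_eF 1 c).comp continuous_prj
  | _ + 3, i => i.elim

theorem norm_fin1 (v : Fin 1 → ℝ) : ‖v‖ = |v 0| := by
  simp [Pi.norm_def]

theorem ball1 {v : Fin 1 → ℝ} (h : v ∈ ball 0 1) : 0 < (v 0 + 1) / 2 ∧ (v 0 + 1) / 2 < 1 := by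
  rw [mem_ball_zero_iff, norm_fin1, abs_lt] at h
  constructor <;> linarith [h.1, h.2]

theorem cball1 {v : Fin 1 → ℝ} (h : v ∈ closedBall 0 1) :
    0 ≤ (v 0 + 1) / 2 ∧ (v 0 + 1) / 2 ≤ 1 := by
  rw [mem_closedBall_zero_iff, norm_fin1, abs_le] at h
  constructor <;> linarith [h.1, h.2]

theorem ball2 {z : Fin 2 → ℝ} (h : z ∈ ball 0 1) : ‖(prj z).1‖ ≠ 1 := by
  rw [prj_of_mem (ball_subset_closedBall h)]
  exact (mem_ball_zero_iff.1 h).ne

theorem chi_inj : ∀ (n : ℕ) (i j : Cell n), ∀ z ∈ ball (0 : Fin n → ℝ) 1,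
    ∀ z' ∈ closedBall (0 : Fin n → ℝ) 1, pr (chi n i z) = pr (chi n j z') → i = j ∧ z = z'
  | 0, _, _, _, _, _, _, _ => ⟨rfl, Subsingleton.elim _ _⟩
  | 1, _, _, z, hz, z', hz', e => by
    have := pr_E_inj (ball1 hz).1 (ball1 hz).2 e
    rw [clamp_of_mem (cball1 hz').1 (cball1 hz').2] at this
    refine ⟨this.1, funext fun i => ?_⟩
    rw [Subsingleton.elim i 0]
    linarith [this.2]
  | 2, _, _, z, hz, z', hz', e => by
    have := pr_F_inj (ball2 hz) e
    rw [prj_of_mem (ball_subset_closedBall hz), prj_of_mem hz'] at this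
    exact ⟨this.1, congrArg Subtype.val this.2⟩
  | _ + 3, i, _, _, _, _, _, _ => i.elim

theorem chi_ne : ∀ (n m : ℕ) (i : Cell n) (j : Cell m), m < n → ∀ z ∈ ball (0 : Fin n → ℝ) 1,
    ∀ z', pr (chi n i z) ≠ pr (chi m j z')
  | 1, 0, _, _, _, z, hz, _ => fun e => by
    have := (pr_E_inj (ball1 hz).1 (ball1 hz).2 e).2
    rw [clamp_of_le le_rfl] at this
    exact (ball1 hz).1.ne' this
  | 2, 0, _, _, _, _, hz, _ => pr_F_ne (ball2 hz)
  | 2, 1, _, _, _, _, hz, _ => pr_F_ne (ball2 hz)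
  | _ + 3, _, i, _, _, _, _, _ => i.elim

def vec1 (s : ℝ) : Fin 1 → ℝ := fun _ => 2 * s - 1

theorem chi_vec1 (b : Bool) (s : ℝ) : chi 1 b (vec1 s) = eE 1 b s := by
  simp [chi, vec1]

theorem chi_sphere : ∀ (n : ℕ) (i : Cell n), ∀ z ∈ sphere (0 : Fin n → ℝ) 1,
    ∃ m < n, ∃ j : Cell m, ∃ z' ∈ closedBall (0 : Fin m → ℝ) 1, pr (chi m j z') = pr (chi n i z)
  | 0, _, z, hz => by
    rw [Subsingleton.elim z 0, mem_sphere_zero_iff_norm, norm_zero] at hz
    exact absurd hz zero_ne_one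
  | 1, b, z, hz => by
    refine ⟨0, zero_lt_one, (), 0, by simp, ?_⟩
    rw [mem_sphere_zero_iff_norm, norm_fin1, abs_eq zero_le_one] at hz
    rcases hz with h | h
    · rw [chi, chi, eE_ge _ _ (by simp [h]), pr_eV (1 * gen)]
    · rw [chi, chi, eE_le _ _ (by simp [h])]
  | 2, c, z, hz => by
    obtain ⟨b, s, -, h0, h1, e⟩ := pr_sphere c (z := prj z) (by
      rw [prj_of_mem (sphere_subset_closedBall hz)]
      exact mem_sphere_zero_iff_norm.1 hz)
    refine ⟨1, one_lt_two, b, vec1 s, ?_, by rw [chi_vec1]; exact e.symm⟩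
    rw [mem_closedBall_zero_iff, norm_fin1, abs_le, vec1]
    constructor <;> linarith
  | _ + 3, i, _, _ => i.elim

theorem chi_injOn (n : ℕ) (i : Cell n) : InjOn (fun z => pr (chi n i z)) (ball 0 1) :=
  fun z hz z' hz' e => (chi_inj n i i z hz z' (ball_subset_closedBall hz') e).2

def cmap (n : ℕ) (i : Cell n) : PartialEquiv (Fin n → ℝ) K :=
  (chi_injOn n i).toPartialEquiv _ _

theorem cmap_apply (n : ℕ) (i : Cell n) (z : Fin n → ℝ) : cmap n i z = pr (chi n i z) := rfl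

theorem cell_finite : ∀ n, Finite (Cell n)
  | 0 => inferInstanceAs (Finite Unit)
  | 1 => inferInstanceAs (Finite Bool)
  | 2 => inferInstanceAs (Finite Bool)
  | _ + 3 => inferInstanceAs (Finite Empty)

theorem cell_empty : ∀ᶠ n in Filter.atTop, IsEmpty (Cell n) :=
  Filter.eventually_atTop.2 ⟨3, fun n hn => by
    obtain ⟨k, rfl⟩ := Nat.exists_eq_add_of_le' hn
    exact inferInstanceAs (IsEmpty Empty)⟩

theorem cmap_cont (n : ℕ) (i : Cell n) : ContinuousOn (cmap n i) (closedBall 0 1) :=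
  (continuous_pr.comp (continuous_chi n i)).continuousOn

theorem cmap_symm (n : ℕ) (i : Cell n) : ContinuousOn (cmap n i).symm (cmap n i).target :=
  continuousOn_inv_cell (cmap_cont n i) (fun z hz z' hz' e => (chi_inj n i i z hz z' hz' e).2)
    fun _ hz => (cmap n i).left_inv hz

theorem cmap_disj : (univ : Set (Σ n, Cell n)).PairwiseDisjoint
    fun ni => cmap ni.1 ni.2 '' ball 0 1 := by
  rintro ⟨n, i⟩ - ⟨m, j⟩ - hne
  refine disjoint_left.2 ?_
  rintro _ ⟨z, hz, rfl⟩ ⟨z', hz', e⟩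
  rcases lt_trichotomy n m with h | rfl | h
  · exact chi_ne m n j i h z' hz' z e
  · obtain ⟨rfl, -⟩ := chi_inj n j i z' hz' z (ball_subset_closedBall hz) e
    exact hne rfl
  · exact chi_ne n m i j h z hz z' e.symm

theorem cmap_mapsTo (n : ℕ) (i : Cell n) : MapsTo (cmap n i) (sphere 0 1)
    (⋃ m, ⋃ (_ : m < n), ⋃ j : Cell m, cmap m j '' closedBall 0 1) := fun z hz => by
  obtain ⟨m, hm, j, z', hz', e⟩ := chi_sphere n i z hz
  simp only [mem_iUnion]
  exact ⟨m, hm, j, z', hz', e⟩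

theorem cmap_union : ⋃ n, ⋃ j : Cell n, cmap n j '' closedBall 0 1 = univ :=
  eq_univ_of_forall fun x => by
    obtain ⟨c, z, rfl⟩ := exists_pr x
    simp only [mem_iUnion]
    exact ⟨2, c, z.1, z.2, by rw [cmap_apply, chi, prj_val]⟩

instance cwK : CWComplex (univ : Set K) :=
  CWComplex.mkFinite univ Cell cmap cell_empty cell_finite (fun _ _ => rfl) cmap_cont cmap_symm
    cmap_disj cmap_mapsTo cmap_union

theorem finiteK : CWComplex.Finite (univ : Set K) :=
  CWComplex.finite_mkFinite univ Cell cmap cell_empty cell_finite (fun _ _ => rfl) cmap_cont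
    cmap_symm cmap_disj cmap_mapsTo cmap_union

def Lset : Set K := range fun z : Sq => pr (eF 1 false z)

theorem mem_L_E (s : ℝ) : pr (eE 1 false s) ∈ Lset := by
  obtain ⟨z, -, e⟩ := pr_E_F false s
  exact ⟨z, e.symm⟩

def LI : ∀ n, Set (Cell n)
  | 0 => univ
  | 1 => {false}
  | 2 => {false}
  | _ + 3 => univ

def Lsub : CWComplex.Subcomplex (univ : Set K) where
  carrier := Lset
  I := LI
  closed' := (isCompact_range (by fun_prop)).isClosed
  union' := by
    rw [empty_union]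
    ext x
    simp only [mem_iUnion]
    constructor
    · rintro ⟨n, ⟨j, hj⟩, z, -, rfl⟩
      match n, j, hj with
      | 0, _, _ => exact mem_L_E 0
      | 1, _, rfl => exact mem_L_E _
      | 2, _, rfl => exact ⟨prj z, rfl⟩
      | _ + 3, j, _ => exact j.elim
    · rintro ⟨z, rfl⟩
      by_cases h : ‖z.1‖ = 1
      · obtain ⟨b, s, hb, h0, h1, e⟩ := pr_sphere false h
        obtain rfl := hb rfl
        rcases h0.eq_or_lt with rfl | h0
        · exact ⟨0, ⟨(), trivial⟩, 0, by simp, e.symm⟩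
        · rcases h1.eq_or_lt with rfl | h1
          · refine ⟨0, ⟨(), trivial⟩, 0, by simp, ?_⟩
            rw [eE_ge _ _ le_rfl, pr_eV] at e
            exact e.symm
          · refine ⟨1, ⟨false, rfl⟩, vec1 s, ?_, (congrArg pr (chi_vec1 _ _)).trans e.symm⟩
            rw [mem_ball_zero_iff, norm_fin1, abs_lt, vec1]
            constructor <;> linarith
      · exact ⟨2, ⟨false, rfl⟩, z.1, mem_ball_zero_iff.2
          (lt_of_le_of_ne (mem_closedBall_zero_iff.1 z.2) h), congrArg (fun w => pr (eF 1 false w))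
            (prj_val z)⟩

theorem connected_L : IsConnected Lset := by
  have : ConnectedSpace Sq := isConnected_iff_connectedSpace.1
    ((convex_closedBall _ _).isConnected (by simp))
  exact isConnected_range (by fun_prop)

end Pool.Agent.Lib.MP_2add11_gt
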