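import Mathlib

/-!
General topology: simple connectivity from an open cover, a union of discs with common boundary,
lifting a deformation retraction to a covering space, inverses of characteristic maps.
-/

noncomputable section

namespace Pool.Agent.Lib.MP_2add11_gt

open unitInterval Set Metric Topology

theorem homotopic_of_mem {X : Type} [TopologicalSpace X] {U : Set X} (hU : IsSimplyConnected U)
    {a b : X} (p q : Path a b) (hp : ∀ s, p s ∈ U) (hq : ∀ s, q s ∈ U) : p.Homotopic q := by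
  have := hU.simplyConnectedSpace
  have ha : a ∈ U := by simpa using hp 0
  have hb : b ∈ U := by simpa using hp 1
  let p' : Path (⟨a, ha⟩ : U) ⟨b, hb⟩ :=
    ⟨⟨fun s => ⟨p s, hp s⟩, by fun_prop⟩, by simp, by simp⟩
  let q' : Path (⟨a, ha⟩ : U) ⟨b, hb⟩ :=
    ⟨⟨fun s => ⟨q s, hq s⟩, by fun_prop⟩, by simp, by simp⟩
  exact (SimplyConnectedSpace.paths_homotopic p' q').map ⟨Subtype.val, continuous_subtype_val⟩

theorem simplyConnected_of_cover {X ι : Type} [TopologicalSpace X] (x0 : X) (U : ι → Set X)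
    (ho : ∀ i, IsOpen (U i)) (hc : ∀ x, ∃ i, x ∈ U i) (h0 : ∀ i, x0 ∈ U i)
    (hp : ∀ i j, IsPathConnected (U i ∩ U j)) (hs : ∀ i, IsSimplyConnected (U i)) :
    SimplyConnectedSpace X := by
  choose c hc using hc
  have hj : ∀ i j z, z ∈ U i → z ∈ U j → JoinedIn (U i ∩ U j) x0 z := fun i j z hi hj =>
    (hp i j).joinedIn _ ⟨h0 i, h0 j⟩ _ ⟨hi, hj⟩
  let δ : ∀ z, Path x0 z := fun z => (hj _ _ z (hc z) (hc z)).somePath
  have hδ : ∀ i z (p : Path x0 z), (∀ s, p s ∈ U i) → p.Homotopic (δ z) := fun i z p h => by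
    have hz : z ∈ U i := by simpa using h 1
    have h1 := hj _ _ z hz (hc z)
    exact (homotopic_of_mem (hs i) p h1.somePath h fun s => (h1.somePath_mem s).1).trans
      (homotopic_of_mem (hs (c z)) _ _ (fun s => (h1.somePath_mem s).2)
        fun s => ((hj _ _ z (hc z) (hc z)).somePath_mem s).1)
  have key : ∀ {a b : X} (γ : Path a b), ((δ a).trans γ).Homotopic (δ b) := fun {a b} γ => by
    obtain ⟨t, t0, tm, ⟨n, tn⟩, ht⟩ := exists_monotone_Icc_subset_open_cover_unitInterval
      (c := fun i => γ ⁻¹' U i) (fun i => (ho i).preimage γ.continuous)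
      fun s _ => mem_iUnion.2 ⟨_, hc (γ s)⟩
    have h : ∀ k, ((δ (γ 0)).trans (γ.subpath 0 (t k))).Homotopic (δ (γ (t k))) := fun k => by
      induction k with
      | zero =>
        rw [t0, Path.subpath_self]
        exact Path.Homotopic.trans_refl _
      | succ k ih =>
        obtain ⟨i, hi⟩ := ht k
        have hle : t k ≤ t (k + 1) := tm k.le_succ
        have hz : γ (t k) ∈ U i := hi ⟨le_rfl, hle⟩
        have h1 := hj _ _ _ hz hz
        refine ((Path.Homotopic.refl _).hcomp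
          ⟨(Path.Homotopy.subpathTransSubpath γ 0 (t k) (t (k + 1))).symm⟩).trans ?_
        refine (Path.Homotopic.trans_assoc _ _ _).symm.trans ?_
        refine ((ih.trans (hδ i _ h1.somePath fun s => (h1.somePath_mem s).1).symm).hcomp
          (Path.Homotopic.refl _)).trans (hδ i _ _ fun s => ?_)
        have : (h1.somePath.trans (γ.subpath (t k) (t (k + 1)))) s ∈
            range h1.somePath ∪ range (γ.subpath (t k) (t (k + 1))) := by
          rw [← Path.trans_range]; exact mem_range_self s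
        rcases this with ⟨u, hu⟩ | hu
        · exact hu ▸ (h1.somePath_mem u).1
        · rw [Path.range_subpath_of_le _ _ _ hle] at hu
          obtain ⟨u, hu, e⟩ := hu
          exact e ▸ hi hu
    have h1 := h n
    rw [tn n le_rfl, Path.subpath_zero_one] at h1
    have ea := γ.source
    have eb := γ.target
    have aux : ∀ (a' b' : X) (e1 : a' = a) (e2 : b' = b),
        ((δ a').trans (γ.cast e1 e2)).Homotopic (δ b') → ((δ a).trans γ).Homotopic (δ b) := by
      rintro _ _ rfl rfl h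
      exact h
    exact aux _ _ _ _ h1
  rw [simply_connected_iff_paths_homotopic']
  refine ⟨⟨⟨x0⟩, fun a b => ⟨(δ a).symm.trans (δ b)⟩⟩, fun {a b} p q => ?_⟩
  have h : ∀ p : Path a b, p.Homotopic ((δ a).symm.trans (δ b)) := fun p =>
    (Path.Homotopic.refl_trans p).symm.trans
      ((((Path.Homotopic.symm_trans (δ a)).symm.hcomp (Path.Homotopic.refl p)).trans
        (Path.Homotopic.trans_assoc _ _ _)).trans ((Path.Homotopic.refl _).hcomp (key p)))
  exact (h p).trans (h q).symm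

theorem descend {A B Z : Type} [TopologicalSpace A] [TopologicalSpace B] [TopologicalSpace Z]
    {q : A → B} (hq : IsQuotientMap q) (F : I × A → Z) (hF : Continuous F)
    (h : ∀ s a a', q a = q a' → F (s, a) = F (s, a')) :
    ∃ G : C(I × B, Z), ∀ s a, G (s, q a) = F (s, a) := by
  have e : ∀ s a, F (s, Function.surjInv hq.surjective (q a)) = F (s, a) := fun s a =>
    h _ _ _ (Function.surjInv_eq _ _)
  refine ⟨⟨fun x => F (x.1, Function.surjInv hq.surjective x.2),
    hq.continuous_lift_prod_right ?_⟩, e⟩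
  simpa only [e] using hF

theorem simplyConnected_of_retract {E X : Type} [TopologicalSpace E] [TopologicalSpace X]
    {p : E → X} (hp : IsCoveringMap p) {L : Set X} (H : C(I × X, X)) (h0 : ∀ x, H (0, x) = x)
    (h1 : ∀ x, H (1, x) ∈ L) (h2 : ∀ s, ∀ x ∈ L, H (s, x) = x)
    [SimplyConnectedSpace (p ⁻¹' L)] : SimplyConnectedSpace E := by
  have hc := hp.continuous
  let H' : C(I × E, X) := ⟨fun x => H (x.1, p x.2), by fun_prop⟩
  let G := hp.liftHomotopy H' (ContinuousMap.id E) fun a => h0 _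
  have g1 : ∀ x, p (G x) = H (x.1, p x.2) := congrFun (hp.liftHomotopy_lifts H' _ _)
  have g0 : ∀ e, G (0, e) = e := hp.liftHomotopy_zero H' _ _
  have g2 : ∀ s, ∀ e ∈ p ⁻¹' L, G (s, e) = e := fun s e he =>
    (hp.const_of_comp (g := fun s : I => G (s, e)) (by fun_prop)
      (fun a a' => by rw [g1, g1, h2 _ _ he, h2 _ _ he]) s 0).trans (g0 e)
  let e : ContinuousMap.HomotopyEquiv E (p ⁻¹' L) :=
    { toFun := ⟨fun e => ⟨G (1, e), by rw [mem_preimage, g1]; exact h1 _⟩, by fun_prop⟩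
      invFun := ⟨Subtype.val, continuous_subtype_val⟩
      left_inv := ⟨ContinuousMap.Homotopy.symm ⟨G, g0, fun _ => rfl⟩⟩
      right_inv := by
        have : ∀ f : C(p ⁻¹' L, p ⁻¹' L), f = .id _ → f.Homotopic (.id _) := by
          rintro _ rfl
          exact .refl _
        exact this _ (ContinuousMap.ext fun x => Subtype.ext (g2 1 _ x.2)) }
  exact e.simplyConnectedSpace

theorem continuousOn_inv_cell {V X : Type} [NormedAddCommGroup V] [ProperSpace V]
    [TopologicalSpace X] [T2Space X] {f : V → X} {g : X → V}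
    (hf : ContinuousOn f (closedBall 0 1))
    (hi : ∀ z ∈ ball (0 : V) 1, ∀ z' ∈ closedBall (0 : V) 1, f z = f z' → z = z')
    (hg : ∀ z ∈ ball (0 : V) 1, g (f z) = z) : ContinuousOn g (f '' ball 0 1) := by
  rintro _ ⟨x, hx, rfl⟩
  rw [ContinuousWithinAt, hg x hx]
  intro W hW
  obtain ⟨W', h1, h2, h3⟩ := _root_.mem_nhds_iff.1 hW
  have hK : IsCompact (closedBall (0 : V) 1 \ W') := (isCompact_closedBall _ _).diff h2
  have hc : IsClosed (f '' (closedBall (0 : V) 1 \ W')) :=
    (hK.image_of_continuousOn (hf.mono sdiff_subset)).isClosed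
  refine mem_nhdsWithin.2 ⟨_, hc.isOpen_compl, ?_, ?_⟩
  · rintro ⟨z, hz, e⟩
    exact hz.2 (hi x hx z hz.1 e.symm ▸ h3)
  · rintro _ ⟨hy, z, hz, rfl⟩
    rw [mem_preimage, hg z hz]
    by_contra h
    exact hy ⟨z, ⟨ball_subset_closedBall hz, fun h' => h (h1 h')⟩, rfl⟩

/-- The closed square. -/
abbrev Sq : Type := closedBall (0 : Fin 2 → ℝ) 1

def radial (s : I) (z : Sq) (hz : z.1 ≠ 0) : Sq :=
  ⟨((1 - s) + s / ‖z.1‖) • z.1, by
    have h0 : 0 < ‖z.1‖ := norm_pos_iff.2 hz
    have h1 : ‖z.1‖ ≤ 1 := mem_closedBall_zero_iff.1 z.2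
    have h2 := nonneg s
    have h3 := one_minus_nonneg s
    rw [mem_closedBall_zero_iff, norm_smul, Real.norm_of_nonneg (by positivity), add_mul,
      div_mul_cancel₀ _ h0.ne']
    nlinarith⟩

theorem radial_zero (z : Sq) (hz : z.1 ≠ 0) : radial 0 z hz = z := Subtype.ext (by simp [radial])

theorem radial_sphere (s : I) (z : Sq) (hz : z.1 ≠ 0) (h : ‖z.1‖ = 1) : radial s z hz = z :=
  Subtype.ext (by simp [radial, h])

theorem radial_one (z : Sq) (hz : z.1 ≠ 0) : ‖(radial 1 z hz).1‖ = 1 := by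
  simp [radial, norm_smul, hz]

theorem radial_ne (s : I) (z : Sq) (hz : z.1 ≠ 0) : (radial s z hz).1 ≠ 0 := by
  have h0 : 0 < ‖z.1‖ := norm_pos_iff.2 hz
  have h1 : ‖z.1‖ ≤ 1 := mem_closedBall_zero_iff.1 z.2
  refine smul_ne_zero (ne_of_gt ?_) hz
  have h2 : (s : ℝ) ≤ s / ‖z.1‖ := by
    rw [le_div_iff₀ h0]
    nlinarith [nonneg s]
  linarith

theorem simplyConnected_of_discs {Y ι : Type} [TopologicalSpace Y] [T2Space Y] [Finite ι]
    [Nonempty ι] (φ : ι → Sq → Y) (hφ : ∀ i, Continuous (φ i)) (hs : ∀ y, ∃ i z, φ i z = y)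
    (hi : ∀ i j z z', ‖z.1‖ ≠ 1 → φ i z = φ j z' → i = j ∧ z = z')
    (hb : ∀ i j z, ‖z.1‖ = 1 → ∃ z', ‖z'.1‖ = 1 ∧ φ j z' = φ i z)
    (N : C(I × Sq, Sq)) (N0 : ∀ z, N (0, z) = z) (N1 : ∀ i z z', φ i (N (1, z)) = φ i (N (1, z')))
    (N2 : ∀ i s z z', φ i z = φ i z' → φ i (N (s, z)) = φ i (N (s, z'))) :
    SimplyConnectedSpace Y := by
  classical
  let : TopologicalSpace ι := ⊥
  have : DiscreteTopology ι := ⟨rfl⟩
  have : CompactSpace Sq := isCompact_iff_compactSpace.1 (isCompact_closedBall _ _)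
  let o : Sq := ⟨0, by simp⟩
  let q : ι × Sq → Y := fun x => φ x.1 x.2
  have hqc : Continuous q := continuous_prod_of_discrete_left.2 hφ
  have hq : IsQuotientMap q := hqc.isClosedMap.isQuotientMap hqc fun y => by
    obtain ⟨i, z, e⟩ := hs y
    exact ⟨(i, z), e⟩
  let W : Set ι → Set Y := fun S => (⋃ i ∈ S, {φ i o})ᶜ
  have hWo : ∀ S, IsOpen (W S) := fun S =>
    ((toFinite S).isClosed_biUnion fun _ _ => isClosed_singleton).isOpen_compl
  have hW : ∀ S i z, φ i z ∈ W S ↔ (i ∈ S → z.1 ≠ 0) := fun S i z => by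
    simp only [W, mem_compl_iff, mem_iUnion, mem_singleton_iff, not_exists]
    constructor
    · intro h hi hz
      exact h i hi (congrArg _ (Subtype.ext hz))
    · intro h j hj e
      obtain ⟨rfl, rfl⟩ := hi j i o z (by simp [o]) e.symm
      exact h hj rfl
  have hrad : ∀ S, ∃ G : C(I × W S, W S), (∀ y, G (0, y) = y) ∧
      ∀ y, ∃ i z, (i ∈ S → ‖z.1‖ = 1) ∧ φ i z = G (1, y) := fun S => by
    let F : I × (q ⁻¹' W S) → W S := fun x =>
      if h : x.2.1.1 ∈ S then ⟨φ x.2.1.1 (radial x.1 x.2.1.2 ((hW S _ _).1 x.2.2 h)),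
        (hW S _ _).2 fun _ => radial_ne _ _ _⟩ else ⟨q x.2.1, x.2.2⟩
    have hF : Continuous F := by
      have ho : ∀ i : ι, IsOpen {x : I × (q ⁻¹' W S) | x.2.1.1 = i} := fun i =>
        (isOpen_discrete {i}).preimage (by fun_prop)
      refine continuous_of_cover_nhds (s := fun i : ι => {x | x.2.1.1 = i})
        (fun x => ⟨_, (ho _).mem_nhds rfl⟩) fun i => ?_
      rw [continuousOn_iff_continuous_domRestrict]
      by_cases h : i ∈ S
      · have hz : ∀ x : {x : I × (q ⁻¹' W S) | x.2.1.1 = i}, x.1.2.1.2.1 ≠ 0 := fun x =>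
          (hW S _ _).1 x.1.2.2 (by rw [show x.1.2.1.1 = i from x.2]; exact h)
        have : Continuous fun x : {x : I × (q ⁻¹' W S) | x.2.1.1 = i} =>
            φ i (radial x.1.1 x.1.2.1.2 (hz x)) :=
          (hφ i).comp (Continuous.subtype_mk (Continuous.smul (Continuous.add (by fun_prop)
            (Continuous.div (by fun_prop) (by fun_prop) fun x => norm_ne_zero_iff.2 (hz x)))
            (by fun_prop)) _)
        refine continuous_induced_rng.2 (this.congr ?_)
        rintro ⟨⟨s, ⟨j, z⟩, hz⟩, rfl⟩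
        simp only [Function.comp_apply, domRestrict_apply, F, dif_pos h]
      · have : Continuous fun x : {x : I × (q ⁻¹' W S) | x.2.1.1 = i} => q x.1.2.1 := by fun_prop
        refine continuous_induced_rng.2 (this.congr ?_)
        rintro ⟨⟨s, ⟨j, z⟩, hz⟩, rfl⟩
        simp only [Function.comp_apply, domRestrict_apply, F, dif_neg h]
    obtain ⟨G, hG⟩ := descend (hq.restrictPreimage_isOpen (hWo S)) F hF (by
      rintro s ⟨⟨i, z⟩, hz⟩ ⟨⟨j, z'⟩, hz'⟩ e
      have e' : φ i z = φ j z' := congrArg Subtype.val e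
      by_cases h1 : ‖z.1‖ = 1
      · by_cases h2 : ‖z'.1‖ = 1
        · apply Subtype.ext
          simp only [F]
          split_ifs <;> simp only [radial_sphere _ _ _ h1, radial_sphere _ _ _ h2, q, e']
        · obtain ⟨rfl, rfl⟩ := hi _ _ _ _ h2 e'.symm
          rfl
      · obtain ⟨rfl, rfl⟩ := hi _ _ _ _ h1 e'
        rfl)
    refine ⟨G, fun y => ?_, fun y => ?_⟩
    · obtain ⟨a, rfl⟩ := (hq.restrictPreimage_isOpen (hWo S)).surjective y
      rw [hG]
      apply Subtype.ext
      simp only [F]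
      split_ifs
      · simp only [radial_zero]; rfl
      · rfl
    · obtain ⟨a, rfl⟩ := (hq.restrictPreimage_isOpen (hWo S)).surjective y
      rw [hG]
      simp only [F]
      split_ifs with h
      · exact ⟨_, _, fun _ => radial_one _ _, rfl⟩
      · exact ⟨_, _, fun h' => absurd h' h, rfl⟩
  obtain ⟨i0⟩ := ‹Nonempty ι›
  let z0 : Sq := ⟨1, by simp⟩
  have hz0 : ‖z0.1‖ = 1 := by simp [z0]
  have hsph : ∀ S i z, ‖z.1‖ = 1 → φ i z ∈ W S := fun S i z h =>
    (hW S i z).2 fun _ e => by simp [e] at h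
  have hsc : ∀ g, IsSimplyConnected (W {g}ᶜ) := fun g => by
    obtain ⟨G, G0, G1⟩ := hrad {g}ᶜ
    have hqg : IsQuotientMap (rangeFactorization (φ g)) :=
      (hφ g).rangeFactorization.isClosedMap.isQuotientMap (hφ g).rangeFactorization
        rangeFactorization_surjective
    obtain ⟨K, hK⟩ := descend hqg
      (fun x : I × Sq => (⟨φ g (N x), (hW _ _ _).2 fun h => absurd rfl h⟩ : W {g}ᶜ))
      (by have := hφ g; fun_prop)
      fun s z z' e => Subtype.ext (N2 g s z z' (congrArg Subtype.val e))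
    have hr : ∀ y, (G (1, y)).1 ∈ range (φ g) := fun y => by
      obtain ⟨i, z, h1, h2⟩ := G1 y
      by_cases h : i = g
      · exact ⟨z, h ▸ h2⟩
      · obtain ⟨z', -, e⟩ := hb i g z (h1 h)
        exact ⟨z', e.trans h2⟩
    let r : C(W {g}ᶜ, range (φ g)) := ⟨fun y => ⟨_, hr y⟩, by fun_prop⟩
    have : ContractibleSpace (W {g}ᶜ) := by
      rw [contractible_iff_id_nullhomotopic]
      refine ⟨⟨φ g (N (1, o)), (hW _ _ _).2 fun h => absurd rfl h⟩,
        ContinuousMap.Homotopic.trans (g := ⟨fun y => G (1, y), by fun_prop⟩)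
          ⟨⟨G, G0, fun _ => rfl⟩⟩ ⟨⟨⟨fun x => K (x.1, r x.2), by fun_prop⟩, fun y => ?_, fun y => ?_⟩⟩⟩
      · obtain ⟨z, hz⟩ := rangeFactorization_surjective (r y)
        change K (0, r y) = G (1, y)
        rw [← hz, hK]
        apply Subtype.ext
        simp only [N0]
        exact congrArg Subtype.val hz
      · obtain ⟨z, hz⟩ := rangeFactorization_surjective (r y)
        change K (1, r y) = _
        rw [← hz, hK]
        exact Subtype.ext (N1 _ _ _)
    exact SimplyConnectedSpace.ofContractible _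
  have hpc : IsPathConnected (W univ) := by
    obtain ⟨G, G0, G1⟩ := hrad univ
    have h1 : IsPathConnected (φ i0 '' {z | ‖z.1‖ = 1}) := by
      refine IsPathConnected.image ?_ (hφ i0)
      have := (isPathConnected_sphere (E := Fin 2 → ℝ) (by simp) 0 zero_le_one).preimage_coe
        (sphere_subset_closedBall)
      simpa only [preimage, mem_sphere_zero_iff_norm] using this
    refine ⟨φ i0 z0, hsph _ _ _ hz0, fun {y} hy => ?_⟩
    obtain ⟨i, z, h2, h3⟩ := G1 ⟨y, hy⟩
    obtain ⟨z', h4, h5⟩ := hb i i0 z (h2 trivial)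
    refine ((h1.joinedIn _ ⟨z0, hz0, rfl⟩ _ ⟨z', h4, rfl⟩).mono ?_).trans (JoinedIn.symm ?_)
    · rintro _ ⟨w, hw, rfl⟩
      exact hsph _ _ _ hw
    · exact ⟨⟨⟨fun s => (G (s, ⟨y, hy⟩)).1, by fun_prop⟩, congrArg Subtype.val (G0 _),
        (h5.trans h3).symm⟩, fun s => (G (s, ⟨y, hy⟩)).2⟩
  refine simplyConnected_of_cover (φ i0 z0) (fun g => W {g}ᶜ) (fun _ => hWo _) (fun y => ?_)
    (fun _ => hsph _ _ _ hz0) (fun i j => ?_) hsc
  · obtain ⟨i, z, rfl⟩ := hs y
    exact ⟨i, (hW _ _ _).2 fun h => absurd rfl h⟩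
  · by_cases h : i = j
    · subst h
      simpa using (hsc i).isPathConnected
    · have : W {i}ᶜ ∩ W {j}ᶜ = W univ := by
        ext y
        obtain ⟨k, z, rfl⟩ := hs y
        simp only [mem_inter_iff, hW, mem_compl_iff, mem_singleton_iff, mem_univ, true_imp_iff]
        refine ⟨fun h' => ?_, fun h' => ⟨fun _ => h', fun _ => h'⟩⟩
        by_cases hk : k = i
        · exact h'.2 (hk ▸ h)
        · exact h'.1 hk
      exact this ▸ hpc

end Pool.Agent.Lib.MP_2add11_gt
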