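import Mathlib

/-!
The Whitehead group, finite CW pairs with their universal covers, and Whitehead torsion of a
deformation retract pair of relative dimension at most two.
-/

noncomputable section

namespace Pool.Agent.Lib.MP_2add11_gt

open Set Metric Topology

/-- Relations of `K₁(R)` on the free abelian group on all invertible matrices:
`[AB] = [A] + [B]` and `[A ⊕ 1] = [A]`. -/
def K1Rel (R : Type) [Ring R] : Set (FreeAbelianGroup (Σ n : ℕ, GL (Fin n) R)) :=
  {x | (∃ (n : ℕ) (A B : GL (Fin n) R),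
          x = .of ⟨n, A * B⟩ - .of ⟨n, A⟩ - .of ⟨n, B⟩) ∨
       (∃ (n : ℕ) (A : GL (Fin n) R) (B : GL (Fin (n + 1)) R),
          (∀ i j : Fin n, B.val i.castSucc j.castSucc = A.val i j) ∧
          (∀ i : Fin n, B.val i.castSucc (Fin.last n) = 0 ∧ B.val (Fin.last n) i.castSucc = 0) ∧
          B.val (Fin.last n) (Fin.last n) = 1 ∧ x = .of ⟨n + 1, B⟩ - .of ⟨n, A⟩)}

/-- `K₁(R)`, the colimit of the abelianised groups `GL_n(R)`, written additively. -/
abbrev K1 (R : Type) [Ring R] : Type :=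
  FreeAbelianGroup (Σ n : ℕ, GL (Fin n) R) ⧸ AddSubgroup.closure (K1Rel R)

/-- The class in `K₁(R)` of an invertible matrix. -/
def K1.cls {R : Type} [Ring R] {n : ℕ} (A : GL (Fin n) R) : K1 R :=
  QuotientAddGroup.mk (FreeAbelianGroup.of ⟨n, A⟩)

/-- The classes in `K₁(ℤπ)` of the units `±g`. -/
def trivialUnits (π : Type) [Group π] : Set (K1 (MonoidAlgebra ℤ π)) :=
  {x | ∃ (g : π) (A : GL (Fin 1) (MonoidAlgebra ℤ π)),
    (A.val 0 0 = MonoidAlgebra.single g 1 ∨ A.val 0 0 = -MonoidAlgebra.single g 1) ∧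
      x = K1.cls A}

/-- The Whitehead group `Wh(π) = K₁(ℤπ) / ⟨±g⟩`. -/
abbrev Wh (π : Type) [Group π] : Type :=
  K1 (MonoidAlgebra ℤ π) ⧸ AddSubgroup.closure (trivialUnits π)

/-- The class in `Wh(π)` of an invertible matrix over `ℤπ`. -/
def Wh.cls {π : Type} [Group π] {n : ℕ} (A : GL (Fin n) (MonoidAlgebra ℤ π)) : Wh π :=
  QuotientAddGroup.mk (K1.cls A)

/-- A finite CW pair `(K, L)` with `L` connected, `L` a deformation retract of `K` and
`dim (K - L) ≤ 2`, together with a universal cover `p : E → K` whose deck group is `π`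
(this identifies `π` with `π₁(K) = π₁(L)`). -/
structure Pair (π : Type) [Group π] : Type 1 where
  K : Type
  [top : TopologicalSpace K]
  [t2 : T2Space K]
  [cw : CWComplex (univ : Set K)]
  finite : CWComplex.Finite (univ : Set K)
  L : CWComplex.Subcomplex (univ : Set K)
  connected : IsConnected (L : Set K)
  retract : ∃ H : C(unitInterval × K, K), (∀ x, H (0, x) = x) ∧ (∀ x, H (1, x) ∈ (L : Set K)) ∧
    ∀ s, ∀ x ∈ (L : Set K), H (s, x) = x
  dim : ∀ k, 2 < k → ∀ i, i ∈ L.I k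
  E : Type
  [topE : TopologicalSpace E]
  [act : MulAction π E]
  p : E → K
  simply : SimplyConnectedSpace E
  cover : IsQuotientCoveringMap p π

attribute [instance] Pair.top Pair.t2 Pair.cw Pair.topE Pair.act

/-- The `k`-cells of `K - L`. -/
def Pair.Cell {π : Type} [Group π] (P : Pair π) (k : ℕ) : Type :=
  {i : RelCWComplex.cell (univ : Set P.K) k // i ∉ P.L.I k}

/-- Clamping a real number to `[0, 1]`. -/
def clamp (s : ℝ) : ℝ := max 0 (min 1 s)

/-- The boundary of the square `[-1, 1]²`, run through once anticlockwise for `s ∈ [0, 4]`. -/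
def sqLoop (s : ℝ) : Fin 2 → ℝ :=
  ![-1 + 2 * clamp s - 2 * clamp (s - 2), -1 + 2 * clamp (s - 1) - 2 * clamp (s - 3)]

/-- `d` is the incidence number of the 2-cell `Φ` with the 1-cell `ψ`: the degree of the boundary
loop of `Φ` followed by the map to `ℝ/ℤ` that is the coordinate on the open cell `ψ` and collapses
everything else; `f` is a lift to `ℝ` of this loop. -/
def Incidence {E : Type} (Φ : (Fin 2 → ℝ) → E) (ψ : (Fin 1 → ℝ) → E) (d : ℤ) : Prop :=
  ∃ f : ℝ → ℝ, ContinuousOn f (Icc 0 4) ∧ f 4 - f 0 = d ∧ ∀ s ∈ Icc (0 : ℝ) 4,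
    (∀ v ∈ ball (0 : Fin 1 → ℝ) 1, Φ (sqLoop s) = ψ v → ∃ k : ℤ, f s = (v 0 + 1) / 2 + k) ∧
    (Φ (sqLoop s) ∉ ψ '' ball 0 1 → ∃ k : ℤ, f s = k)

open Classical in
/-- `τ` is the Whitehead torsion `τ(K, L)`.  The lifts `Φ` of the cells of `K - L` are the
preferred bases of `C₂ → C₁ → C₀`, the cellular chain complex of `(E, p⁻¹ L)` over `ℤπ`.  The rows
of `M` indexed by 2-cells are the matrix of `∂₂`, `D` is the matrix of `∂₁`, the rows of `M`
indexed by 0-cells are the matrix of a splitting `δ` of `∂₁`; so `M` is the matrix of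
`∂ + δ : C_even → C_odd`, and the torsion, the class of `∂ + δ : C_odd → C_even`, is `-[M]`. -/
def Pair.HasTorsion {π : Type} [Group π] (P : Pair π) (τ : Wh π) : Prop :=
  ∃ (n : ℕ) (a : Fin n ≃ P.Cell 1) (b : P.Cell 2 ⊕ P.Cell 0 ≃ Fin n)
    (Φ : ∀ k, P.Cell k → (Fin k → ℝ) → P.E) (M : GL (Fin n) (MonoidAlgebra ℤ π))
    (D : Fin n → P.Cell 0 → MonoidAlgebra ℤ π),
    (∀ k i, ContinuousOn (Φ k i) (closedBall 0 1) ∧
      ∀ v ∈ closedBall (0 : Fin k → ℝ) 1, P.p (Φ k i v) = RelCWComplex.map k i.1 v) ∧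
    (∀ e j (g : π), Incidence (Φ 2 e) (fun v => g • Φ 1 (a j) v) ((M.val (b (.inl e)) j).coeff g)) ∧
    (∀ j v (g : π), (D j v).coeff g = (if Φ 1 (a j) 1 = g • Φ 0 v 0 then 1 else 0) -
      (if Φ 1 (a j) (-1) = g • Φ 0 v 0 then 1 else 0)) ∧
    (∀ v v', ∑ j, M.val (b (.inr v)) j * D j v' = if v = v' then 1 else 0) ∧
    τ = -Wh.cls M

/-- `Wh*(π)`: the set of torsions of such pairs. -/
def WhStar (π : Type) [Group π] : Set (Wh π) := {τ | ∃ P : Pair π, P.HasTorsion τ}

end Pool.Agent.Lib.MP_2add11_gt
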