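import Mathlib

/-!
The group `⟨t, y | t^5, (t y^2)^2 t = y (t y^2)^2⟩` is cyclic: `y = t`.  The proof is a
Knuth-Bendix derivation, replayed by a verified rewriting procedure.
-/

namespace Pool.Agent.Lib.MP_2add11_gt

abbrev Word : Type := List ℕ
abbrev Item : Type := Word × List (ℕ × ℕ) × List (ℕ × ℕ)

def app (E : List (Word × Word)) (w : Word) (s : ℕ × ℕ) : Word :=
  if (w.drop s.2).take (E.getD s.1 ([], [])).1.length = (E.getD s.1 ([], [])).1 then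
    w.take s.2 ++ ((E.getD s.1 ([], [])).2 ++ (w.drop s.2).drop (E.getD s.1 ([], [])).1.length)
  else w

def run : List (Word × Word) → List Item → List (Word × Word)
  | E, [] => E
  | E, c :: cs => run (E ++ [(c.2.1.foldl (app E) c.1, c.2.2.foldl (app E) c.1)]) cs

section
variable {G : Type*} [Monoid G] (f : ℕ → G)

def ev (w : Word) : G := (w.map f).prod

theorem ev_append (a b : Word) : ev f (a ++ b) = ev f a * ev f b := by simp [ev]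

theorem ev_app {E : List (Word × Word)} (hE : ∀ e ∈ E, ev f e.1 = ev f e.2) (w : Word)
    (s : ℕ × ℕ) : ev f (app E w s) = ev f w := by
  have h : ev f (E.getD s.1 ([], [])).1 = ev f (E.getD s.1 ([], [])).2 := by
    rw [List.getD_eq_getElem?_getD]
    cases h : E[s.1]? with
    | none => rfl
    | some e => exact hE e (List.mem_of_getElem? h)
  unfold app
  split_ifs with h1
  · rw [ev_append, ev_append, ← h]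
    conv_lhs => rw [← h1]
    rw [← ev_append, List.length_take, ← ev_append]
    have : (List.drop s.2 w).drop (min (E.getD s.1 ([], [])).1.length (List.drop s.2 w).length) =
        (List.drop s.2 w).drop (E.getD s.1 ([], [])).1.length := by
      rcases le_total (E.getD s.1 ([], [])).1.length (List.drop s.2 w).length with h2 | h2
      · rw [min_eq_left h2]
      · rw [min_eq_right h2, List.drop_length, List.drop_of_length_le h2]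
    rw [this, List.take_append_drop, List.take_append_drop]
  · rfl

theorem ev_foldl {E : List (Word × Word)} (hE : ∀ e ∈ E, ev f e.1 = ev f e.2)
    (l : List (ℕ × ℕ)) (w : Word) : ev f (l.foldl (app E) w) = ev f w := by
  induction l generalizing w with
  | nil => rfl
  | cons s l ih => rw [List.foldl_cons, ih, ev_app f hE]

theorem ev_run (cs : List Item) {E : List (Word × Word)} (hE : ∀ e ∈ E, ev f e.1 = ev f e.2) :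
    ∀ e ∈ run E cs, ev f e.1 = ev f e.2 := by
  induction cs generalizing E with
  | nil => exact hE
  | cons c cs ih =>
    refine ih fun e he => ?_
    rcases List.mem_append.1 he with he | he
    · exact hE e he
    · rw [List.mem_singleton.1 he, ev_foldl f hE, ev_foldl f hE]

end

def cert0 : List Item :=
  [([0,0,0,1],[(4,0)],[(0,2)]),
   ([2,2,2,3],[(5,0)],[(2,2)]),
   ([2,0,2,2,0,2,2,3],[(6,0)],[(2,6)]),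
   ([3,2,0,2,2,0,2,2],[(6,1)],[(3,0)]),
   ([2,0,2,2,0,2,2,2],[(6,0)],[(5,5)]),
   ([1,0,2,2,0,2,2,0,3],[(1,0)],[(9,1)]),
   ([3,0,2,2,0,2,2,0,1],[(0,7)],[(10,0)]),
   ([3,2,2,0,2,2,0,3],[(12,1)],[(3,0)]),
   ([2,2,2,0,2,2,0,3],[(12,1)],[(5,0)]),
   ([2,2,0,2,2,0,3,3,3],[(8,6),(6,1),(6,0)],[(12,0),(2,6)]),
   ([2,0,2,2,0,2,2,0,3],[(6,0),(16,0)],[(12,2),(0,1)]),
   ([3,0,2,2,0,2,2,3],[(13,0)],[(2,6)]),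
   ([3,0,2,2,0,2,2,2],[(13,0)],[(5,5)]),
   ([3,1,2,0,2,2,0,2,3],[(2,7)],[(14,0)]),
   ([3,1,2,0,2,2,0,2,2,0,2,2],[(6,5),(6,4),(16,4),(0,3),(12,2)],[(14,0),(3,5)]),
   ([1,0,2,2,0,2,2,1,3],[(1,0)],[(18,1)]),
   ([3,0,2,2,0,2,2,0,2,2,1,3],[(18,4),(2,3)],[(10,0),(5,4),(3,5)]),
   ([3,0,2,2,0,2,2,1,3],[(13,0)],[(18,1)]),
   ([3,1,2,0,2,2,0,1],[(20,0)],[(0,6)]),
   ([3,3,3,1,2,0,2,2,0],[(8,0)],[(20,2),(3,1)]),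
   ([3,2,2,0,2,2,1,3],[(22,1)],[(3,0)]),
   ([2,2,2,0,2,2,1,3],[(22,1)],[(5,0)]),
   ([2,2,0,2,2,1,3,3,3],[(8,6)],[(22,0),(2,6)]),
   ([3,2,0,2,2,0,3,3,1],[(25,1)],[(3,0)]),
   ([3,1,2,0,2,2,0,3,3,1],[(25,2)],[(20,0),(8,5),(6,0),(12,1),(0,0)]),
   ([3,1,3,0,2,2,0,2,3],[(2,7)],[(27,0)]),
   ([3,3,1,2,0,2,2,3],[(30,0)],[(2,6)]),
   ([3,3,1,2,0,2,2,2],[(30,0)],[(5,5)]),
   ([3,3,3,1,2,0,2,2],[(30,1)],[(8,0)]),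
   ([3,3,1,2,0,2,2,0,2,2,0,3,3,1],[(25,6),(2,5),(0,4)],[(30,0),(1,6),(3,5),(3,4)]),
   ([3,1,3,0,2,2,0,1],[(32,0)],[(0,6)]),
   ([3,1,3,0,2,2,0,0,0],[(32,0)],[(4,6)]),
   ([3,3,3,1,3,0,2,2,0],[(8,0)],[(32,2),(3,1)]),
   ([1,0,2,2,0,3,3,1,3],[(1,0)],[(33,1)]),
   ([3,1,2,0,2,2,0,3,3,1,3],[(20,0),(8,5),(6,0),(12,1),(0,0)],[(33,3),(2,2)]),
   ([3,3,1,2,0,2,2,0,3,3,1,3],[(33,4),(2,3)],[(30,0),(1,6),(8,4),(2,5)]),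
   ([3,2,0,2,2,1,3,3,1],[(37,1)],[(3,0)]),
   ([2,0,2,2,0,2,2,0,2,2,1,3,3,1],[(37,6),(2,5),(0,4),(2,3)],[(6,0),(16,0),(3,6),(41,1),(2,7),(0,6)]),
   ([2,0,2,0,2,2,3],[(2,5)],[(44,0),(2,5)]),
   ([3,2,0,2,0,2,2],[(44,1)],[(3,0)]),
   ([2,0,2,0,2,2,0,2,2],[(6,2)],[(44,0),(31,1)]),
   ([2,0,2,0,2,2,0,2,2,0,3,3,1],[(44,0),(31,1),(1,7),(2,6)],[(25,5),(45,0),(46,1),(1,0),(6,0)]),
   ([2,0,2,0,2,3],[(45,0)],[(2,4)]),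
   ([2,2,2,0,2,0,2],[(45,2)],[(5,0)]),
   ([2,0,2,0,2,0,2,2,0,2,2],[(6,4),(47,2),(0,1)],[(45,0),(1,4),(3,3)]),
   ([3,1,3,0,2,2,0,2,0,2,0,2],[(27,0)],[(45,7),(32,0),(37,0),(2,5)]),
   ([0,1,3,1,3,1,3],[(0,0)],[(49,1)]),
   ([3,1,3,1,3,3,3],[(53,0)],[(8,4)]),
   ([3,2,2,0,3,3,1,3],[(40,1)],[(3,0)]),
   ([2,2,2,0,3,3,1,3],[(40,1)],[(5,0)]),
   ([3,3,1,3,0,2,2,3],[(43,0)],[(2,6)]),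
   ([3,3,1,3,0,2,2,2],[(43,0)],[(5,5)]),
   ([3,3,3,1,3,0,2,2],[(43,1)],[(8,0)]),
   ([2,2,0,2,2,1,3,3,1,3,0,2,2],[(43,6),(1,5),(5,3),(3,4)],[(22,0),(2,6),(0,5),(2,4)]),
   ([3,3,1,3,0,2,2,0,2,2,1,3,3,1],[(37,6),(2,5),(0,4)],[(43,0),(1,6),(3,5),(3,4)]),
   ([2,0,2,2,1,3,3,1,3,0,2,2],[(37,0),(2,5)],[(43,5),(1,4),(5,2),(3,3)]),
   ([3,1,3,3,1,2,0,2,3],[(2,7)],[(55,0)]),
   ([1,0,2,2,1,3,3,1,3],[(1,0)],[(57,1)]),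
   ([3,1,3,3,1,2,0,1],[(63,0)],[(0,6)]),
   ([3,3,3,1,3,3,1,2,0],[(8,0)],[(63,2),(3,1)])]

def cert1 : List Item :=
  [([3,2,2,1,3,3,1,3],[(64,1)],[(3,0)]),
   ([2,2,2,1,3,3,1,3],[(64,1)],[(5,0)]),
   ([2,2,1,3,3,1,3,3,3],[(8,6)],[(64,0),(2,6)]),
   ([3,2,0,3,3,1,3,3,1],[(65,1)],[(3,0)]),
   ([3,1,3,3,1,3,0,2,3],[(2,7)],[(67,0)]),
   ([2,2,1,3,3,1,3,3,1,3,0,2],[(67,4),(3,3)],[(64,0),(2,6),(0,5)]),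
   ([3,3,1,3,3,1,2,3],[(70,0)],[(2,6)]),
   ([3,3,3,1,3,3,1,2],[(70,1)],[(8,0)]),
   ([2,2,1,3,3,1,3,3,1,3,3,1,2],[(70,6),(1,5),(8,3),(2,4)],[(64,0),(2,6),(0,5),(8,4)]),
   ([2,0,3,3,1,3,3,1,3,3,1,2],[(65,0),(2,5)],[(70,5),(1,4),(8,2),(2,3)]),
   ([2,0,3,3,1,3,3,1,2],[(70,2)],[(65,0)]),
   ([3,1,3,3,1,3,0,1],[(71,0)],[(0,6)]),
   ([3,3,3,1,3,3,1,3,0],[(8,0),(64,0)],[(71,2),(3,1)]),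
   ([1,0,3,3,1,3,3,1,3],[(1,0)],[(73,1)]),
   ([0,3,3,1,3,3,1,3,3,1,2],[(73,0),(80,0)],[(70,4),(1,3),(8,1),(2,2)]),
   ([2,2,2,1,3,3,1,3,3,1],[(5,0),(80,0),(80,1)],[(78,2),(2,1)]),
   ([2,1,3,3,1,3,3,1,3,1,3],[(78,0),(80,2)],[(53,6),(68,0),(80,0),(1,6),(3,5)]),
   ([3,3,3,1,3,3,1,3],[(80,1)],[(8,0),(64,0)]),
   ([3,3,1,3,3,1,3,3,1,3,0,2],[(80,0),(80,1),(82,0)],[(67,4),(3,3)]),
   ([3,3,1,3,3,1,3,3,1,3,3,1,2],[(80,0),(80,1),(82,0),(8,5)],[(70,6),(1,5),(8,3),(2,4)]),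
   ([0,2,2,0,2,2,0,2,2,0,3],[(11,0),(3,6)],[(12,4),(0,3),(5,1)]),
   ([2,1,2,0,2,2,0,2,3],[(15,0)],[(2,7)]),
   ([1,0,2,2,0,2,2,0,0],[(16,1)],[(1,0)]),
   ([0,2,2,0,2,2,0,0,0],[(16,0)],[(4,6)]),
   ([2,0,2,2,0,2,2,0,0],[(16,1)],[(6,0),(16,0),(90,0)]),
   ([1,0,2,2,0,2,2,1,2],[(19,1)],[(1,0)]),
   ([3,0,2,2,0,2,2,1,2],[(13,0)],[(19,1),(88,0)]),
   ([3,0,2,0,2,2,0,2,3],[(23,0)],[(2,7)]),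
   ([3,0,2,0,2,2,0,2,2,1,3],[(23,0),(3,6)],[(22,4),(0,3),(2,2)]),
   ([2,1,3,0,2,2,0,2,3],[(28,0)],[(2,7)]),
   ([2,2,2,0,2,2,1,2,2],[(5,0)],[(29,1)]),
   ([3,0,2,2,0,2,2,0,2,2,1,2,2],[(29,5),(0,4),(2,3)],[(13,0),(1,6),(5,4),(3,5)]),
   ([3,0,2,0,2,2,0,2,2,0,2,2,1,2,2],[(29,7),(0,6),(2,5),(45,2),(0,1)],[(23,0),(3,6),(1,5),(3,4)]),
   ([1,0,2,2,0,3,3,1,2],[(34,1)],[(1,0)]),
   ([0,2,0,2,0,3,3,0,2,2,0,3,3,1],[(54,0),(12,4),(21,2),(20,0),(2,9)],[(35,6),(3,5),(45,1),(0,0)]),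
   ([2,2,0,2,2,1,3,0,2,2,0],[(22,0),(45,4)],[(39,3)]),
   ([2,2,1,3,0,2,2,0,2,2,1,3,3,1],[(39,0),(3,6),(3,5)],[(37,6),(2,5),(0,4)]),
   ([2,2,0,2,2,1,2,2,2,1,3,0,2,2,0],[(29,0),(3,6),(0,5),(2,4)],[(39,7),(2,6),(1,5),(5,3),(3,4)]),
   ([3,3,1,2,0,2,2,0,2,2,0,2,1,3],[(30,0),(1,6),(3,5),(3,4)],[(41,6),(2,5),(0,4),(2,3)]),
   ([2,1,3,3,1,3,0,2],[],[(68,0),(80,0)]),
   ([3,3,1,3,1,2,0,2,3],[(42,0)],[(2,7)]),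
   ([2,2,0,3,3,1,3,3,1,3,1,2,0,2],[(40,0),(2,6),(0,5),(2,4)],[(42,6),(1,5),(3,4),(3,3)]),
   ([2,2,2,0,2,2,0,2,1],[(5,0)],[(51,1)]),
   ([3,0,2,2,0,2,2,0,2,2,0,2,1],[(51,5),(0,4),(2,3)],[(13,0),(1,6),(5,4),(3,5)]),
   ([3,1,2,0,2,2,0,2,2,0,2,1],[(20,0),(3,6),(3,5)],[(51,4),(0,3),(2,2)]),
   ([2,1,3,3,1,2,0,2,3],[(56,0)],[(2,7)]),
   ([2,0,2,2,1,3,3,1,2,0,2],[(37,0),(5,4)],[(56,3),(2,2)]),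
   ([1,0,2,2,1,3,3,1,2],[(58,1)],[(1,0)]),
   ([3,3,1,3,0,2,2,1,3,3,1],[(43,0)],[(59,3)]),
   ([2,2,0,3,1,3,3,1,3,0,2,2,0],[(60,0),(2,6),(45,3),(0,2)],[(32,6),(3,5),(1,4),(3,3)]),
   ([3,3,1,3,0,2,2,0,3,1,3,3,1],[(60,5),(0,4)],[(43,0),(1,6),(8,4)]),
   ([2,1,3,0,2,2,0,2,2,0,3,1,3,3,1],[(28,0),(3,6),(1,5),(2,4)],[(60,7),(0,6),(2,5),(45,4),(0,3)]),
   ([3,1,3,0,2,0,2,2,0,2,2,1,3,3,1],[(62,0),(1,6),(3,5),(3,4)],[(37,7),(2,6),(0,5),(2,4)]),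
   ([3,1,3,0,2,0,2,2,0,3,3,1,3,3,1],[(62,0),(1,6),(8,4),(2,5)],[(65,7),(2,6),(0,5),(2,4)]),
   ([3,0,2,2,1,3,3,1,2,0],[(66,2)],[(59,0),(5,5)]),
   ([2,2,1,3,3,1,2,2,0,3,3,1,3,3,1],[(65,7),(2,6)],[(69,0),(121,4),(0,11)]),
   ([2,2,1,3,3,1,2,2,2,1,3,3,1,2,0],[(69,0),(3,6),(0,5),(8,4)],[(66,7),(2,6),(1,5),(8,3),(2,4)]),
   ([3,0,3,3,1,3,3,1,2,0],[(63,3),(3,2)],[(74,0),(69,0)]),
   ([3,1,3,3,1,3,1,2,3],[(76,0)],[(2,7)]),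
   ([3,0,3,3,1,3,3,1,3,1,2],[(76,3),(3,2)],[(74,0),(2,6)])]

def cert2 : List Item :=
  [([0,1,3,3,1,3,0,2,0],[(79,1)],[(0,0)]),
   ([3,1,3,3,1,3,0,2,0],[(79,1),(80,0),(80,1)],[(71,0),(3,6)]),
   ([0,1,3,3,1,3,3,1,1,2],[(0,0)],[(81,1)]),
   ([1,3,3,1,3,3,1,1,2,3],[(2,8)],[(81,0)]),
   ([1,1,1,3,3,1,3,3,1,1],[(7,0)],[(82,1)]),
   ([3,1,1,3,3,1,3,3,1,0],[(1,8)],[(83,0)]),
   ([3,1,1,3,3,1,3,3,1,3,3,1,2],[(83,0),(114,0)],[(70,6),(1,5),(8,3),(2,4)]),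
   ([2,1,3,3,1,3,3,1,3,3,1],[(78,0),(8,5)],[(84,3),(71,2),(3,8)]),
   ([1,1,2,0,2,2,0,3,2],[(89,0)],[(3,7)]),
   ([1,1,2,0,2,2,0,3,3],[(89,0)],[(17,1)]),
   ([1,3,0,2,2,0,3,3,1],[(92,0)],[(35,1)]),
   ([0,2,2,0,3,1,3,3,1,3,1,2,0,2],[(94,0),(0,6),(2,5)],[(42,6),(1,5),(3,4),(45,2)]),
   ([1,0,2,2,0,3,1,1,3],[(95,1)],[(1,0)]),
   ([0,2,2,0,3,1,1,3,2],[(95,0)],[(3,7)]),
   ([0,0,0,2,2,0,3,1,1,3],[(4,0)],[(95,2)]),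
   ([3,3,0,2,2,1,3,3,1,2,0,2,2],[(96,0),(0,6),(5,4)],[(30,6),(1,5),(5,3),(3,4)]),
   ([3,3,0,2,2,1,3,3,1,3,1,2,0,2],[(96,0),(0,6),(2,5)],[(42,6),(1,5),(5,3),(3,4)]),
   ([3,3,0,2,2,1,3,3,1,2,0,2],[(56,4),(2,3)],[(96,0),(0,6),(5,4)]),
   ([2,2,0,3,3,1,3,3,1,2,0,3,3],[(40,0),(2,6),(0,5)],[(100,5),(3,4),(3,3)]),
   ([3,0,2,2,1,3,3,1,2,0,3,3],[(59,0),(5,5)],[(100,4),(5,2),(3,3)]),
   ([3,0,3,3,1,3,3,1,2,0,3,3],[(74,0),(69,0)],[(100,4),(3,3),(3,2)]),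
   ([1,3,0,2,0,2,2,0,3,3,1,3],[(104,0),(8,5),(2,6)],[(40,5),(0,4),(2,3)]),
   ([3,1,2,0,2,2,0,2,2,0,0,2,1,3],[(20,0),(3,6),(3,5),(4,4)],[(105,6),(2,5),(2,4),(0,3)]),
   ([3,3,1,2,0,2,2,0,0,2,1,3],[(30,0),(1,6)],[(105,4),(2,3)]),
   ([2,2,1,3,0,2,2,0,0,2,1,3],[(39,0)],[(105,4),(8,3)]),
   ([3,1,3,0,2,0,2,2,0,0,2,1,3],[(105,5),(2,4)],[(62,0),(1,6)]),
   ([2,1,3,0,2,2,0,2,1,3,3],[(28,0)],[(107,3),(8,2)]),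
   ([1,3,3,1,1,2,0,2,3],[(108,0)],[(2,7)]),
   ([1,3,3,1,1,2,0,2,2,1,3,3,1],[(37,5)],[(108,0),(3,6)]),
   ([1,3,3,1,1,2,0,2,0,2],[(108,0)],[(45,5),(7,3)]),
   ([1,3,3,1,1,2,0,2,2,1,3,3,1,3],[(108,0),(3,6)],[(64,7),(0,6),(2,5)]),
   ([1,3,3,1,1,2,0,2,2,0,2,2,0,2,1],[(108,0),(3,6),(1,5),(5,4)],[(51,7),(0,6),(2,5),(7,3)]),
   ([1,3,3,1,1,2,0,2,2,1,3,3,1,2],[(108,0),(3,6)],[(58,6),(2,5)]),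
   ([2,2,1,2,0,2,2,0,2,2,0,0,2,1],[(111,6),(2,5),(0,4)],[(26,0),(3,6),(3,5),(4,4)]),
   ([1,3,3,1,3,0,3,3,3,1,3,3,1,2],[(70,7),(147,0)],[(114,0),(2,6),(122,0)]),
   ([3,3,0,3,3,1,3,3,1,3,1,2,0],[(116,5),(3,4),(3,3)],[(112,0),(0,6),(2,5)]),
   ([2,0,3,1,1,3,3,1,0],[(119,0)],[(1,7)]),
   ([3,2,0,3,1,1,3,3,1],[(119,1)],[(3,0)]),
   ([1,1,3,3,1,3,3,1,0],[(128,0)],[(1,7)]),
   ([3,3,1,3,3,1,1,2,3],[(129,0)],[(2,7)]),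
   ([2,0,3,3,1,3,3,1,1,2],[(65,0)],[(129,2),(4,1)]),
   ([0,3,1,3,3,1,3,3,1,1,2],[(127,0),(0,6)],[(129,3),(1,2)]),
   ([1,3,3,1,3,3,1,1,1],[(7,6)],[(130,0)]),
   ([3,1,3,3,1,3,3,1,1],[(130,1)],[(84,0)]),
   ([3,1,1,3,3,1,3,3,2],[(132,0)],[(3,7)]),
   ([3,1,3,3,1,3,1,2,2,0,2,2,0,0,2],[(76,0),(56,2),(3,8),(1,7)],[(135,7),(7,6),(71,0),(85,0),(43,4),(1,3),(1,8)]),
   ([3,3,1,3,3,1,1,2,2,0,2,2,0,0,2],[(135,7),(7,5),(0,6),(117,0),(1,9)],[(129,0),(56,2),(3,8),(1,7)]),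
   ([1,3,0,0,2,2,0,2,3],[(139,0)],[(2,7)]),
   ([3,0,0,2,2,0,2,2,1,3],[(22,3),(0,2)],[(140,0),(7,5)]),
   ([3,3,1,3,3,0,2,0,2,2],[],[(117,0),(173,0)]),
   ([3,3,0,3,3,1,3,3,1,3,0,0,2,2,0],[(163,7),(3,6),(1,5),(8,3)],[(112,0),(0,6),(2,5),(1,4)]),
   ([3,3,1,3,0,0,2,2,3],[(164,0)],[(2,7)]),
   ([2,2,0,3,1,1,3,3,1,2,0,2,2,0],[(20,7),(3,6),(1,5)],[(174,0),(0,6),(5,4)]),
   ([0,3,1,1,3,3,1,3,3,1,3,0,3,3],[(178,0),(2,6),(0,5)],[(114,6),(3,5),(3,4),(7,2)]),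
   ([1,0,2,2,0,2,2,1,1,3],[(1,0)],[(24,1)]),
   ([3,3,1,2,2,0,2,2,0,2,2,0,2,1,3],[(41,7),(2,6),(0,5),(2,4)],[(36,0),(1,7),(3,6),(3,5),(4,3)]),
   ([3,3,1,2,2,0,2,2,0,2,1,3,3],[(36,0),(1,7),(3,6)],[(107,5),(2,4),(2,3)]),
   ([3,3,1,3,3,0,2,2,0,3,3,1,2],[(34,5),(8,3),(2,4)],[(61,0),(1,7),(8,5),(2,6)]),
   ([2,2,1,1,3,3,1,3,0,2,2,0,2,2],[(72,0),(176,1),(1,0),(1,8),(5,7)],[(13,7),(1,6),(3,5),(3,4),(1,3)]),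
   ([2,2,1,1,3,3,1,3,0,2,2,0,3,3],[(72,0),(176,1),(1,0),(1,8),(2,7)],[(92,6),(3,5),(3,4),(1,3)])]

def cert3 : List Item :=
  [([1,0,3,3,0,3,3,0,3,3],[(1,0)],[(185,1)]),
   ([1,3,3,1,3,0,3,3,0,3,3,0,3,3],[(114,0),(66,0),(8,5),(2,6)],[(185,5),(3,4)]),
   ([0,3,3,0,3,3,0,3,2],[(186,0)],[(3,7)]),
   ([0,0,0,3,3,0,3,3,0,3],[(4,0)],[(186,2)]),
   ([3,3,3,0,3,3,0,3,3],[(187,1)],[(8,0)]),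
   ([3,3,0,3,3,0,3,3,1,3,3],[(112,3),(118,0)],[(187,0)]),
   ([2,2,2,1,2,2,1,2,2],[(5,0)],[(189,1)]),
   ([2,2,1,2,1,3,3,1,3,3,0,2,2],[(75,0),(2,7)],[(61,5),(1,4),(5,3)]),
   ([1,0,2,2,0,2,2,1,1,2],[(1,0)],[(93,1)]),
   ([3,0,2,0,2,2,0,3,3,1,2],[(98,0),(2,7)],[(34,3),(2,2)]),
   ([3,3,0,3,3,1,3,3,1,3,1,2,0,3],[(112,0),(0,6),(2,5)],[(99,6),(1,5),(3,4),(3,3)]),
   ([3,0,2,1,2,0,2,2,2],[(110,0)],[(5,6)]),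
   ([2,0,3,1,2,1,3,3,1,3,0,0,2],[(171,5),(2,4),(7,3)],[(120,0),(2,6),(1,5)]),
   ([0,1,3,3,1,2,2,1,2,0],[(0,0)],[(123,1)]),
   ([3,0,0,3,3,1,3,3,1,3,3,1,3,1,2],[(124,0),(0,7),(114,0),(2,6)],[(76,7),(3,6),(1,5),(3,4)]),
   ([2,2,2,0,2,2,1,2,1],[(137,1)],[(5,0)]),
   ([3,3,0,0,2,1,3,3,1,3,1,2,0,2],[(42,6),(1,5),(5,4)],[(162,0),(0,7),(2,6),(7,4)]),
   ([3,3,3,1,3,0,2,1,2],[(168,1)],[(8,0)]),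
   ([2,2,0,2,2,1,1,3,1,3,1,3],[(53,7),(1,6)],[(181,0),(109,1),(2,8)]),
   ([3,1,3,3,1,2,2,1,2,2,1],[(191,3),(3,2)],[(134,0),(3,7)]),
   ([2,2,1,3,0,2,2,0,2,2,1,3,3,0,0],[(39,0),(3,6),(3,5)],[(38,6),(2,5),(0,4)]),
   ([3,0,0,2,1,3,3,1,2,2,0,3,3],[(126,0),(5,7)],[(145,4),(5,3)]),
   ([2,0,3,3,0,3,3,0,2,2,0,3,3],[(172,0),(3,7)],[(88,5),(110,3),(1,10)]),
   ([3,0,0,3,3,1,2,1,3,3,1],[],[(161,0),(209,1)]),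
   ([3,3,1,3,0,3,0,3,3,1,3,3,1,3],[(80,7),(0,6),(8,5),(43,0),(115,0)],[(180,0),(210,1),(0,0),(2,9)]),
   ([1,3,3,1,2,2,1,3,0,2,2],[(194,0)],[(211,1)]),
   ([2,2,1,2,1,3,3,1,2,1,2,0,3,3],[(184,5),(1,4),(5,3)],[(75,0),(193,1),(0,8),(3,7)]),
   ([2,1,3,3,1,2,0,2,2,0,3,1,2,1,2],[(56,0),(3,6),(1,5),(8,3)],[(196,6),(2,5),(1,4),(8,2)]),
   ([3,0,0,2,1,3,3,1,1,2,0,3],[(126,0),(213,0)],[(197,3)]),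
   ([3,3,1,3,3,0,2,2,0,2,2,1,3,0,2,0,2],[(52,7),(2,6),(0,5),(8,3)],[(61,0),(1,7),(3,6),(3,5),(7,3)]),
   ([2,2,1,3,3,1,3,0,3,3,1,2,0,3,3],[(188,6),(212,0),(198,4),(3,11)],[(64,0),(79,0),(8,5),(2,6),(167,0),(1,7),(8,5),(2,6)]),
   ([2,2,1,3,3,1,1,3,1,2,0,3,3,0,3,3],[(201,0),(1,7),(8,5),(2,6)],[(206,7),(213,0),(144,3),(2,10),(0,9),(3,8)]),
   ([3,3,0,2,2,1,2,1,2,0,2,2],[(214,0)],[(160,3)]),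
   ([0,1,2,0,3,3,0,2,1,2,0,3,1],[(0,0)],[(217,1)]),
   ([1,2,0,3,3,0,2,1,2,0,3,1,0],[(1,11)],[(217,0)]),
   ([2,3,0,0,3,1,2,0,3,3],[(218,1)],[(2,0)]),
   ([2,0,3,3,0,2,1,2,0,3,1,0],[(1,10)],[(220,0)]),
   ([2,1,3,3,1,2,2,1,2,0,3,3,0,2,1,2,0,3],[(86,0),(1,7),(8,5),(2,6),(182,0)],[(221,7),(5,5),(78,0),(76,0)]),
   ([2,1,3,3,1,3,3,0,2,1,2,0,2,1,3,0,3,1],[(85,0),(116,3),(3,9),(216,0),(2,9)],[(222,8),(169,1),(125,0),(1,7),(53,3),(0,7),(62,0),(1,6),(8,4),(2,5)]),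
   ([0,2,2,0,0,3,0,2,0,0,3,1,0],[(1,11)],[(225,0)]),
   ([0,2,2,0,0,3,0,2,0,0,3,2],[(3,10)],[(226,0)]),
   ([2,1,3,3,1,3,0,0,2,2,0,0,3,0,2,0,0],[(165,0),(3,6),(3,5),(1,4)],[(227,7),(106,0),(1,6),(8,4),(200,1),(1,0),(3,6)]),
   ([1,1,3,3,0,3,0,2,0,0,1],[(0,9)],[(228,0)]),
   ([0,1,1,3,3,0,3,0,2,0,0],[(0,0)],[(228,1)]),
   ([1,1,3,3,0,3,0,2,0,1],[(229,0)],[(0,8)]),
   ([0,1,1,3,3,0,3,0,2,0],[(0,0)],[(229,1)]),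
   ([0,1,3,3,0,3,0,2,0,0],[(0,0)],[(230,1)]),
   ([3,2,2,1,2,1,3,1,1],[(231,1)],[(3,0)]),
   ([2,2,1,2,1,3,1,1,1],[(231,0)],[(7,6)]),
   ([2,2,0,2,2,1,2,1,3,1,1],[(231,3),(0,2)],[(137,0),(2,7)]),
   ([0,1,3,3,0,3,0,2,0],[(232,1)],[(0,0)]),
   ([2,3,3,0,3,0,2,0,0],[(233,1)],[(2,0)]),
   ([3,1,1,3,3,0,3,0,2,3],[(2,8)],[(234,0)]),
   ([1,2,0,2,2,0,3,0,0,2,2,1,2,1,3,1],[(90,0),(1,7),(19,0),(3,6),(148,2),(0,1)],[(237,7),(17,0),(2,6),(136,0),(45,5),(1,9)]),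
   ([2,0,0,2,2,1,2,1,3,2],[(238,0)],[(3,8)]),
   ([3,1,1,3,3,0,3,0,1],[(239,0)],[(0,7)]),
   ([2,3,0,3,0,2,0,0,2],[(241,1)],[(2,0)]),
   ([3,3,3,0,3,0,2,0,0,2],[(8,0)],[(241,2),(3,1)]),
   ([3,0,3,0,2,0,0,2,2,0,2,2,0,3],[(12,7),(0,6),(45,4),(0,3),(42,2)],[(241,0),(160,3),(1,10),(2,9)]),
   ([3,2,1,2,1,3,1,1,3,1],[(242,1)],[(3,0)])]

def cert4 : List Item :=
  [([3,0,2,2,0,2,2,1,2,1,3,1,1,3,1],[(242,6),(2,5),(0,4)],[(13,0),(195,1),(0,0),(0,6),(2,5)]),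
   ([2,2,0,0,2,2,1,2,1,0],[(1,8)],[(243,0)]),
   ([2,2,0,0,2,2,1,2,1,3,0,2,1,2,0,2],[(143,7),(236,4),(0,3),(7,9),(205,0)],[(243,0),(2,6),(4,4)]),
   ([2,2,1,3,3,1,1,3,3,0,3,3],[(246,3)],[(208,0)]),
   ([3,3,3,1,1,3,3,0,3],[(246,1)],[(8,0)]),
   ([2,2,0,0,2,2,1,2,3],[(248,0)],[(2,7)]),
   ([1,0,3,0,2,0,0,2,0,3],[(1,0)],[(252,1)]),
   ([2,3,0,2,0,0,2,0,3],[(253,1)],[(2,0)]),
   ([2,1,2,2,0,0,2,2,1,0],[(1,8)],[(254,0)]),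
   ([2,1,2,2,0,0,2,2,0,3,3,1,3,3,1],[(65,7),(2,6),(0,5)],[(255,0),(199,4),(2,10),(0,9)]),
   ([2,1,2,0,2,2,0,3,1,2,1,3,1,1,3,1],[(251,7),(15,0),(3,6),(0,5),(96,0)],[(91,0),(7,6),(16,0),(3,6),(0,5),(2,4)]),
   ([2,1,3,0,2,2,0,0,3,1,3,3],[(257,0)],[(183,3),(8,2)]),
   ([3,2,0,3,3,0,2,1,2,0,3],[(223,1)],[(3,0)]),
   ([1,2,1,3,1,2,0,2,1,3,0,3],[],[(249,0),(259,1),(3,9)]),
   ([2,2,1,3,3,0,3,0,2,1,3,3,1],[(236,0),(7,7)],[(204,4),(3,3)]),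
   ([1,1,3,3,0,3,3,0,3,3,0,3,1,2,0,2,1],[(240,8),(0,7),(3,6),(3,5)],[(190,0),(2,8),(1,7),(2,6)]),
   ([1,3,3,1,3,3,0,0,2,2,0,2,1,3],[(169,0),(192,1),(0,0),(3,8)],[(245,5),(3,4),(1,3)]),
   ([3,0,2,2,1,3,3,0,3,1,3,3,1,3,3,1],[(84,8),(0,7),(8,5),(2,6)],[(247,0),(258,1),(0,10),(2,9),(263,0),(7,8)]),
   ([3,0,2,2,1,3,3,0,3,0,2,1,3,3,1],[(247,0),(1,8),(3,7),(7,5)],[(204,6),(3,5),(264,0),(0,9),(175,2)]),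
   ([1,2,2,1,2,0,2,0,0,3,3,1],[(265,2)],[(261,0)]),
   ([2,2,0,2,2,1,2,2,1,2,2,0,3,3,1,2],[(29,0),(179,3),(0,2),(0,10),(5,8)],[(256,7),(205,0),(260,0),(0,8),(2,7),(1,6),(2,5)]),
   ([1,3,3,0,0,3,3,0,3,3,2],[(3,9)],[(267,0)]),
   ([1,3,3,0,0,3,3,0,3,3,1,3,3,1,3],[(80,8),(0,7),(8,5),(2,6),(162,1),(0,8)],[(267,0),(0,4),(8,2),(2,3)]),
   ([1,3,3,0,0,3,3,0,3,3,0,3],[(186,4),(97,1)],[(267,0)]),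
   ([1,3,3,0,0,3,3,0,3,3,0,2,1,3,3,1],[(267,0),(162,2),(0,9)],[(118,8),(203,1),(2,9),(0,8),(2,7),(0,6)]),
   ([1,3,3,0,0,3,3,0,3,3,0,2,1,3,3,1,3],[(170,9),(268,0),(118,2),(166,0),(7,5),(2,7),(4,5),(129,0)],[(267,0),(162,2),(271,0),(0,7),(2,6)]),
   ([3,0,2,2,1,1,3,3,1,3,3,0,0,3,3,0,3,3],[(267,8),(207,0),(177,3)],[(103,0),(2,7),(2,6),(4,5),(246,3),(250,0)]),
   ([0,1,2,1,3,3,1,1,2],[(0,0)],[(269,1),(4,0)]),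
   ([1,2,1,3,3,1,1,2,3],[(2,7)],[(269,0)]),
   ([1,1,1,2,1,3,3,1,1,2],[(7,0),(272,0)],[(269,2),(1,1),(1,0)]),
   ([0,2,2,0,2,2,1,2,1,3,3,1,1,2],[(19,0),(35,0),(2,6),(2,5),(0,4)],[(269,6),(16,0),(3,6),(0,5),(2,4)]),
   ([1,2,0,2,2,0,3,1,2,1,3,3,1,1,2],[(269,7),(90,0),(1,7),(19,0),(35,0),(2,6)],[(48,0),(11,0),(25,0),(2,5),(2,4),(0,3)]),
   ([1,2,1,3,3,1,1,2,0,2],[(108,2),(5,1)],[(269,0)]),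
   ([3,3,1,3,3,1,1,2,1,3,3,1,1,2],[(129,0),(272,0)],[(269,6),(1,5)]),
   ([1,2,1,3,3,1,1,2,2,0,2,2,0,0,2],[(135,7),(275,0),(272,0),(276,0)],[(269,0),(3,4),(1,3),(5,2)]),
   ([0,0,3,3,1,3,3,1,1,2,1,3,3,1,1,2],[(269,8),(1,7)],[(131,0),(3,6),(275,0),(8,4),(2,5)]),
   ([3,1,3,3,1,2,1,2,1,3,3,1,1,2],[(269,6),(63,0)],[(167,0),(275,2),(1,1),(8,4),(2,5)]),
   ([2,2,1,3,3,1,2,1,2,1,3,3,1,1,2],[(269,7),(66,0)],[(133,0),(275,2),(1,1),(8,4),(2,5)]),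
   ([0,2,2,0,3,0,2,1,2,1,3,3,1,1,2],[(198,0),(65,4),(167,4)],[(269,7),(244,1)]),
   ([1,1,3,3,0,3,0,2,1,2,1,3,3,1,1,2],[(269,8),(232,1),(1,0),(1,6),(3,5)],[(235,0),(126,5),(277,0),(37,1),(277,5),(0,4),(3,3),(1,2),(3,1)]),
   ([1,2,1,3,3,1,1,2,1,3,3,1,1,2],[(269,0)],[(269,6),(1,5),(276,0)]),
   ([2,2,1,2,1,2,0,2,2],[(160,0)],[(277,0),(45,1)]),
   ([2,1,3,3,1,1,2,0,3],[(197,0)],[(274,0)]),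
   ([2,1,2,2,1,2,0,2,2],[(202,0)],[(278,2)]),
   ([2,2,1,3,3,1,1,2,1,2],[(213,0)],[(274,1)]),
   ([3,3,0,2,2,1,2,1,2],[(214,0)],[(290,0),(5,6)]),
   ([1,2,0,3,3,0,3,0,3,3,0,3],[(291,0)],[(215,0),(289,3),(0,2),(0,1),(3,0)]),
   ([2,1,2,2,1,2,0,3,3,0,2,2],[(219,0),(288,3),(0,2),(53,1),(0,5)],[(292,0),(276,3),(3,2),(3,3)]),
   ([0,2,2,1,1,2,1,3,1,2,0,3],[(224,0),(274,2),(0,1)],[(293,2)]),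
   ([1,1,3,3,0,0,2,1,3,1,3],[(279,1),(1,0)],[(262,0),(277,2),(0,1),(45,1),(0,0)]),
   ([1,2,1,3,0,2,2,0,3,0,0,3],[(281,1),(1,0),(2,5),(4,3),(1,4)],[(266,0),(295,1),(3,6),(0,5),(3,4)]),
   ([1,2,1,3,0,2,2,0,3,1,2],[(270,0)],[(281,1),(1,0),(2,5),(0,4)]),
   ([2,2,1,2,1,3,3,0,2,2,0,0],[(276,2),(5,0),(3,3),(1,2)],[(273,0),(298,1),(2,5),(0,4),(3,3)]),
   ([1,2,1,3,3,0,2],[(299,3),(3,5)],[(276,0)]),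
   ([1,2,1,3,3,0,3,3,1,1,2],[(299,3),(300,0),(8,2),(2,3)],[(280,0),(299,3),(3,5),(0,4)]),
   ([0,0,3,3,1,3,3,0,2,1,3],[(282,0),(301,2),(297,1)],[(297,1),(296,2),(2,1),(0,0)]),
   ([2,0,3,3,1,3,3,0,2,1,3],[(283,0),(301,2),(297,1)],[(297,1),(296,2),(2,1)]),
   ([3,0,3,3,1,3,3,0,2,1,3],[(297,1),(3,0),(296,0)],[(284,0),(301,2),(297,1),(3,0)]),
   ([3,0,2,1,2,1,1,2,1,3,3,1],[(301,2),(297,1),(3,0)],[(285,0),(286,4),(0,3)]),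
   ([0,0,2,1,3,1,3,3,1,1,2],[(287,0)],[(305,1),(0,3),(3,2)])]

def cert5 : List Item :=
  [([2,2,0,3,3,1,3],[(40,0)],[(297,2),(5,0),(299,0),(3,2),(0,1)]),
   ([2,2,1,3,1,3,1],[(50,0),(299,0),(3,2)],[(306,1),(0,2)]),
   ([2,1,3,3,1,2,0,2],[(56,0),(299,0),(8,2)],[(307,1),(2,0)]),
   ([2,0,3,3,1,3,3,1],[(65,0)],[(297,1),(303,0),(7,3)]),
   ([2,0,0,3,3,1,3,3,1],[(297,2),(45,0),(304,1),(1,0)],[(77,0),(310,0),(308,2)]),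
   ([2,0,2,2,0,3,0,3],[],[(87,0),(299,1),(3,3)]),
   ([2,0,2,2,0,3,3,0,2,1],[(299,5),(312,0),(294,1),(7,2)],[(101,0),(304,0),(3,3),(1,2),(5,1)]),
   ([1,3,0,2,1,3,1,3,1,2,0],[(102,0),(309,3)],[(306,3),(4,2),(7,2),(308,1)]),
   ([3,1,3,0,3,3,0,2],[(299,4),(3,6)],[(113,0),(297,3),(3,2)]),
   ([3,0,0,3,3,1,3,3],[(297,2),(302,1)],[(124,0),(315,2),(3,1),(1,0)]),
   ([0,0,3,3,1,3,3,1,1],[(131,0),(311,1)],[(297,1),(302,0),(7,1),(0,2)]),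
   ([3,1,3,3,1,2,2,1],[(310,0),(308,2),(0,3)],[(134,0),(311,2),(317,1),(2,0)]),
   ([3,0,2,0,2,1,2,0,2],[(318,4),(313,1),(299,2),(3,4)],[(138,0),(306,1),(4,0),(7,0),(0,1)]),
   ([1,1,2,2,0,3,1,1,3],[(314,2),(7,0),(313,1),(316,2),(4,0)],[(141,0),(308,2),(45,2),(0,1)]),
   ([2,1,3,0,3,3,0,2,2],[(142,0),(299,0),(299,2),(319,0),(8,1),(2,2)],[(299,4),(319,2),(1,1),(2,0),(3,0)]),
   ([2,1,3,0,2,1,2,0,2],[(143,0),(299,0),(299,2),(319,0),(3,2)],[(321,3),(3,2),(318,0)]),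
   ([2,2,1,3,0,3,3,0,3,3],[(146,0),(319,0),(8,1),(318,2)],[(299,5),(319,3),(1,2),(2,1),(2,0)]),
   ([2,0,2,2,1,1,2,1,3],[(149,0),(318,2),(1,1)],[(320,4),(314,2),(0,1),(0,3),(314,0),(0,3)]),
   ([0,2,2,0,3,3,0,2,1,3],[(150,0),(304,1),(324,0),(0,2),(2,1)],[(314,1),(0,0),(324,3),(0,2),(323,1),(2,0)]),
   ([3,0,2,2,1,3,3,0,2,1,3],[(151,0),(318,1),(321,1),(318,1)],[(324,0),(325,0),(53,0),(323,0),(3,1),(319,0),(3,1),(0,0)]),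
   ([3,1,3,0,3,1,1,2,0,2],[(152,0),(322,1),(326,0),(299,0),(3,2),(0,1)],[(325,6),(322,3),(308,2),(0,3),(2,2)]),
   ([3,3,0,2,2,1,3,1,3,3],[(153,0),(318,0),(321,0),(2,0)],[(327,0),(1,1),(3,0),(306,0)]),
   ([2,2,0,0,2,1,3,3],[(154,0),(327,1),(7,2),(308,1),(328,0)],[(326,1),(2,0),(327,1)]),
   ([1,3,3,1,1,3,1,3,0,2,2],[(155,0),(326,1),(2,0),(327,2)],[(327,1),(7,2),(322,3),(4,2),(328,3),(1,2),(3,3),(324,1),(328,1),(1,0)]),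
   ([2,2,0,0,2,1,3,0,2],[(156,0),(327,1),(1,2),(322,2),(308,1),(328,0)],[(326,1),(2,0),(324,1),(328,1),(1,0)]),
   ([2,2,0,0,2,1,1,3,3,1,3],[(157,0),(327,1),(7,2),(331,2),(327,3),(1,4),(3,3)],[(326,1),(2,0),(327,2),(330,0),(327,1)]),
   ([2,2,0,0,3,3,0,2,1],[(158,0),(327,1),(1,2),(332,0),(328,2),(3,4),(308,1),(323,0),(327,0)],[(327,4),(331,2),(314,0),(328,0),(329,0),(1,2),(3,1)]),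
   ([2,2,0,0,2,1,1,3,3,1,2],[(326,1),(2,0),(327,2),(333,2),(7,0),(0,1),(0,0)],[(159,0),(327,1),(333,1),(7,0),(0,1),(0,0),(333,0),(332,1),(1,0),(333,0),(327,2),(333,2),(7,0),(0,1)])]

def cert : List Item := cert0 ++ cert1 ++ cert2 ++ cert3 ++ cert4 ++ cert5

def axioms0 : List (Word × Word) :=
  [([0, 1], []), ([1, 0], []), ([2, 3], []), ([3, 2], []), ([0, 0, 0], [1, 1]),
   ([2, 2, 2], [3, 3]), ([2, 0, 2, 2, 0, 2, 2], [0, 2, 2, 0, 2, 2, 0])]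

theorem cert_ok : ([2], [0]) ∈ run axioms0 cert := by decide +kernel

theorem collapse {G : Type*} [Group G] (t y : G) (h5 : t ^ 5 = 1)
    (hr : t * y * y * t * y * y * t * y⁻¹ * y⁻¹ * t⁻¹ * y⁻¹ * y⁻¹ * t⁻¹ * y⁻¹ = 1) : y = t := by
  have hy : y = (t * y * y * t * y * y) * t * (t * y * y * t * y * y)⁻¹ := by
    rw [← mul_inv_eq_one, ← inv_eq_one, ← hr]
    simp only [mul_inv_rev, inv_inv, mul_assoc]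
  have hy5 : y ^ 5 = 1 := by
    rw [hy, conj_pow, h5]
    group
  have key := ev_run (fun n => if n = 0 then t else if n = 1 then t⁻¹ else if n = 2 then y else y⁻¹)
    cert (E := axioms0) (by
      intro e he
      simp only [axioms0, List.mem_cons, List.not_mem_nil, or_false] at he
      rcases he with rfl | rfl | rfl | rfl | rfl | rfl | rfl <;> simp [ev]
      · rw [← mul_inv_eq_one, ← h5]; group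
      · rw [← mul_inv_eq_one, ← hy5]; group
      · have h : y * (t * y * y * t * y * y) = (t * y * y * t * y * y) * t := by
          conv_lhs => enter [1]; rw [hy]
          group
        simpa [mul_assoc] using h) _ cert_ok
  simpa [ev] using key

end Pool.Agent.Lib.MP_2add11_gt
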