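import Pool.Agent.Lib.MP_2add11_gt.TopMon

/-!
Moore loops form a topological monoid; the square needed to deform the 2-cell.
-/

noncomputable section

namespace Pool.Agent.Lib.MP_2add11_gt

open unitInterval

variable {X : Type} [TopologicalSpace X] {x0 : X}

variable (x0) in
def ML : Type :=
  {p : C(ℝ, X) × ℝ // 0 ≤ p.2 ∧ (∀ s ≤ 0, p.1 s = x0) ∧ ∀ s, p.2 ≤ s → p.1 s = x0}

namespace ML

instance : TopologicalSpace (ML x0) := instTopologicalSpaceSubtype

def f (a : ML x0) : C(ℝ, X) := a.1.1
def len (a : ML x0) : ℝ := a.1.2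
theorem len_nonneg (a : ML x0) : 0 ≤ a.len := a.2.1
theorem f_le (a : ML x0) {s : ℝ} (h : s ≤ 0) : a.f s = x0 := a.2.2.1 s h
theorem f_ge (a : ML x0) {s : ℝ} (h : a.len ≤ s) : a.f s = x0 := a.2.2.2 s h

theorem ext' {a b : ML x0} (h1 : ∀ s, a.f s = b.f s) (h2 : a.len = b.len) : a = b :=
  Subtype.ext (Prod.ext (ContinuousMap.ext h1) h2)

def mk' (g : ℝ → X) (l : ℝ) (hg : Continuous g) (h0 : 0 ≤ l) (h1 : ∀ s ≤ 0, g s = x0)
    (h2 : ∀ s, l ≤ s → g s = x0) : ML x0 := ⟨(⟨g, hg⟩, l), h0, h1, h2⟩

@[fun_prop] theorem continuous_len {Z : Type*} [TopologicalSpace Z] {g : Z → ML x0}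
    (hg : Continuous g) : Continuous fun z => (g z).len :=
  (continuous_snd.comp continuous_subtype_val).comp hg

@[fun_prop] theorem continuous_f {Z : Type*} [TopologicalSpace Z] {g : Z → ML x0} {h : Z → ℝ}
    (hg : Continuous g) (hh : Continuous h) : Continuous fun z => (g z).f (h z) :=
  Continuous.eval ((continuous_fst.comp continuous_subtype_val).comp hg) hh

theorem continuous_into {Z : Type*} [TopologicalSpace Z] {g : Z → ML x0}
    (h1 : Continuous fun z : Z × ℝ => (g z.1).f z.2) (h2 : Continuous fun z => (g z).len) :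
    Continuous g :=
  Continuous.subtype_mk (Continuous.prodMk
    (ContinuousMap.continuous_of_continuous_uncurry (fun z => (g z).f) h1) h2) _

theorem continuous_cat {Z : Type*} [TopologicalSpace Z] {a b : Z → ML x0} {h : Z → ℝ}
    (ha : Continuous a) (hb : Continuous b) (hh : Continuous h) :
    Continuous fun z => if h z ≤ (a z).len then (a z).f (h z) else (b z).f (h z - (a z).len) :=
  Continuous.if_le (by fun_prop) (by fun_prop) hh (by fun_prop) fun z hz => by
    rw [(a z).f_ge hz.ge, (b z).f_le (by linarith)]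

instance : Mul (ML x0) where
  mul a b := mk' (fun s => if s ≤ a.len then a.f s else b.f (s - a.len)) (a.len + b.len)
    (continuous_cat continuous_const continuous_const continuous_id)
    (add_nonneg a.len_nonneg b.len_nonneg)
    (fun s hs => by rw [if_pos (hs.trans a.len_nonneg), a.f_le hs])
    (fun s hs => by
      have := b.len_nonneg
      split_ifs
      · exact a.f_ge (by linarith)
      · exact b.f_ge (by linarith))

def cst (l : ℝ) (h : 0 ≤ l) : ML x0 :=
  mk' (fun _ => x0) l continuous_const h (fun _ _ => rfl) fun _ _ => rfl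

instance : One (ML x0) := ⟨cst 0 le_rfl⟩

theorem mul_f (a b : ML x0) (s : ℝ) :
    (a * b).f s = if s ≤ a.len then a.f s else b.f (s - a.len) := rfl
@[simp] theorem mul_len (a b : ML x0) : (a * b).len = a.len + b.len := rfl
@[simp] theorem one_f (s : ℝ) : (1 : ML x0).f s = x0 := rfl
@[simp] theorem one_len : (1 : ML x0).len = 0 := rfl
@[simp] theorem cst_f (l : ℝ) (h : 0 ≤ l) (s : ℝ) : (cst l h : ML x0).f s = x0 := rfl
@[simp] theorem cst_len (l : ℝ) (h : 0 ≤ l) : (cst l h : ML x0).len = l := rfl

instance : Monoid (ML x0) where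
  mul_assoc a b c := ext' (fun s => by
    have := b.len_nonneg
    simp only [mul_f, mul_len]
    split_ifs <;> first | rfl | (exfalso; linarith) | (congr 1; ring)) (add_assoc _ _ _)
  one_mul a := ext' (fun s => by
    simp only [mul_f, one_len, one_f, sub_zero]
    split_ifs with h
    · exact (a.f_le h).symm
    · rfl) (zero_add _)
  mul_one a := ext' (fun s => by
    simp only [mul_f, one_f]
    split_ifs with h
    · rfl
    · exact (a.f_ge (not_le.1 h).le).symm) (add_zero _)

instance : ContinuousMul (ML x0) where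
  continuous_mul := continuous_into
    (continuous_cat (a := fun z : (ML x0 × ML x0) × ℝ => z.1.1) (b := fun z => z.1.2)
      (by fun_prop) (by fun_prop) continuous_snd)
    (show Continuous fun z : ML x0 × ML x0 => z.1.len + z.2.len by fun_prop)

def rev : C(ML x0, ML x0) where
  toFun a := mk' (fun s => a.f (a.len - s)) a.len (by fun_prop) a.len_nonneg
    (fun s hs => a.f_ge (by linarith)) fun s hs => a.f_le (by linarith)
  continuous_toFun := continuous_into
    (show Continuous fun z : ML x0 × ℝ => z.1.f (z.1.len - z.2) by fun_prop)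
    (show Continuous fun z : ML x0 => z.len by fun_prop)

@[simp] theorem rev_f (a : ML x0) (s : ℝ) : (rev a).f s = a.f (a.len - s) := rfl
@[simp] theorem rev_len (a : ML x0) : (rev a).len = a.len := rfl

theorem rev_rev (a : ML x0) : rev (rev a) = a := ext' (fun s => by simp) rfl

theorem rev_mul (a b : ML x0) : rev (a * b) = rev b * rev a := ext' (fun s => by
  simp only [mul_f, mul_len, rev_f, rev_len]
  split_ifs with h1 h2 h2
  · rw [a.f_ge (by linarith), b.f_le (by linarith)]
  · congr 1; ring
  · congr 1; ring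
  · exfalso; linarith) (add_comm _ _)

theorem mul_rev_f (a : ML x0) (s : ℝ) : (a * rev a).f s = a.f (min s (2 * a.len - s)) := by
  simp only [mul_f, rev_f]
  split_ifs with h
  · rw [min_eq_left (by linarith)]
  · rw [min_eq_right (by linarith)]; congr 1; ring

def eta : C(ML x0 × I, ML x0) where
  toFun z := mk' (fun s => z.1.f (min s (2 * ((1 - z.2) * z.1.len) - s))) (2 * ((1 - z.2) * z.1.len))
    (by fun_prop) (mul_nonneg zero_le_two (mul_nonneg (one_minus_nonneg _) z.1.len_nonneg))
    (fun s hs => z.1.f_le ((min_le_left _ _).trans hs))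
    fun s hs => z.1.f_le ((min_le_right _ _).trans (by linarith))
  continuous_toFun := continuous_into
    (show Continuous fun z : (ML x0 × I) × ℝ =>
      z.1.1.f (min z.2 (2 * ((1 - z.1.2) * z.1.1.len) - z.2)) by fun_prop)
    (show Continuous fun z : ML x0 × I => 2 * ((1 - z.2) * z.1.len) by fun_prop)

theorem eta_f (a : ML x0) (l : I) (s : ℝ) :
    (eta (a, l)).f s = a.f (min s (2 * ((1 - l) * a.len) - s)) := rfl
theorem eta_len (a : ML x0) (l : I) : (eta (a, l)).len = 2 * ((1 - l) * a.len) := rfl

theorem eta0 (a : ML x0) : eta (a, 0) = a * rev a :=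
  ext' (fun s => by simp [eta_f, mul_rev_f]) (by simp [eta_len, two_mul])

theorem eta1 (a : ML x0) : eta (a, 1) = 1 :=
  ext' (fun s => by
    rw [eta_f, one_f]
    refine a.f_le ?_
    rcases le_total s 0 with h | h
    · exact (min_le_left _ _).trans h
    · exact (min_le_right _ _).trans (by simpa using h)) (by simp [eta_len])

theorem eta2 (l : I) : eta ((1 : ML x0), l) = 1 := ext' (fun _ => rfl) (by simp [eta_len])

theorem joined_rev (a : ML x0) : Joined (a * rev a) 1 :=
  ⟨⟨⟨fun s => eta (a, s), by fun_prop⟩, eta0 a, eta1 a⟩⟩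

theorem joined_rev' (a : ML x0) : Joined (rev a * a) 1 := by
  simpa [rev_rev] using joined_rev (rev a)

def shrink (l : ℝ) (h : 0 ≤ l) : Path (cst l h : ML x0) 1 where
  toFun s := cst ((1 - s) * l) (mul_nonneg (one_minus_nonneg _) h)
  continuous_toFun := continuous_into continuous_const
    (show Continuous fun s : I => (1 - s) * l by fun_prop)
  source' := ext' (fun _ => rfl) (by simp)
  target' := ext' (fun _ => rfl) (by simp)

def fold (a : ML x0) : Path (a * rev a) (cst (2 * a.len) (mul_nonneg zero_le_two a.len_nonneg)) where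
  toFun l := mk' (fun s => (eta (a, l)).f s) (2 * a.len) (by fun_prop)
    (mul_nonneg zero_le_two a.len_nonneg) (fun s hs => f_le _ hs)
    fun s hs => f_ge _ (by
      rw [eta_len]
      have := mul_nonneg (nonneg l) a.len_nonneg
      linarith)
  continuous_toFun := continuous_into
    (show Continuous fun z : I × ℝ => (eta (a, z.1)).f z.2 by fun_prop) continuous_const
  source' := ext' (fun s => congrArg (fun b => b.f s) (eta0 a)) (two_mul _)
  target' := ext' (fun s => congrArg (fun b => b.f s) (eta1 a)) rfl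

def scale (a : ML x0) (l : ℝ) (h : 0 < l) : ML x0 :=
  mk' (fun s => a.f (s * a.len / l)) l (by fun_prop) h.le
    (fun s hs => a.f_le (div_nonpos_of_nonpos_of_nonneg
      (mul_nonpos_of_nonpos_of_nonneg hs a.len_nonneg) h.le))
    fun s hs => a.f_ge (by
      rw [le_div_iff₀ h, mul_comm]
      exact mul_le_mul_of_nonneg_right hs a.len_nonneg)

theorem scale_self (a : ML x0) {l : ℝ} (h : 0 < l) (h' : a.len = l) : scale a l h = a :=
  ext' (fun s => by
    change a.f (s * a.len / l) = _
    rw [h', mul_div_cancel_right₀ _ h.ne']) h'.symm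

theorem continuous_scale {Z : Type*} [TopologicalSpace Z] {a : Z → ML x0} {l : Z → ℝ}
    (ha : Continuous a) (hl : Continuous l) (h : ∀ z, 0 < l z) :
    Continuous fun z => scale (a z) (l z) (h z) :=
  continuous_into (show Continuous fun z : Z × ℝ => (a z.1).f (z.2 * (a z.1).len / l z.1) from
    continuous_f (by fun_prop) (Continuous.div (by fun_prop) (by fun_prop) fun z => (h z.1).ne')) hl

def norm1 {a b : ML x0} (ha : a.len = 1) (hb : b.len = 1) (B : Path a b) : Path a b where
  toFun s := scale (B s) 1 one_pos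
  continuous_toFun := continuous_scale B.continuous continuous_const _
  source' := by rw [B.source, scale_self _ _ ha]
  target' := by rw [B.target, scale_self _ _ hb]

theorem norm1_homotopic {a b : ML x0} (ha : a.len = 1) (hb : b.len = 1) (B : Path a b)
    (h : ∀ s, 0 < (B s).len) : B.Homotopic (norm1 ha hb B) := by
  have hp : ∀ z : I × I, 0 < (1 - z.1) * (B z.2).len + z.1 := fun z => by
    have h1 := h z.2
    have h2 := mul_nonneg (one_minus_nonneg z.1) h1.le
    rcases (nonneg z.1).eq_or_lt with h3 | h3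
    · rw [← h3]; simpa using h1
    · linarith
  refine ⟨⟨⟨⟨fun z => scale (B z.2) _ (hp z), continuous_scale (by fun_prop) (by fun_prop) hp⟩,
    fun s => scale_self _ (hp (0, s)) (by simp), fun s => ?_⟩, ?_⟩⟩
  · change scale (B s) _ (hp (1, s)) = scale (B s) 1 one_pos
    congr 1
    simp
  · intro l s hs
    refine (scale_self _ (hp (l, s)) ?_).trans ?_
    · rcases hs with rfl | rfl <;> simp [ha, hb]
    · rfl

theorem pow_f (t : ML x0) (n : ℕ) (s : ℝ) : ∃ s', (t ^ n).f s = t.f s' := by
  induction n generalizing s with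
  | zero => exact ⟨0, (t.f_le le_rfl).symm⟩
  | succ n ih =>
    rw [pow_succ', mul_f]
    split_ifs
    · exact ⟨s, rfl⟩
    · exact ih _

theorem pow_len (t : ML x0) (n : ℕ) : (t ^ n).len = n * t.len := by
  induction n with
  | zero => simp
  | succ n ih => rw [pow_succ, mul_len, ih]; push_cast; ring

theorem square {t y : ML x0} (ht : t.len = 1) (hy : y.len = 1) (five : Joined (t ^ 5) 1)
    (e : Path (TwoMon.rel t (rev t) y (rev y)) (cst 14 (by norm_num))) :
    ∃ (A : C(I, ML x0)) (F : C(I × I, ML x0)), (∀ s, (A s).len = 1) ∧ A 0 = y ∧ A 1 = t ∧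
      (∀ v, F (0, v) = e v) ∧ (∀ s, F (s, 0) = TwoMon.rel t (rev t) (A s) (rev (A s))) ∧
      (∀ s, F (s, 1) = cst 14 (by norm_num)) ∧ ∀ v s, ∃ s', (F (1, v)).f s = t.f s' := by
  obtain ⟨A0⟩ : Joined y t := joined_of_rel (joined_rev t) (joined_rev' t) (joined_rev y)
    (joined_rev' y) five ⟨e.trans (shrink _ _)⟩
  have e1 : TwoMon.rel t (rev t) t (rev t) = t ^ 7 * rev (t ^ 7) := by
    simp only [TwoMon.rel, pow_succ, pow_zero, one_mul, rev_mul, List.prod_cons, List.prod_nil,
      mul_one, mul_assoc]
  have e2 : (cst 14 (by norm_num) : ML x0) =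
      cst (2 * (t ^ 7).len) (mul_nonneg zero_le_two (len_nonneg _)) := by
    congr 1
    rw [pow_len, ht]; norm_num
  let R : C(ML x0, ML x0) := ⟨fun x => TwoMon.rel t (rev t) x (rev x), by
    simp only [TwoMon.rel, List.prod_cons, List.prod_nil]
    fun_prop⟩
  let d := (fold (t ^ 7)).cast e1 e2
  obtain ⟨B0, hB0, hB⟩ := top_main rev rev_mul rev_rev eta eta0 eta1 eta2 five e d (shrink _ _)
    (norm1 hy ht A0) R (fun _ => rfl)
  have hpos : ∀ s, 0 < (B0 s).len := fun s => by
    obtain ⟨a, ha⟩ := hB0 s
    have := a.len_nonneg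
    rw [ha, mul_len]
    change 0 < a.len + 1
    linarith
  let B := norm1 hy ht B0
  obtain ⟨K⟩ : e.Homotopic ((B.map R.continuous).trans d) :=
    hB.trans (((norm1_homotopic hy ht B0 hpos).map R).hcomp (Path.Homotopic.refl d))
  let m : I → I := fun s => Set.projIcc 0 1 zero_le_one (2 * s - 1)
  let l : I → I := fun s => Set.projIcc 0 1 zero_le_one (2 * s)
  have hm : Continuous m := continuous_projIcc.comp (by fun_prop)
  have hl : Continuous l := continuous_projIcc.comp (by fun_prop)
  let x : I × I → I := fun z => ⟨m z.1 / 2 + (1 - m z.1 / 2) * z.2, by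
    have h1 := nonneg (m z.1); have h2 := le_one (m z.1)
    have h3 := nonneg z.2; have h4 := le_one z.2
    constructor <;> nlinarith⟩
  have hx : Continuous x := Continuous.subtype_mk (by fun_prop) _
  have m0 : m 0 = 0 := by simp [m]
  have m1 : m 1 = 1 := by simp [m]; norm_num
  have l0 : l 0 = 0 := by simp [l]
  have l1 : l 1 = 1 := Set.projIcc_of_right_le _ (by simp)
  refine ⟨⟨fun s => B (m s), by fun_prop⟩, ⟨fun z => K (l z.1, x z), by fun_prop⟩,
    fun _ => rfl, ?_, ?_, fun v => ?_, fun s => ?_, fun s => ?_, fun v s => ?_⟩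
  · simp [m0]
  · simp [m1]
  · have : x (0, v) = v := Subtype.ext (by simp [x, m0])
    simp [l0, this]
  · change K (l s, x (s, 0)) = R (B (m s))
    rcases le_total (s : ℝ) (1 / 2) with h | h
    · have h1 : m s = 0 := Set.projIcc_of_le_left _ (by linarith)
      have : x (s, 0) = 0 := Subtype.ext (by simp [x, h1])
      rw [this, h1, K.source, B.source]
      rfl
    · have h1 : l s = 1 := Set.projIcc_of_right_le _ (by linarith)
      have h2 := le_one (m s)
      rw [h1, K.apply_one, Path.coe_toContinuousMap, Path.trans_apply,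
        dif_pos (by simp only [x]; simp; linarith)]
      change R (B _) = _
      congr 2
      apply Subtype.ext
      simp only [x]; simp; ring
  · have : x (s, 1) = 1 := Subtype.ext (by simp [x])
    change K (l s, x (s, 1)) = _
    rw [this, K.target]
  · change ∃ s', (K (l 1, x (1, v))).f s = _
    rw [l1, K.apply_one, Path.coe_toContinuousMap, Path.trans_apply]
    split_ifs with h
    · have h2 : ∀ u : I, (u : ℝ) = 1 → (B.map R.continuous) u = t ^ 7 * rev (t ^ 7) := fun u hu => by
        obtain rfl : u = 1 := Subtype.ext hu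
        rw [Path.target, ← e1]; rfl
      rw [h2, mul_rev_f]
      · exact pow_f _ _ _
      · have h3 := nonneg v
        simp only [x, m1] at h ⊢
        simp at h ⊢
        linarith
    · exact pow_f t 7 _

end ML

end Pool.Agent.Lib.MP_2add11_gt
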