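import Pool.Agent.Lib.MP_2add11_gt.CW
import Pool.Agent.Lib.MP_2add11_gt.Moore

/-!
`L` is a strong deformation retract of `K`.
-/

noncomputable section

namespace Pool.Agent.Lib.MP_2add11_gt

open Set Metric Topology unitInterval ML

def x0 : K := pr (eV 1)

def loopE (b : Bool) : ML x0 :=
  mk' (fun s => pr (eE 1 b s)) 1 (by fun_prop) zero_le_one
    (fun s hs => by rw [eE_le _ _ hs]; rfl) fun s hs => by rw [eE_ge _ _ hs, pr_eV]; rfl

theorem loopE_f (b : Bool) (s : ℝ) : (loopE b).f s = pr (eE 1 b s) := rfl

def letter (a : ML x0) (l : Letter) : ML x0 :=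
  if l.2 then (if l.1 then a else loopE false) else rev (if l.1 then a else loopE false)

def wl (a : ML x0) (w : List Letter) : ML x0 := (w.map (letter a)).prod

theorem wl_cons (a : ML x0) (l : Letter) (w : List Letter) :
    wl a (l :: w) = letter a l * wl a w := rfl

theorem letter_len {a : ML x0} (ha : a.len = 1) (l : Letter) : (letter a l).len = 1 := by
  unfold letter
  split_ifs <;> first | exact ha | rfl

theorem wl_len {a : ML x0} (ha : a.len = 1) (w : List Letter) : (wl a w).len = w.length := by
  induction w with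
  | nil => simp [wl]
  | cons l w ih => rw [wl_cons, mul_len, letter_len ha, ih]; push_cast [List.length_cons]; ring

theorem wl_true (a : ML x0) :
    TwoMon.rel (loopE false) (rev (loopE false)) a (rev a) = wl a (R true) := rfl

theorem wl_false (a : ML x0) : loopE false ^ 5 = wl a (R false) := by
  simp [wl, R, letter, pow_succ, mul_assoc]

theorem pr_wp (w : List Letter) (g : G5) (s : ℝ) (e : E) (he : e.1 = wp g w s) :
    pr e = (wl (loopE true) w).f s := by
  induction w generalizing g s with
  | nil =>
    rw [show e = eV g from Subtype.ext (he.trans (eV_val g).symm), pr_eV]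
    rfl
  | cons l w ih =>
    rw [wl_cons, mul_f, letter_len rfl]
    rw [wp] at he
    split_ifs with h
    · rw [if_pos h] at he
      obtain ⟨b, _ | _⟩ := l
      · have : e = eE (g * gen⁻¹) b (1 - s) := Subtype.ext (he.trans (by
          simp [lp, eE, clamp_one_sub]))
        rw [this, pr_eE]
        cases b <;> rfl
      · have : e = eE g b s := Subtype.ext he
        rw [this, pr_eE]
        cases b <;> rfl
    · rw [if_neg h] at he
      exact ih _ _ he

theorem pr_rest (c : Bool) {z : Sq} (h : z.1 0 = -1 ∨ z.1 0 = 1 ∨ z.1 1 = 1) :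
    pr (eF 1 c z) = x0 :=
  congrArg pr (Subtype.ext ((face_rest 1 c h).trans (eV_val 1).symm))

theorem R_pos (c : Bool) : (0 : ℝ) < (R c).length := by
  cases c <;> simp [R]

def facePath (c : Bool) : Path (wl (loopE true) (R c)) (cst (R c).length (R_pos c).le) where
  toFun v := mk' (fun s => pr (eF 1 c (prj ![2 * (s / (R c).length) - 1, 2 * v - 1]))) (R c).length
    (by fun_prop) (R_pos c).le
    (fun s hs => pr_rest c (.inl (max_eq_left ((min_le_right _ _).trans (by
      have := div_nonpos_of_nonpos_of_nonneg hs (R_pos c).le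
      simp only [Matrix.cons_val_zero]
      linarith)))))
    fun s hs => pr_rest c (.inr (.inl (by
      have := (one_le_div (R_pos c)).2 hs
      simp only [prj, Matrix.cons_val_zero]
      rw [min_eq_left (by linarith), max_eq_right (by norm_num)])))
  continuous_toFun := continuous_into (show Continuous fun x : I × ℝ =>
    pr (eF 1 c (prj ![2 * (x.2 / (R c).length) - 1, 2 * x.1 - 1])) by fun_prop) continuous_const
  source' := ext' (fun s => by
    refine pr_wp _ 1 s _ ((face_bottom 1 c (by simp [prj])).trans ?_)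
    have hp := R_pos c
    simp only [prj, Matrix.cons_val_zero]
    rcases le_total s 0 with h | h
    · have := div_nonpos_of_nonpos_of_nonneg h hp.le
      rw [max_eq_left ((min_le_right _ _).trans (by linarith)), wp_le _ _ h, wp_le _ _ (by simp)]
    · rcases le_total s (R c).length with h' | h'
      · have h1 := (div_le_one hp).2 h'
        have h2 := div_nonneg h hp.le
        rw [min_eq_right (by linarith), max_eq_right (by linarith)]
        congr 1
        field_simp
        ring
      · have := (one_le_div hp).2 h'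
        rw [min_eq_left (by linarith), max_eq_right (by norm_num), wp_ge _ _ h',
          wp_ge _ _ (by simp)]) (wl_len rfl _).symm
  target' := ext' (fun s => pr_rest c (.inr (.inr (by simp [prj]; norm_num)))) rfl

theorem facePath_f (c : Bool) (v : I) (s : ℝ) :
    (facePath c v).f s = pr (eF 1 c (prj ![2 * (s / (R c).length) - 1, 2 * v - 1])) := rfl

open Classical in
def H0 (a : ML x0) (x : K) : K :=
  if h : ∃ s, 0 < s ∧ s < 1 ∧ pr (eE 1 true s) = x then a.f h.choose else x

theorem H0_false (a : ML x0) (s : ℝ) : H0 a (pr (eE 1 false s)) = pr (eE 1 false s) :=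
  dif_neg fun ⟨_, h0, h1, e⟩ => by simpa using (pr_E_inj h0 h1 e).1

theorem H0_x0 (a : ML x0) : H0 a x0 = x0 := H0_false a 0

theorem H0_true {a : ML x0} (ha : a.len = 1) (s : ℝ) : H0 a (pr (eE 1 true s)) = a.f s := by
  rcases le_or_gt s 0 with h0 | h0
  · rw [eE_le _ _ h0, a.f_le h0]; exact H0_x0 a
  rcases le_or_gt 1 s with h1 | h1
  · rw [eE_ge _ _ h1, pr_eV, a.f_ge (ha ▸ h1)]; exact H0_x0 a
  have h : ∃ s', 0 < s' ∧ s' < 1 ∧ pr (eE 1 true s') = pr (eE 1 true s) := ⟨s, h0, h1, rfl⟩
  rw [H0, dif_pos h, (pr_E_inj h.choose_spec.1 h.choose_spec.2.1 h.choose_spec.2.2).2,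
    clamp_of_mem h0.le h1.le]

theorem H0_wl {a : ML x0} (ha : a.len = 1) (w : List Letter) (s : ℝ) :
    H0 a ((wl (loopE true) w).f s) = (wl a w).f s := by
  induction w generalizing s with
  | nil => exact H0_x0 a
  | cons l w ih =>
    rw [wl_cons, wl_cons, mul_f, mul_f, letter_len rfl, letter_len ha]
    split_ifs
    · obtain ⟨_ | _, _ | _⟩ := l
      · exact H0_false a _
      · exact H0_false a _
      · exact (H0_true ha _).trans (by simp [letter, ha]; rfl)
      · exact H0_true ha _
    · exact ih _

theorem retract_L : ∃ H : C(I × K, K), (∀ x, H (0, x) = x) ∧ (∀ x, H (1, x) ∈ Lset) ∧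
    ∀ s, ∀ x ∈ Lset, H (s, x) = x := by
  obtain ⟨A, F, hA, -, -, F0, F1, F2, F3⟩ := square (t := loopE false) (y := loopE true) rfl rfl
    ⟨((facePath false).trans (shrink _ _)).cast (wl_false _) rfl⟩
    ((facePath true).cast (wl_true _) (ext' (fun _ => rfl) (by simp [R])))
  let v : Sq → I := fun z => ⟨(z.1 1 + 1) / 2, by
    constructor <;> linarith [z.bounds 1]⟩
  have h0 : Continuous fun z : Sq => z.1 0 := (continuous_apply 0).comp continuous_subtype_val
  have h1 : Continuous fun z : Sq => z.1 1 := (continuous_apply 1).comp continuous_subtype_val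
  have hv : Continuous v := Continuous.subtype_mk ((h1.add continuous_const).div_const _) _
  have hu : Continuous fun x : I × (Bool × Sq) => (x.2.2.1 0 + 1) / 2 :=
    ((h0.comp (continuous_snd.comp continuous_snd)).add continuous_const).div_const _
  let q : Bool × Sq → K := fun x => pr (eF 1 x.1 x.2)
  have hqc : Continuous q := continuous_prod_of_discrete_left.2 fun c =>
    show Continuous fun z => pr (eF 1 c z) by fun_prop
  have hq : IsQuotientMap q := hqc.isClosedMap.isQuotientMap hqc fun x => by
    obtain ⟨c, z, e⟩ := exists_pr x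
    exact ⟨(c, z), e⟩
  let Fc : I × (Bool × Sq) → K := fun x =>
    if x.2.1 = true then (F (x.1, v x.2.2)).f ((F (x.1, v x.2.2)).len * ((x.2.2.1 0 + 1) / 2))
    else pr (eF 1 false x.2.2)
  have hFc : Continuous Fc := by
    refine Continuous.if (fun x hx => ?_)
      (continuous_f (by fun_prop) (Continuous.mul (by fun_prop) hu)) (by fun_prop)
    have : IsClopen {x : I × (Bool × Sq) | x.2.1 = true} :=
      (isClopen_discrete {true}).preimage (by fun_prop)
    rw [this.frontier_eq] at hx
    exact hx.elim
  have hb : ∀ s c (z : Sq), ‖z.1‖ = 1 → Fc (s, c, z) = H0 (A s) (q (c, z)) := fun s c z hz => by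
    cases c
    · obtain ⟨b, s', hb, -, -, e⟩ := pr_sphere false hz
      obtain rfl := hb rfl
      simp only [Fc, q, Bool.false_eq_true, if_false]
      rw [e, H0_false]
    · simp only [Fc, q, if_true]
      rcases z.cases with h | ⟨-, h | h⟩
      · exact absurd hz h.2.ne
      · have : v z = 0 := Subtype.ext (by simp [v, h])
        rw [this, F1, wl_true, wl_len (hA s), pr_wp _ 1 _ (eF 1 true z) (face_bottom 1 true h),
          H0_wl (hA s)]
      · rw [pr_rest _ h, H0_x0]
        rcases h with h | h | h
        · exact f_le _ (by simp [h])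
        · exact f_ge _ (by simp [h])
        · have : v z = 1 := Subtype.ext (by simp [v, h])
          rw [this, F2]
          rfl
  obtain ⟨H, hH⟩ := descend hq Fc hFc (by
    rintro s ⟨c, z⟩ ⟨c', z'⟩ e
    by_cases h1 : ‖z.1‖ = 1
    · by_cases h2 : ‖z'.1‖ = 1
      · rw [hb _ _ _ h1, hb _ _ _ h2, e]
      · obtain ⟨rfl, rfl⟩ := pr_F_inj h2 e.symm
        rfl
    · obtain ⟨rfl, rfl⟩ := pr_F_inj h1 e
      rfl)
  refine ⟨H, fun x => ?_, fun x => ?_, ?_⟩
  · obtain ⟨⟨c, z⟩, rfl⟩ := hq.surjective x
    rw [hH]
    cases c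
    · rfl
    · simp only [Fc, q, if_true, F0]
      change (facePath true (v z)).f (((R true).length : ℝ) * _) = _
      rw [facePath_f, mul_div_cancel_left₀ _ (R_pos true).ne']
      congr 2
      rw [← prj_val z]
      congr 1
      funext i
      fin_cases i <;> simp [v, prj_val] <;> ring
  · obtain ⟨⟨c, z⟩, rfl⟩ := hq.surjective x
    rw [hH]
    cases c
    · exact ⟨z, rfl⟩
    · simp only [Fc, if_true]
      obtain ⟨s', e⟩ := F3 (v z) ((F (1, v z)).len * ((z.1 0 + 1) / 2))
      rw [e]
      exact mem_L_E _
  · rintro s _ ⟨z, rfl⟩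
    exact hH s (false, z)

end Pool.Agent.Lib.MP_2add11_gt
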