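import Pool.Agent.Lib.MP_2add11_gt.Retract

/-!
The five-fold cover is simply connected.
-/

noncomputable section

namespace Pool.Agent.Lib.MP_2add11_gt

open Set Metric Topology unitInterval

theorem wp_rep (k n : ℕ) (g : G5) (hk : k < n) {s : ℝ} (h0 : 0 ≤ s) (h1 : s ≤ 1) :
    wp g (List.replicate n (false, true)) (k + s) = edge (g * gen ^ k) false s := by
  induction k generalizing g n with
  | zero =>
    obtain ⟨n, rfl⟩ := Nat.exists_eq_succ_of_ne_zero hk.ne'
    simp [List.replicate_succ, wp, h1, clamp_of_mem h0 h1, lp]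
  | succ k ih =>
    obtain ⟨n, rfl⟩ := Nat.exists_eq_succ_of_ne_zero (Nat.ne_zero_of_lt hk)
    have hk0 : (0 : ℝ) ≤ k := Nat.cast_nonneg k
    have e := ih n (g * gen) (Nat.lt_of_succ_lt_succ hk)
    rw [mul_assoc, ← pow_succ'] at e
    rw [List.replicate_succ, wp, ← e]
    push_cast
    split_ifs with h
    · rw [clamp_of_ge (by linarith), lp_one, wp_le _ _ (by linarith)]
      rfl
    · congr 1
      ring

theorem gen_pow_inj : ∀ k < 5, ∀ k' < 5, gen ^ k = gen ^ k' → k = k' := by decide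

theorem gen_pow_surj : ∀ g h : G5, ∃ k < 5, g * gen ^ k = h := by decide

theorem wp_inj (g : G5) {s s' : ℝ} (h0 : 0 ≤ s) (h1 : s < 5) (h0' : 0 ≤ s') (h1' : s' < 5)
    (e : wp g (R false) s = wp g (R false) s') : s = s' := by
  have key : ∀ {s : ℝ}, 0 ≤ s → s < 5 → ∃ k < 5, ∃ r : ℝ, 0 ≤ r ∧ r < 1 ∧ s = (k : ℕ) + r :=
    fun {s} h0 h1 => ⟨⌊s⌋₊, (Nat.floor_lt h0).2 (by exact_mod_cast h1), s - ⌊s⌋₊,
      sub_nonneg.2 (Nat.floor_le h0), by linarith [Nat.lt_floor_add_one s], by ring⟩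
  obtain ⟨k, hk, r, r0, r1, rfl⟩ := key h0 h1
  obtain ⟨k', hk', r', r0', r1', rfl⟩ := key h0' h1'
  rw [R, wp_rep _ _ _ hk r0 r1.le, wp_rep _ _ _ hk' r0' r1'.le] at e
  have : g * gen ^ k = g * gen ^ k' ∧ r = r' := by
    rcases r0.eq_or_lt with rfl | r0
    · rcases r0'.eq_or_lt with rfl | r0'
      · rw [edge_zero, edge_zero] at e
        exact ⟨vtx_inj e, rfl⟩
      · have := edge_inj r0' r1' e.symm
        exact ⟨this.1.symm, this.2.2.symm⟩
    · have := edge_inj r0 r1 e
      exact ⟨this.1, this.2.2⟩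
  rw [gen_pow_inj k hk k' hk' (mul_left_cancel this.1), this.2]

theorem face_fibre (g : G5) {z z' : Sq} (h : ¬(z.1 0 = -1 ∨ z.1 0 = 1 ∨ z.1 1 = 1))
    (e : face g false z.1 = face g false z'.1) : z = z' := by
  by_cases h1 : ‖z.1‖ = 1
  swap
  · exact Subtype.ext (face_inj (Sq.rho_ne h1) e).2.2
  by_cases h2 : ‖z'.1‖ = 1
  swap
  · exact Subtype.ext (face_inj (Sq.rho_ne h2) e.symm).2.2.symm
  have hb : z.1 1 = -1 := by
    rcases z.cases with h' | ⟨-, h' | h'⟩
    exacts [absurd h1 h'.2.ne, h', absurd h' h]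
  push Not at h
  have a0 := lt_of_le_of_ne (z.bounds 0).1 h.1.symm
  have a1 := lt_of_le_of_ne (z.bounds 0).2 h.2.1
  have hl : ((R false).length : ℝ) = 5 := by simp [R]
  rw [face_bottom _ _ hb, hl] at e
  by_cases h' : z'.1 0 = -1 ∨ z'.1 0 = 1 ∨ z'.1 1 = 1
  · rw [face_rest _ _ h', ← wp_le g (R false) le_rfl] at e
    have := wp_inj g (by linarith) (by linarith) le_rfl (by norm_num) e
    linarith
  · have hb' : z'.1 1 = -1 := by
      rcases z'.cases with h'' | ⟨-, h'' | h''⟩
      exacts [absurd h2 h''.2.ne, h'', absurd h'' h']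
    push Not at h'
    have b0 := lt_of_le_of_ne (z'.bounds 0).1 h'.1.symm
    have b1 := lt_of_le_of_ne (z'.bounds 0).2 h'.2.1
    rw [face_bottom _ _ hb', hl] at e
    have := wp_inj g (by linarith) (by linarith) (by linarith) (by linarith) e
    refine Subtype.ext (funext fun i => ?_)
    fin_cases i
    · change z.1 0 = z'.1 0
      linarith
    · exact hb.trans hb'.symm

def up : C(I × Sq, Sq) where
  toFun x := ⟨![x.2.1 0, x.2.1 1 + x.1 * (1 - x.2.1 1)],
    mem_closedBall_zero_iff.2 ((pi_norm_le_iff_of_nonneg zero_le_one).2 fun i => by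
      have h0 := x.2.bounds 0
      have h1 := x.2.bounds 1
      have h2 := nonneg x.1
      have h3 := le_one x.1
      fin_cases i
      · exact abs_le.2 h0
      · refine abs_le.2 ⟨?_, ?_⟩ <;> simp <;> nlinarith)⟩
  continuous_toFun := by
    have h0 : Continuous fun x : I × Sq => x.2.1 0 :=
      (continuous_apply 0).comp (continuous_subtype_val.comp continuous_snd)
    have h1 : Continuous fun x : I × Sq => x.2.1 1 :=
      (continuous_apply 1).comp (continuous_subtype_val.comp continuous_snd)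
    refine Continuous.subtype_mk (continuous_pi fun i => ?_) _
    fin_cases i
    · exact h0
    · exact h1.add ((continuous_subtype_val.comp continuous_fst).mul (continuous_const.sub h1))

theorem simply_L : SimplyConnectedSpace (pr ⁻¹' Lset) := by
  let φ : G5 → Sq → pr ⁻¹' Lset := fun g z => ⟨eF g false z, z, (pr_eF g false z).symm⟩
  have hv : ∀ {g g' z z'}, φ g z = φ g' z' ↔ face g false z.1 = face g' false z'.1 :=
    ⟨fun e => congrArg (fun y => y.1.1) e, fun e => Subtype.ext (Subtype.ext e)⟩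
  refine simplyConnected_of_discs φ (fun g => Continuous.subtype_mk (by fun_prop) _) ?_ ?_ ?_ up
    ?_ ?_ ?_
  · rintro ⟨y, z, e⟩
    obtain ⟨g, e'⟩ := pr_eq e.symm
    exact ⟨g * 1, z, Subtype.ext (Subtype.ext ((sh_face _ _ _ _).symm.trans e'))⟩
  · intro i j z z' h e
    have := face_inj (Sq.rho_ne h) (hv.1 e)
    exact ⟨this.1, Subtype.ext this.2.2⟩
  · intro i j z hz
    obtain ⟨u, -, -, e⟩ := face_sphere i false hz
    obtain ⟨h, s, h0, h1, e'⟩ : ∃ h s, 0 ≤ s ∧ s ≤ 1 ∧ edge h false s = face i false z.1 := by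
      rcases wp_cases i (R false) ((R false).length * u) with ⟨h, e'⟩ | ⟨l, hl, h, s, h0, h1, e'⟩
      · exact ⟨h, 0, le_rfl, zero_le_one, by rw [edge_zero, e, e']⟩
      · rw [List.eq_of_mem_replicate hl] at e'
        exact ⟨h, s, h0, h1, e'.trans e.symm⟩
    obtain ⟨k, hk, rfl⟩ := gen_pow_surj j h
    have hk0 : (0 : ℝ) ≤ k := Nat.cast_nonneg k
    have hk4 : (k : ℝ) ≤ 4 := by exact_mod_cast Nat.le_of_lt_succ hk
    refine ⟨bot ((k + s) / 5) (by linarith) (by linarith), bot_norm _ _ _, hv.2 ?_⟩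
    rw [face_bot, show ((R false).length : ℝ) * ((k + s) / 5) = k + s by simp [R]; ring, R,
      wp_rep _ _ _ hk h0 h1, e']
  · intro z
    refine Subtype.ext (funext fun i => ?_)
    fin_cases i <;> simp [up]
  · intro i z z'
    refine hv.2 ?_
    rw [face_rest _ _ (.inr (.inr (by simp [up]))), face_rest _ _ (.inr (.inr (by simp [up])))]
  · intro i s z z' e
    have hr : ∀ w : Sq, (w.1 0 = -1 ∨ w.1 0 = 1 ∨ w.1 1 = 1) →
        face i false (up (s, w)).1 = vtx i := fun w h => face_rest _ _ (by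
      rcases h with h | h | h
      · exact .inl h
      · exact .inr (.inl h)
      · exact .inr (.inr (by simp [up, h])))
    by_cases h : z.1 0 = -1 ∨ z.1 0 = 1 ∨ z.1 1 = 1
    · by_cases h' : z'.1 0 = -1 ∨ z'.1 0 = 1 ∨ z'.1 1 = 1
      · exact hv.2 ((hr z h).trans (hr z' h').symm)
      · rw [face_fibre i h' (hv.1 e).symm]
    · rw [face_fibre i h (hv.1 e)]

theorem simply_E : SimplyConnectedSpace E := by
  obtain ⟨H, h0, h1, h2⟩ := retract_L
  have := simply_L
  exact simplyConnected_of_retract pr_cover.isCoveringMap H h0 h1 h2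

end Pool.Agent.Lib.MP_2add11_gt
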