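import Pool.Agent.Lib.MP_2add11_gt.Defs
import Pool.Agent.Lib.MP_2add11_gt.Cover

/-!
The five-fold cover of the presentation complex of `⟨t, y | t^5, (t y²)² t (t y²)⁻² y⁻¹⟩`, as a
compact subset of a finite-dimensional real vector space.
-/

noncomputable section

namespace Pool.Agent.Lib.MP_2add11_gt

open Set Metric Topology

abbrev G5 : Type := Multiplicative (ZMod 5)

def gen : G5 := Multiplicative.ofAdd 1

abbrev V : Type := G5 → ℝ × (Bool → ℝ × ℝ) × (Bool → ℝ × (Fin 2 → ℝ))

theorem clamp_nonneg (s : ℝ) : 0 ≤ clamp s := le_max_left _ _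
theorem clamp_le_one (s : ℝ) : clamp s ≤ 1 := max_le zero_le_one (min_le_left _ _)
theorem clamp_of_le {s : ℝ} (h : s ≤ 0) : clamp s = 0 := max_eq_left ((min_le_right _ _).trans h)
theorem clamp_of_ge {s : ℝ} (h : 1 ≤ s) : clamp s = 1 := by
  rw [clamp, min_eq_left h, max_eq_right zero_le_one]
theorem clamp_of_mem {s : ℝ} (h : 0 ≤ s) (h' : s ≤ 1) : clamp s = s := by
  rw [clamp, min_eq_right h', max_eq_right h]
theorem clamp_one_sub (s : ℝ) : clamp (1 - s) = 1 - clamp s := by
  rcases le_total s 0 with h | h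
  · rw [clamp_of_le h, clamp_of_ge (by linarith), sub_zero]
  · rcases le_total s 1 with h' | h'
    · rw [clamp_of_mem h h', clamp_of_mem (by linarith) (by linarith)]
    · rw [clamp_of_ge h', clamp_of_le (by linarith), sub_self]
@[fun_prop] theorem continuous_clamp : Continuous clamp := by
  unfold clamp; fun_prop

def vtx (g : G5) : V := fun k => (if k = g then 1 else 0, 0, 0)

def edge (g : G5) (b : Bool) (s : ℝ) : V := fun k =>
  ((if k = g then 1 - s else 0) + (if k = g * gen then s else 0),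
    fun b' => if k = g ∧ b' = b then (s * (1 - s), s * (s * (1 - s))) else 0, 0)

theorem edge_zero (g : G5) (b : Bool) : edge g b 0 = vtx g := by
  funext k; simp [edge, vtx, Prod.mk_zero_zero]; rfl

theorem edge_one (g : G5) (b : Bool) : edge g b 1 = vtx (g * gen) := by
  funext k; simp [edge, vtx, Prod.mk_zero_zero]; rfl

@[fun_prop] theorem continuous_edge (g : G5) (b : Bool) : Continuous (edge g b) := by
  refine continuous_pi fun k => Continuous.prodMk ?_ (Continuous.prodMk
    (continuous_pi fun b' => ?_) continuous_const)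
  · refine Continuous.add ?_ ?_ <;> split_ifs <;> fun_prop
  · split_ifs <;> fun_prop

theorem vtx_inj {g h : G5} (e : vtx g = vtx h) : g = h := by
  have := congrArg (fun x : V => (x g).1) e
  simpa [vtx] using this

theorem edge_inj {g g' : G5} {b b' : Bool} {s s' : ℝ} (h0 : 0 < s) (h1 : s < 1)
    (e : edge g b s = edge g' b' s') : g = g' ∧ b = b' ∧ s = s' := by
  have := congrArg (fun x : V => (x g).2.1 b) e
  have hp : s * (1 - s) ≠ 0 := mul_ne_zero h0.ne' (by linarith)
  simp only [edge, and_self, if_true] at this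
  split_ifs at this with h
  · simp only [Prod.mk.injEq] at this
    refine ⟨h.1, h.2, mul_right_cancel₀ hp ?_⟩
    rw [this.2, this.1]
  · exact absurd (congrArg Prod.fst this) hp

abbrev Letter : Type := Bool × Bool

def lp (g : G5) (l : Letter) (s : ℝ) : V :=
  if l.2 then edge g l.1 s else edge (g * gen⁻¹) l.1 (1 - s)

def nx (g : G5) (l : Letter) : G5 := if l.2 then g * gen else g * gen⁻¹

theorem lp_zero (g : G5) (l : Letter) : lp g l 0 = vtx g := by
  unfold lp; split_ifs <;> simp [edge_zero, edge_one]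

theorem lp_one (g : G5) (l : Letter) : lp g l 1 = vtx (nx g l) := by
  unfold lp nx; split_ifs <;> simp [edge_zero, edge_one]

@[fun_prop] theorem continuous_lp (g : G5) (l : Letter) : Continuous (lp g l) := by
  unfold lp; split_ifs <;> fun_prop

def wp : G5 → List Letter → ℝ → V
  | g, [], _ => vtx g
  | g, l :: w, s => if s ≤ 1 then lp g l (clamp s) else wp (nx g l) w (s - 1)

theorem wp_le (g : G5) (w : List Letter) {s : ℝ} (h : s ≤ 0) : wp g w s = vtx g := by
  cases w with
  | nil => rfl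
  | cons l w => rw [wp, if_pos (by linarith), clamp_of_le h, lp_zero]

theorem wp_ge (g : G5) (w : List Letter) {s : ℝ} (h : w.length ≤ s) :
    wp g w s = vtx (w.foldl nx g) := by
  induction w generalizing g s with
  | nil => rfl
  | cons l w ih =>
    have h' : (w.length : ℝ) ≤ s - 1 := by
      simp only [List.length_cons, Nat.cast_add, Nat.cast_one] at h; linarith
    rw [wp, List.foldl_cons, ← ih _ h']
    split_ifs with h1
    · have : (0 : ℝ) ≤ w.length := Nat.cast_nonneg _
      rw [clamp_of_ge (by linarith), lp_one, wp_le _ _ (by linarith)]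
    · rfl

@[fun_prop] theorem continuous_wp (g : G5) (w : List Letter) : Continuous (wp g w) := by
  induction w generalizing g with
  | nil => exact continuous_const
  | cons l w ih =>
    have := ih (nx g l)
    refine Continuous.if_le (by fun_prop) (by fun_prop) continuous_id continuous_const ?_
    rintro _ rfl
    rw [clamp_of_ge le_rfl, lp_one, wp_le _ _ (by simp)]

/-- The graph: the 1-skeleton. -/
def Gr : Set V := {x | ∃ g b s, 0 ≤ s ∧ s ≤ 1 ∧ edge g b s = x}

theorem vtx_mem (g : G5) : vtx g ∈ Gr := ⟨g, false, 0, le_rfl, zero_le_one, edge_zero _ _⟩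

theorem wp_cases (g : G5) (w : List Letter) (s : ℝ) :
    (∃ h, wp g w s = vtx h) ∨ ∃ l ∈ w, ∃ h s', 0 ≤ s' ∧ s' ≤ 1 ∧ edge h l.1 s' = wp g w s := by
  induction w generalizing g s with
  | nil => exact .inl ⟨g, rfl⟩
  | cons l w ih =>
    rw [wp]
    split_ifs
    · refine .inr ⟨l, List.mem_cons_self, ?_⟩
      unfold lp
      split_ifs
      · exact ⟨_, _, clamp_nonneg _, clamp_le_one _, rfl⟩
      · exact ⟨_, _, by linarith [clamp_le_one s], by linarith [clamp_nonneg s], rfl⟩
    · rcases ih (nx g l) (s - 1) with h | ⟨l', h1, h2⟩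
      · exact .inl h
      · exact .inr ⟨l', List.mem_cons_of_mem _ h1, h2⟩

theorem wp_mem (g : G5) (w : List Letter) (s : ℝ) : wp g w s ∈ Gr := by
  rcases wp_cases g w s with ⟨h, e⟩ | ⟨l, -, h, s', e⟩
  · exact e ▸ vtx_mem h
  · exact ⟨h, l.1, s', e⟩

theorem Gr_third {x : V} (h : x ∈ Gr) (k : G5) : (x k).2.2 = 0 := by
  obtain ⟨g, b, s, -, -, rfl⟩ := h
  rfl

/-- The two relators. -/
def R : Bool → List Letter
  | false => List.replicate 5 (false, true)
  | true => [(false, true), (true, true), (true, true), (false, true), (true, true), (true, true),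
      (false, true), (true, false), (true, false), (false, false), (true, false), (true, false),
      (false, false), (true, false)]

theorem R_closed : ∀ (g : G5) (c : Bool), (R c).foldl nx g = g := by decide

def rho (z : Fin 2 → ℝ) : ℝ := (1 - z 0 ^ 2) * (1 - z 1 ^ 2)

def face (g : G5) (c : Bool) (z : Fin 2 → ℝ) : V :=
  (1 - (z 1 + 1) / 2) • wp g (R c) ((R c).length * ((z 0 + 1) / 2)) + ((z 1 + 1) / 2) • vtx g +
    fun k => (0, 0, fun c' => if k = g ∧ c' = c then (rho z, rho z • z) else 0)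

@[fun_prop] theorem continuous_face (g : G5) (c : Bool) : Continuous (face g c) := by
  refine Continuous.add (by fun_prop) (continuous_pi fun k => Continuous.prodMk continuous_const
    (Continuous.prodMk continuous_const (continuous_pi fun c' => ?_)))
  unfold rho
  split_ifs <;> fun_prop

theorem face_third (g : G5) (c : Bool) (z : Fin 2 → ℝ) (k : G5) (c' : Bool) :
    (face g c z k).2.2 c' = if k = g ∧ c' = c then (rho z, rho z • z) else 0 := by
  simp [face, Gr_third (wp_mem _ _ _), Gr_third (vtx_mem _)]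

theorem face_inj {g g' : G5} {c c' : Bool} {z z' : Fin 2 → ℝ} (h : rho z ≠ 0)
    (e : face g c z = face g' c' z') : g = g' ∧ c = c' ∧ z = z' := by
  have := congrArg (fun x : V => (x g).2.2 c) e
  simp only [face_third, and_self, if_true] at this
  split_ifs at this with h'
  · simp only [Prod.mk.injEq] at this
    refine ⟨h'.1, h'.2, smul_right_injective _ h ?_⟩
    simp only
    rw [this.2, this.1]
  · exact absurd (congrArg Prod.fst this) h

theorem face_not_mem {g : G5} {c : Bool} {z : Fin 2 → ℝ} (h : rho z ≠ 0) : face g c z ∉ Gr :=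
  fun h' => h (by
    have := face_third g c z g c
    rw [Gr_third h'] at this
    simpa using (congrArg Prod.fst this).symm)

theorem face_rho {g : G5} {c : Bool} {z : Fin 2 → ℝ} (h : rho z = 0) : face g c z =
    (1 - (z 1 + 1) / 2) • wp g (R c) ((R c).length * ((z 0 + 1) / 2)) + ((z 1 + 1) / 2) • vtx g := by
  funext k
  simp [face, h, Prod.mk_zero_zero]
  rfl

theorem face_bottom (g : G5) (c : Bool) {z : Fin 2 → ℝ} (h : z 1 = -1) :
    face g c z = wp g (R c) ((R c).length * ((z 0 + 1) / 2)) := by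
  rw [face_rho (by simp [rho, h])]
  simp [h]

theorem face_rest (g : G5) (c : Bool) {z : Fin 2 → ℝ} (h : z 0 = -1 ∨ z 0 = 1 ∨ z 1 = 1) :
    face g c z = vtx g := by
  rw [face_rho (by rcases h with h | h | h <;> simp [rho, h])]
  rcases h with h | h | h
  · rw [wp_le _ _ (by simp [h]), ← add_smul]; simp
  · rw [wp_ge _ _ (by simp [h]), R_closed, ← add_smul]; simp
  · simp [h]

theorem Sq.bounds (z : Sq) (i : Fin 2) : -1 ≤ z.1 i ∧ z.1 i ≤ 1 :=
  abs_le.1 ((norm_le_pi_norm z.1 i).trans (mem_closedBall_zero_iff.1 z.2))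

theorem Sq.cases (z : Sq) : rho z.1 ≠ 0 ∧ ‖z.1‖ < 1 ∨
    (rho z.1 = 0 ∧ ‖z.1‖ = 1) ∧ (z.1 1 = -1 ∨ z.1 0 = -1 ∨ z.1 0 = 1 ∨ z.1 1 = 1) := by
  have hn : ∀ i, |z.1 i| = 1 → ‖z.1‖ = 1 := fun i h =>
    le_antisymm (mem_closedBall_zero_iff.1 z.2) (h.ge.trans (norm_le_pi_norm z.1 i))
  by_cases h : z.1 1 = -1 ∨ z.1 0 = -1 ∨ z.1 0 = 1 ∨ z.1 1 = 1
  · refine .inr ⟨?_, h⟩
    rcases h with h | h | h | h
    · exact ⟨by simp [rho, h], hn 1 (by simp [h])⟩
    · exact ⟨by simp [rho, h], hn 0 (by simp [h])⟩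
    · exact ⟨by simp [rho, h], hn 0 (by simp [h])⟩
    · exact ⟨by simp [rho, h], hn 1 (by simp [h])⟩
  · push Not at h
    have a0 : |z.1 0| < 1 := abs_lt.2 ⟨lt_of_le_of_ne (z.bounds 0).1 h.2.1.symm,
      lt_of_le_of_ne (z.bounds 0).2 h.2.2.1⟩
    have a1 : |z.1 1| < 1 := abs_lt.2 ⟨lt_of_le_of_ne (z.bounds 1).1 h.1.symm,
      lt_of_le_of_ne (z.bounds 1).2 h.2.2.2⟩
    refine .inl ⟨mul_ne_zero ?_ ?_, (pi_norm_lt_iff one_pos).2 fun i => ?_⟩
    · exact (sub_pos.2 ((sq_lt_one_iff_abs_lt_one _).2 a0)).ne'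
    · exact (sub_pos.2 ((sq_lt_one_iff_abs_lt_one _).2 a1)).ne'
    · fin_cases i
      exacts [a0, a1]

theorem Sq.rho_ne {z : Sq} (h : ‖z.1‖ ≠ 1) : rho z.1 ≠ 0 := by
  rcases z.cases with h' | h'
  exacts [h'.1, absurd h'.1.2 h]

theorem face_sphere (g : G5) (c : Bool) {z : Sq} (h : ‖z.1‖ = 1) :
    ∃ u, 0 ≤ u ∧ u ≤ 1 ∧ face g c z.1 = wp g (R c) ((R c).length * u) := by
  rcases z.cases with h' | ⟨-, h' | h'⟩
  · exact absurd h h'.2.ne
  · exact ⟨_, by linarith [z.bounds 0], by linarith [z.bounds 0], face_bottom g c h'⟩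
  · exact ⟨0, le_rfl, zero_le_one, by rw [face_rest g c h', wp_le _ _ (by simp)]⟩

theorem face_sphere_mem (g : G5) (c : Bool) {z : Sq} (h : ‖z.1‖ = 1) : face g c z.1 ∈ Gr := by
  obtain ⟨u, -, -, e⟩ := face_sphere g c h
  exact e ▸ wp_mem _ _ _

/-- The point of the bottom side with parameter `u`. -/
def bot (u : ℝ) (h0 : 0 ≤ u) (h1 : u ≤ 1) : Sq :=
  ⟨![2 * u - 1, -1], mem_closedBall_zero_iff.2 ((pi_norm_le_iff_of_nonneg zero_le_one).2 fun i => by
    fin_cases i
    · exact abs_le.2 ⟨by simp; linarith, by simp; linarith⟩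
    · simp)⟩

theorem bot_norm (u : ℝ) (h0 : 0 ≤ u) (h1 : u ≤ 1) : ‖(bot u h0 h1).1‖ = 1 := by
  rcases (bot u h0 h1).cases with h | h
  · exact absurd (by simp [bot, rho]) h.1
  · exact h.1.2

theorem face_bot (g : G5) (c : Bool) (u : ℝ) (h0 : 0 ≤ u) (h1 : u ≤ 1) :
    face g c (bot u h0 h1).1 = wp g (R c) ((R c).length * u) := by
  rw [face_bottom g c rfl]
  simp [bot]

theorem edge_face (g : G5) (b : Bool) {s : ℝ} (h0 : 0 ≤ s) (h1 : s ≤ 1) :
    ∃ (h : G5) (z : Sq), ‖z.1‖ = 1 ∧ face h b z.1 = edge g b s := by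
  cases b
  · refine ⟨g, bot (s / 5) (by linarith) (by linarith), bot_norm _ _ _, ?_⟩
    rw [face_bot, show ((R false).length : ℝ) * (s / 5) = s by simp [R]; ring]
    simp [R, List.replicate, wp, h1, clamp_of_mem h0 h1, lp]
  · refine ⟨g * gen⁻¹, bot ((s + 1) / 14) (by linarith) (by linarith), bot_norm _ _ _, ?_⟩
    rw [face_bot, show ((R true).length : ℝ) * ((s + 1) / 14) = s + 1 by simp [R]; ring]
    rcases h0.eq_or_lt with rfl | h
    · simp [R, wp, clamp_of_ge, lp, edge_one, edge_zero]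
    · simp [R, wp, h.not_ge, h1, clamp_of_mem h0 h1, lp, nx]

def sh (h : G5) (x : V) : V := fun k => x (h⁻¹ * k)

theorem sh_vtx (h g : G5) : sh h (vtx g) = vtx (h * g) := by
  funext k; simp [sh, vtx, inv_mul_eq_iff_eq_mul]

theorem sh_edge (h g : G5) (b : Bool) (s : ℝ) : sh h (edge g b s) = edge (h * g) b s := by
  funext k; simp [sh, edge, inv_mul_eq_iff_eq_mul, mul_assoc]

theorem sh_wp (h g : G5) (w : List Letter) (s : ℝ) : sh h (wp g w s) = wp (h * g) w s := by
  induction w generalizing g s with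
  | nil => exact sh_vtx _ _
  | cons l w ih =>
    simp only [wp]
    split_ifs
    · unfold lp
      split_ifs <;> simp only [sh_edge, mul_assoc]
    · rw [ih]
      unfold nx
      split_ifs <;> simp only [mul_assoc]

theorem sh_face (h g : G5) (c : Bool) (z : Fin 2 → ℝ) : sh h (face g c z) = face (h * g) c z := by
  unfold face
  rw [← sh_wp, ← sh_vtx]
  funext k
  simp [sh, inv_mul_eq_iff_eq_mul]

/-- The covering space. -/
def E : Type := {x : V // ∃ (g : G5) (c : Bool) (z : Sq), face g c z.1 = x}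

instance : TopologicalSpace E := instTopologicalSpaceSubtype
instance : T2Space E := inferInstanceAs (T2Space (Subtype _))

def eF (g : G5) (c : Bool) (z : Sq) : E := ⟨face g c z.1, g, c, z, rfl⟩

@[fun_prop] theorem continuous_eF (g : G5) (c : Bool) : Continuous (eF g c) :=
  Continuous.subtype_mk (by fun_prop) _

theorem exists_eF (x : E) : ∃ g c z, eF g c z = x := by
  obtain ⟨_, g, c, z, rfl⟩ := x
  exact ⟨g, c, z, rfl⟩

instance : CompactSpace Sq := isCompact_iff_compactSpace.1 (isCompact_closedBall _ _)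

instance : CompactSpace E := ⟨by
  have : (univ : Set E) = ⋃ g, ⋃ c, range (eF g c) := by
    symm
    simpa [eq_univ_iff_forall] using exists_eF
  rw [this]
  exact isCompact_iUnion fun g => isCompact_iUnion fun c => isCompact_range (continuous_eF g c)⟩

instance : MulAction G5 E where
  smul h x := ⟨sh h x.1, by
    obtain ⟨g, c, z, e⟩ := x.2
    exact ⟨h * g, c, z, by rw [← e, sh_face]⟩⟩
  one_smul x := Subtype.ext (funext fun k => show x.1 (1⁻¹ * k) = x.1 k by simp)
  mul_smul a b x := Subtype.ext (funext fun k =>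
    show x.1 ((a * b)⁻¹ * k) = x.1 (b⁻¹ * (a⁻¹ * k)) by rw [mul_inv_rev, mul_assoc])

theorem smul_val (h : G5) (x : E) : (h • x).1 = sh h x.1 := rfl

instance : ContinuousConstSMul G5 E where
  continuous_const_smul h := continuous_induced_rng.2 (continuous_pi fun k =>
    (continuous_apply (h⁻¹ * k)).comp (continuous_subtype_val (p := fun x : V =>
      ∃ (g : G5) (c : Bool) (z : Sq), face g c z.1 = x)))

instance : IsCancelSMul G5 E := isCancelSMul_iff_eq_one_of_smul_eq.2 fun h x e => by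
  obtain ⟨g, c, z, rfl⟩ := exists_eF x
  have e' : sh h (face g c z.1) = face g c z.1 := congrArg Subtype.val e
  by_cases hz : ‖z.1‖ = 1
  · obtain ⟨k, b, s, h0, h1, e2⟩ := face_sphere_mem g c hz
    rw [← e2, sh_edge] at e'
    rcases h0.eq_or_lt with rfl | h0
    · rw [edge_zero, edge_zero] at e'
      simpa using vtx_inj e'
    · rcases h1.eq_or_lt with rfl | h1
      · rw [edge_one, edge_one] at e'
        simpa using vtx_inj e'
      · simpa using (edge_inj h0 h1 e').1
  · rw [sh_face] at e'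
    simpa using (face_inj (Sq.rho_ne hz) e').1

def eE (g : G5) (b : Bool) (s : ℝ) : E := ⟨edge g b (clamp s), by
  obtain ⟨h, z, -, e⟩ := edge_face g b (clamp_nonneg s) (clamp_le_one s)
  exact ⟨h, b, z, e⟩⟩

@[fun_prop] theorem continuous_eE (g : G5) (b : Bool) : Continuous (eE g b) :=
  Continuous.subtype_mk (by fun_prop) _

def eV (g : G5) : E := eE g false 0

theorem eV_val (g : G5) : (eV g).1 = vtx g := by
  simp [eV, eE, clamp_of_le, edge_zero]

theorem smul_eF (h g : G5) (c : Bool) (z : Sq) : h • eF g c z = eF (h * g) c z :=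
  Subtype.ext (sh_face _ _ _ _)
theorem smul_eE (h g : G5) (b : Bool) (s : ℝ) : h • eE g b s = eE (h * g) b s :=
  Subtype.ext (sh_edge _ _ _ _)
theorem smul_eV (h g : G5) : h • eV g = eV (h * g) := smul_eE _ _ _ _

end Pool.Agent.Lib.MP_2add11_gt
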