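import Pool.Agent.Lib.MP_2add11_gt.TwoMon
import Pool.Agent.Lib.MP_2add11_gt.Group

/-!
The fundamental groupoid of a topological monoid as a strict monoidal groupoid.
-/

noncomputable section

namespace Pool.Agent.Lib.MP_2add11_gt

open unitInterval

variable {M : Type} [Monoid M] [TopologicalSpace M] [ContinuousMul M]

variable (M) in
def pcon : Con C(I, M) where
  r f g := f.HomotopicRel g {0, 1}
  iseqv := ContinuousMap.HomotopicRel.equivalence
  mul' := by
    rintro f f' g g' ⟨H⟩ ⟨K⟩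
    refine ⟨⟨⟨⟨fun x => H x * K x, by fun_prop⟩, fun x => by simp, fun x => by simp⟩, ?_⟩⟩
    intro s x hx
    change H (s, x) * K (s, x) = f x * g x
    rw [H.eq_fst s hx, K.eq_fst s hx]

variable (M) in
abbrev Mor : Type := (pcon M).Quotient

def J {a b : M} (p : Path a b) : Mor M := (pcon M).mk' p.toContinuousMap

theorem J_eq {a b : M} {p q : Path a b} : J p = J q ↔ p.Homotopic q := (pcon M).eq

theorem J_congr {a b a' b' : M} {p : Path a b} {q : Path a' b'} (h : ∀ s, p s = q s) :
    J p = J q := congrArg _ (ContinuousMap.ext h)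

theorem exists_J (f : Mor M) : ∃ (a b : M) (p : Path a b), f = J p := by
  obtain ⟨f, rfl⟩ := (pcon M).mk'_surjective f
  exact ⟨f 0, f 1, ⟨f, rfl, rfl⟩, rfl⟩

def evalHom (s : I) : C(I, M) →* M where
  toFun f := f s
  map_one' := rfl
  map_mul' _ _ := rfl

def msrc : Mor M →* M := (pcon M).lift (evalHom 0) fun _ _ ⟨H⟩ => H.fst_eq_snd (by simp)
def mtgt : Mor M →* M := (pcon M).lift (evalHom 1) fun _ _ ⟨H⟩ => H.fst_eq_snd (by simp)

@[simp] theorem msrc_J {a b : M} (p : Path a b) : msrc (J p) = a := p.source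
@[simp] theorem mtgt_J {a b : M} (p : Path a b) : mtgt (J p) = b := p.target

def midm : M →* Mor M where
  toFun a := J (Path.refl a)
  map_one' := rfl
  map_mul' _ _ := rfl

theorem J_mul {a b a' b' : M} (p : Path a b) (q : Path a' b') : J p * J q = J (p.mul q) := rfl

open Classical in
def mcomp (f g : Mor M) : Mor M :=
  if h : ∃ x : Σ a b c : M, Path a b × Path b c, f = J x.2.2.2.1 ∧ g = J x.2.2.2.2 then
    J (h.choose.2.2.2.1.trans h.choose.2.2.2.2) else f

theorem mcomp_J {a b c : M} (p : Path a b) (q : Path b c) : mcomp (J p) (J q) = J (p.trans q) := by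
  have h : ∃ x : Σ a b c : M, Path a b × Path b c, J p = J x.2.2.2.1 ∧ J q = J x.2.2.2.2 :=
    ⟨⟨a, b, c, p, q⟩, rfl, rfl⟩
  rw [mcomp, dif_pos h]
  obtain ⟨h1, h2⟩ := h.choose_spec
  generalize h.choose = x at h1 h2
  obtain ⟨a', b', c', p', q'⟩ := x
  obtain rfl : a = a' := by simpa using congrArg msrc h1
  obtain rfl : b = b' := by simpa using congrArg mtgt h1
  obtain rfl : c = c' := by simpa using congrArg mtgt h2
  exact J_eq.2 ((J_eq.1 h1).symm.hcomp (J_eq.1 h2).symm)

variable (M) in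
def twoMon : TwoMon M (Mor M) where
  src := msrc
  tgt := mtgt
  idm := midm
  comp := mcomp
  src_idm _ := rfl
  tgt_idm _ := rfl
  src_comp f g h := by
    obtain ⟨a, b, p, rfl⟩ := exists_J f
    obtain ⟨b', c, q, rfl⟩ := exists_J g
    obtain rfl : b = b' := by simpa using h
    simp [mcomp_J]
  tgt_comp f g h := by
    obtain ⟨a, b, p, rfl⟩ := exists_J f
    obtain ⟨b', c, q, rfl⟩ := exists_J g
    obtain rfl : b = b' := by simpa using h
    simp [mcomp_J]
  id_comp f := by
    obtain ⟨a, b, p, rfl⟩ := exists_J f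
    rw [msrc_J]
    exact (mcomp_J _ _).trans (J_eq.2 (Path.Homotopic.refl_trans p))
  comp_id f := by
    obtain ⟨a, b, p, rfl⟩ := exists_J f
    rw [mtgt_J]
    exact (mcomp_J _ _).trans (J_eq.2 (Path.Homotopic.trans_refl p))
  assoc f g h h1 h2 := by
    obtain ⟨a, b, p, rfl⟩ := exists_J f
    obtain ⟨b', c, q, rfl⟩ := exists_J g
    obtain ⟨c', d, r, rfl⟩ := exists_J h
    obtain rfl : b = b' := by simpa using h1
    obtain rfl : c = c' := by simpa using h2
    simp only [mcomp_J]
    exact J_eq.2 (Path.Homotopic.trans_assoc p q r)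
  inv f := by
    obtain ⟨a, b, p, rfl⟩ := exists_J f
    refine ⟨J p.symm, by simp, by simp, ?_, ?_⟩
    · rw [msrc_J]
      exact (mcomp_J _ _).trans (J_eq.2 (Path.Homotopic.trans_symm p))
    · rw [mtgt_J]
      exact (mcomp_J _ _).trans (J_eq.2 (Path.Homotopic.symm_trans p))
  inter f f' g g' h1 h2 := by
    obtain ⟨a, b, p, rfl⟩ := exists_J f
    obtain ⟨b', c, q, rfl⟩ := exists_J g
    obtain rfl : b = b' := by simpa using h1
    obtain ⟨a', b', p', rfl⟩ := exists_J f'
    obtain ⟨b'', c', q', rfl⟩ := exists_J g'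
    obtain rfl : b' = b'' := by simpa using h2
    simp only [mcomp_J, J_mul]
    refine J_congr fun s => ?_
    simp only [Path.trans_apply, Path.mul_apply]
    split_ifs <;> rfl

variable (M) in
def jcon : Con M where
  r := Joined
  iseqv := ⟨Joined.refl, Joined.symm, Joined.trans⟩
  mul' := fun ⟨p⟩ ⟨q⟩ => ⟨p.mul q⟩

theorem joined_of_rel {t T y Y : M} (h1 : Joined (t * T) 1) (h2 : Joined (T * t) 1)
    (h3 : Joined (y * Y) 1) (h4 : Joined (Y * y) 1) (h5 : Joined (t ^ 5) 1)
    (hr : Joined (TwoMon.rel t T y Y) 1) : Joined y t := by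
  let q := (jcon M).mk'
  have e : ∀ {a b : M}, Joined a b → q a = q b := fun h => (jcon M).eq.2 h
  let ut : (jcon M).Quotientˣ := ⟨q t, q T, by simpa using e h1, by simpa using e h2⟩
  let uy : (jcon M).Quotientˣ := ⟨q y, q Y, by simpa using e h3, by simpa using e h4⟩
  have := collapse ut uy (Units.ext (by simpa [ut] using e h5)) (Units.ext (by
    have := e hr
    simp only [TwoMon.rel, List.prod_cons, List.prod_nil, map_mul, map_one, mul_one] at this
    simp only [Units.val_mul, mul_assoc, Units.val_one]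
    exact this))
  exact (jcon M).eq.1 (congrArg Units.val this)

theorem top_main (rev : C(M, M)) (rev_mul : ∀ a b, rev (a * b) = rev b * rev a)
    (rev_rev : ∀ a, rev (rev a) = a) (η : C(M × I, M)) (η0 : ∀ a, η (a, 0) = a * rev a)
    (η1 : ∀ a, η (a, 1) = 1) (η2 : ∀ s, η (1, s) = 1) {t y c : M} (five : Joined (t ^ 5) 1)
    (e : Path (TwoMon.rel t (rev t) y (rev y)) c) (d : Path (TwoMon.rel t (rev t) t (rev t)) c)
    (k : Path c 1) (A : Path y t) (R : C(M, M)) (hR : ∀ x, R x = TwoMon.rel t (rev t) x (rev x)) :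
    ∃ B : Path y t, (∀ s, ∃ a, B s = a * A s) ∧
      e.Homotopic (((B.map R.continuous).cast (hR y).symm (hR t).symm).trans d) := by
  let ep : ∀ a : M, Path (a * rev a) 1 := fun a =>
    ⟨⟨fun s => η (a, s), by fun_prop⟩, η0 a, η1 a⟩
  obtain ⟨five⟩ := five
  obtain ⟨⟨α, hα⟩, h⟩ := (twoMon M).main (t := t) (T := rev t) (η := J (ep t)) (κ := J (ep (rev t)))
    (five := J five) (a := J A) (b := J (A.map rev.continuous)) (e := J e) (d := J d) (k := J k)
    (msrc_J _) (mtgt_J _) ((msrc_J _).trans (by rw [rev_rev])) (mtgt_J _) (msrc_J _) (mtgt_J _)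
    (mtgt_J _) (mtgt_J _)
    ((msrc_J _).trans (by congr 1; exacts [(msrc_J A).symm, (msrc_J (A.map _)).symm]))
    (msrc_J _) ((mtgt_J _).trans (msrc_J _).symm) ((mtgt_J _).trans (msrc_J _).symm) (mtgt_J _)
  obtain ⟨a, b, α, rfl⟩ := exists_J α
  obtain rfl : a = 1 := (msrc_J α).symm.trans hα.1
  obtain rfl : b = 1 := (mtgt_J α).symm.trans hα.2
  have r1 : rev 1 = 1 := by
    have := rev_mul 1 (rev 1)
    rw [one_mul, rev_rev, one_mul] at this
    exact this.symm
  have hinv : ((⟨J α, hα⟩ : (twoMon M).P)⁻¹ : (twoMon M).P) =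
      ⟨J (α.map rev.continuous), (msrc_J _).trans r1, (mtgt_J _).trans r1⟩ := by
    apply inv_eq_of_mul_eq_one_right
    apply Subtype.ext
    change J (α.mul (α.map rev.continuous)) = J (Path.refl 1)
    refine (pcon M).eq.2 ⟨⟨⟨⟨fun x => η (α x.2, x.1), by fun_prop⟩, fun x => η0 _,
      fun x => η1 _⟩, ?_⟩⟩
    intro s x hx
    change η (α x, s) = α x * rev (α x)
    have : α x = 1 := by rcases hx with rfl | rfl <;> simp
    rw [this, η2, r1, one_mul]
  rw [hinv] at h
  refine ⟨(α.mul A).cast (one_mul y).symm (one_mul t).symm, fun s => ⟨α s, rfl⟩, J_eq.1 ?_⟩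
  rw [← mcomp_J]
  refine h.trans (congrArg (fun z => mcomp z (J d)) ?_)
  change TwoMon.rel (J (Path.refl t)) (J (Path.refl (rev t))) (J α * J A)
    (J (A.map rev.continuous) * J (α.map rev.continuous)) = _
  simp only [TwoMon.rel, List.prod_cons, List.prod_nil, mul_one, J_mul]
  refine J_congr fun s => ?_
  simp [hR, TwoMon.rel, rev_mul]

end Pool.Agent.Lib.MP_2add11_gt
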