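import Pool.Agent.Lib.MP_2add11_gt.Simply

/-!
The incidence numbers of the pair and an invariant of `Wh(ℤ/5)` detecting its torsion.
-/

noncomputable section

namespace Pool.Agent.Lib.MP_2add11_gt

open Set Metric Topology

def co (h g : G5) (l : Letter) : ℤ :=
  if l.1 then (if l.2 then (if g = h then 1 else 0) else if g * gen⁻¹ = h then -1 else 0) else 0

def fox (h : G5) : G5 → List Letter → ℤ
  | _, [] => 0
  | g, l :: w => co h g l + fox h (nx g l) w

def lam (h : G5) : G5 → List Letter → ℝ → ℝ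
  | _, [], _ => 0
  | g, l :: w, s => co h g l * clamp s + lam h (nx g l) w (s - 1)

theorem continuous_lam (h g : G5) (w : List Letter) : Continuous (lam h g w) := by
  induction w generalizing g with
  | nil => exact continuous_const
  | cons l w ih =>
    have := ih (nx g l)
    change Continuous fun s => co h g l * clamp s + lam h (nx g l) w (s - 1)
    fun_prop

theorem lam_le (h g : G5) (w : List Letter) {s : ℝ} (hs : s ≤ 0) : lam h g w s = 0 := by
  induction w generalizing g s with
  | nil => rfl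
  | cons l w ih => rw [lam, clamp_of_le hs, ih _ (by linarith)]; simp

theorem lam_ge (h g : G5) (w : List Letter) {s : ℝ} (hs : w.length ≤ s) :
    lam h g w s = fox h g w := by
  induction w generalizing g s with
  | nil => simp [lam, fox]
  | cons l w ih =>
    have : (0 : ℝ) ≤ w.length := Nat.cast_nonneg _
    simp only [List.length_cons, Nat.cast_add, Nat.cast_one] at hs
    rw [lam, fox, clamp_of_ge (by linarith), ih _ (by linarith)]
    simp

theorem lam_spec (h g : G5) (w : List Letter) (s : ℝ) :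
    (∀ r, 0 < r → r < 1 → edge h true r = wp g w s → ∃ k : ℤ, lam h g w s = r + k) ∧
    ((∀ r, 0 < r → r < 1 → edge h true r ≠ wp g w s) → ∃ k : ℤ, lam h g w s = k) := by
  induction w generalizing g s with
  | nil =>
    refine ⟨fun r h0 h1 e => ?_, fun _ => ⟨0, by simp [lam]⟩⟩
    rw [wp, ← edge_zero g false] at e
    simpa using (edge_inj h0 h1 e).2.1
  | cons l w ih =>
    rw [wp, lam]
    split_ifs with hs
    · rw [lam_le _ _ _ (by linarith), add_zero]
      have c0 := clamp_nonneg s
      have c1 := clamp_le_one s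
      generalize clamp s = c at c0 c1
      refine ⟨fun r h0 h1 e => ?_, fun H => ?_⟩
      · obtain ⟨b, _ | _⟩ := l
        · obtain ⟨e1, rfl, e3⟩ := edge_inj h0 h1 e
          exact ⟨-1, by simp [co, e1, e3]; ring⟩
        · obtain ⟨e1, rfl, e3⟩ := edge_inj h0 h1 e
          exact ⟨0, by simp [co, e1, e3]⟩
      · rcases c0.eq_or_lt with rfl | c0
        · exact ⟨0, by simp⟩
        rcases c1.eq_or_lt with rfl | c1
        · exact ⟨co h g l, by simp⟩
        refine ⟨0, ?_⟩
        obtain ⟨_ | _, _ | _⟩ := l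
        · simp [co]
        · simp [co]
        · have : g * gen⁻¹ ≠ h := by
            rintro rfl
            exact H (1 - c) (by linarith) (by linarith) rfl
          simp [co, this]
        · have : g ≠ h := by
            rintro rfl
            exact H c c0 c1 rfl
          simp [co, this]
    · rw [clamp_of_ge (by linarith), mul_one]
      refine ⟨fun r h0 h1 e => ?_, fun H => ?_⟩
      · obtain ⟨k, hk⟩ := (ih _ _).1 r h0 h1 e
        exact ⟨co h g l + k, by rw [hk]; push_cast; ring⟩
      · obtain ⟨k, hk⟩ := (ih _ _).2 H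
        exact ⟨co h g l + k, by rw [hk]; push_cast; ring⟩

theorem clamp_mono {a b : ℝ} (h : a ≤ b) : clamp a ≤ clamp b :=
  max_le_max le_rfl (min_le_min le_rfl h)

theorem sqLoop_mem (s : ℝ) : sqLoop s ∈ closedBall (0 : Fin 2 → ℝ) 1 :=
  mem_closedBall_zero_iff.2 ((pi_norm_le_iff_of_nonneg zero_le_one).2 fun i => by
    have h1 := clamp_mono (show s - 2 ≤ s by linarith)
    have h2 := clamp_mono (show s - 3 ≤ s - 1 by linarith)
    have := clamp_nonneg (s - 2)
    have := clamp_nonneg (s - 3)
    have := clamp_le_one s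
    have := clamp_le_one (s - 1)
    fin_cases i <;> refine abs_le.2 ⟨?_, ?_⟩ <;> simp [sqLoop] <;> linarith)

theorem chi_sqLoop (s : ℝ) :
    (chi 2 true (sqLoop s)).1 = wp 1 (R true) ((R true).length * clamp s) := by
  rw [chi, prj_of_mem (sqLoop_mem s)]
  change face 1 true (sqLoop s) = _
  rcases le_total s 1 with h | h
  · rw [face_bottom _ _ (by
      simp [sqLoop, clamp_of_le (show s - 1 ≤ 0 by linarith),
        clamp_of_le (show s - 3 ≤ 0 by linarith)])]
    simp [sqLoop, clamp_of_le (show s - 2 ≤ 0 by linarith)]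
  · rw [clamp_of_ge h, wp_ge _ _ (by simp), R_closed]
    refine face_rest _ _ ?_
    rcases le_total s 2 with h2 | h2
    · refine .inr (.inl ?_)
      simp [sqLoop, clamp_of_ge h, clamp_of_le (show s - 2 ≤ 0 by linarith)]
      norm_num
    · rcases le_total s 3 with h3 | h3
      · refine .inr (.inr ?_)
        simp [sqLoop, clamp_of_ge (show 1 ≤ s - 1 by linarith),
          clamp_of_le (show s - 3 ≤ 0 by linarith)]
        norm_num
      · refine .inl ?_
        simp [sqLoop, clamp_of_ge h, clamp_of_ge (show 1 ≤ s - 2 by linarith)]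

theorem incidence (h : G5) :
    Incidence (chi 2 true) (fun v => h • chi 1 true v) (fox h 1 (R true)) := by
  have e1 : ∀ v ∈ ball (0 : Fin 1 → ℝ) 1, (h • chi 1 true v).1 = edge h true ((v 0 + 1) / 2) :=
    fun v hv => by
      rw [chi, smul_eE, mul_one]
      exact congrArg (edge h true) (clamp_of_mem (ball1 hv).1.le (ball1 hv).2.le)
  refine ⟨fun s => lam h 1 (R true) ((R true).length * clamp s),
    ((continuous_lam _ _ _).comp (by fun_prop)).continuousOn, ?_, fun s _ => ⟨?_, ?_⟩⟩
  · simp only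
    rw [lam_ge _ _ _ (by rw [clamp_of_ge (by norm_num), mul_one]),
      lam_le _ _ _ (by rw [clamp_of_le le_rfl, mul_zero]), sub_zero]
  · intro v hv e
    exact (lam_spec h 1 _ _).1 _ (ball1 hv).1 (ball1 hv).2
      ((e1 v hv).symm.trans ((congrArg Subtype.val e).symm.trans (chi_sqLoop s)))
  · intro H
    refine (lam_spec h 1 _ _).2 fun r h0 h1 e => H ⟨vec1 r, ?_, Subtype.ext ?_⟩
    · rw [mem_ball_zero_iff, norm_fin1, abs_lt, vec1]
      constructor <;> linarith
    · rw [chi_sqLoop, ← e]
      change (h • chi 1 true (vec1 r)).1 = _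
      rw [chi_vec1, smul_eE, mul_one]
      exact congrArg (edge h true) (clamp_of_mem h0.le h1.le)

abbrev ZG : Type := MonoidAlgebra ℤ G5

def T : ZG := MonoidAlgebra.single gen 1

theorem T_pow (n : ℕ) : T ^ n = MonoidAlgebra.single (gen ^ n) 1 := by
  simp [T, MonoidAlgebra.single_pow]

theorem T_five : T ^ 5 = 1 := by
  rw [T_pow, show gen ^ 5 = 1 by decide]
  rfl

def uM : GL (Fin 1) ZG where
  val := Matrix.of fun _ _ => T ^ 4 - T ^ 3 - 1
  inv := Matrix.of fun _ _ => T - T ^ 3 - T ^ 4
  val_inv := by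
    ext1 i j
    rw [Subsingleton.elim i j]
    simp only [Matrix.mul_apply, Finset.univ_unique, Finset.sum_singleton, Matrix.of_apply,
      Matrix.one_apply_eq]
    linear_combination (1 + T - T ^ 3) * T_five
  inv_val := by
    ext1 i j
    rw [Subsingleton.elim i j]
    simp only [Matrix.mul_apply, Finset.univ_unique, Finset.sum_singleton, Matrix.of_apply,
      Matrix.one_apply_eq]
    linear_combination (1 + T - T ^ 3) * T_five

theorem u_coeff (h : G5) : (T ^ 4 - T ^ 3 - 1).coeff h = fox h 1 (R true) := by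
  rw [T_pow, T_pow, MonoidAlgebra.one_def]
  simp only [MonoidAlgebra.coeff_sub, MonoidAlgebra.coeff_single, Finsupp.coe_sub, Pi.sub_apply,
    Finsupp.single_apply]
  revert h
  decide

def chr : G5 →* ℂ := (ZMod.stdAddChar (N := 5)).toMonoidHom

def phi : ZG →+* ℂ := (MonoidAlgebra.lift ℤ ℂ G5 chr).toRingHom

theorem phi_single (g : G5) : phi (MonoidAlgebra.single g 1) = chr g := by
  simp [phi]

theorem norm_chr (g : G5) : ‖chr g‖ = 1 := by
  have : ‖chr g‖ ^ 5 = 1 := by
    rw [← norm_pow, ← map_pow, show g ^ 5 = 1 by revert g; decide, map_one, norm_one]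
  exact (pow_eq_one_iff_of_nonneg (norm_nonneg _) (by norm_num)).1 this

theorem phi_det_ne {n : ℕ} (A : GL (Fin n) ZG) : ‖phi A.val.det‖ ≠ 0 :=
  norm_ne_zero_iff.2 (((Matrix.isUnits_det_units A).map phi).ne_zero)

def lam0 : FreeAbelianGroup (Σ n : ℕ, GL (Fin n) ZG) →+ ℝ :=
  FreeAbelianGroup.lift fun x => Real.log ‖phi x.2.val.det‖

def lam1 : K1 ZG →+ ℝ := QuotientAddGroup.lift _ lam0 (by
  rw [AddSubgroup.closure_le]
  rintro _ (⟨n, A, B, rfl⟩ | ⟨n, A, B, h1, h2, h3, rfl⟩)
  · simp only [SetLike.mem_coe, AddMonoidHom.mem_ker, map_sub, lam0, FreeAbelianGroup.lift_apply_of,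
      Units.val_mul, Matrix.det_mul, map_mul, norm_mul]
    rw [Real.log_mul (phi_det_ne A) (phi_det_ne B)]
    ring
  · have : B.val.det = A.val.det := by
      rw [Matrix.det_succ_row _ (Fin.last n), Fin.sum_univ_castSucc]
      simp only [(h2 _).2, h3, mul_zero, zero_mul, Finset.sum_const_zero, zero_add, mul_one,
        Fin.succAbove_last, Fin.val_last, ← two_mul, pow_mul, neg_one_sq, one_pow, one_mul]
      congr 1
      ext1 i j
      exact h1 i j
    simp [lam0, this])

theorem lam1_cls {n : ℕ} (A : GL (Fin n) ZG) : lam1 (K1.cls A) = Real.log ‖phi A.val.det‖ :=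
  FreeAbelianGroup.lift_apply_of _ _

def lam2 : Wh G5 →+ ℝ := QuotientAddGroup.lift _ lam1 (by
  rw [AddSubgroup.closure_le]
  rintro _ ⟨g, A, h, rfl⟩
  simp only [SetLike.mem_coe, AddMonoidHom.mem_ker, lam1_cls, Matrix.det_fin_one]
  rcases h with h | h <;> simp [h, phi_single, norm_chr])

theorem lam2_cls {n : ℕ} (A : GL (Fin n) ZG) : lam2 (Wh.cls A) = Real.log ‖phi A.val.det‖ :=
  lam1_cls A

theorem lam2_uM : lam2 (Wh.cls uM) ≠ 0 := by
  rw [lam2_cls]
  refine Real.log_ne_zero.2 ⟨phi_det_ne uM, ?_, fun h => by linarith [norm_nonneg (phi uM.val.det)]⟩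
  have hT : phi T = chr gen := phi_single gen
  have h5 : chr gen ^ 5 = 1 := by rw [← hT, ← map_pow, T_five, map_one]
  have h1 : chr gen ≠ 1 := fun h => by
    have : ZMod.stdAddChar (N := 5) 1 = ZMod.stdAddChar (N := 5) 0 :=
      h.trans (AddChar.map_zero_eq_one _).symm
    exact absurd (ZMod.injective_stdAddChar this) (by decide)
  have hn := norm_chr gen
  simp only [uM, Matrix.det_fin_one, Matrix.of_apply, map_sub, map_pow, map_one, hT]
  generalize chr gen = z at h5 h1 hn
  have h4 : z ^ 4 + z ^ 3 + z ^ 2 + z + 1 = 0 :=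
    mul_left_cancel₀ (sub_ne_zero.2 h1) (by linear_combination h5)
  have e : z ^ 4 - z ^ 3 - 1 = -(z ^ 4 * (z + z ^ 4 - 1)) := by
    linear_combination (1 + z ^ 3) * h5
  rw [e, norm_neg, norm_mul, norm_pow, hn, one_pow, one_mul]
  intro hv
  have e2 : 3 * (z + z ^ 4 - 1) = -((z + z ^ 4 - 1) ^ 2 + 1) := by
    linear_combination h4 + (z ^ 3 + 2) * h5
  have := congrArg norm e2
  rw [norm_mul, hv, norm_neg] at this
  have h6 := norm_add_le ((z + z ^ 4 - 1) ^ 2) 1
  rw [norm_pow, hv, ← this] at h6
  norm_num at h6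

def thePair : Pair G5 where
  K := K
  finite := finiteK
  L := Lsub
  connected := connected_L
  retract := retract_L
  dim := fun k hk i => by
    obtain ⟨k, rfl⟩ := Nat.exists_eq_add_of_le' hk
    exact trivial
  E := E
  p := pr
  simply := simply_E
  cover := pr_cover

theorem thePair_torsion : thePair.HasTorsion (-Wh.cls uM) := by
  have e0 : IsEmpty (thePair.Cell 0) := ⟨fun x => x.2 trivial⟩
  have u1 : ∀ x : thePair.Cell 1, x.1 = true := fun x => (Bool.not_eq_false _).mp x.2
  have u2 : ∀ x : thePair.Cell 2, x.1 = true := fun x => (Bool.not_eq_false _).mp x.2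
  let c1 : thePair.Cell 1 := ⟨true, Bool.noConfusion⟩
  let c2 : thePair.Cell 2 := ⟨true, Bool.noConfusion⟩
  refine ⟨1, ⟨fun _ => c1, fun _ => 0, fun _ => Subsingleton.elim _ _,
      fun x => Subtype.ext (u1 x).symm⟩,
    ⟨fun _ => 0, fun _ => .inl c2, ?_, fun _ => Subsingleton.elim _ _⟩,
    fun k i => chi k i.1, uM, fun _ v => e0.elim v,
    fun k i => ⟨(continuous_chi k i.1).continuousOn, fun _ _ => rfl⟩, ?_, fun _ v => e0.elim v,
    fun v => e0.elim v, rfl⟩
  · rintro (x | x)
    · exact congrArg Sum.inl (Subtype.ext (u2 x).symm)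
    · exact e0.elim x
  · intro e j g
    have := incidence g
    rw [← u_coeff] at this
    simp only [u2 e]
    exact this

end Pool.Agent.Lib.MP_2add11_gt
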