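import Mathlib

/-!
Strict monoidal groupoids, presented without dependent types, and the action of invertible
objects on the automorphisms of the unit object.
-/

namespace Pool.Agent.Lib.MP_2add11_gt

/-- A groupoid with object monoid `O` and arrow monoid `A`, satisfying the interchange law. -/
structure TwoMon (O A : Type) [Monoid O] [Monoid A] where
  src : A →* O
  tgt : A →* O
  idm : O →* A
  comp : A → A → A
  src_idm : ∀ a, src (idm a) = a
  tgt_idm : ∀ a, tgt (idm a) = a
  src_comp : ∀ f g, tgt f = src g → src (comp f g) = src f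
  tgt_comp : ∀ f g, tgt f = src g → tgt (comp f g) = tgt g
  id_comp : ∀ f, comp (idm (src f)) f = f
  comp_id : ∀ f, comp f (idm (tgt f)) = f
  assoc : ∀ f g h, tgt f = src g → tgt g = src h → comp (comp f g) h = comp f (comp g h)
  inv : ∀ f, ∃ f', src f' = tgt f ∧ tgt f' = src f ∧ comp f f' = idm (src f) ∧
    comp f' f = idm (tgt f)
  inter : ∀ f f' g g', tgt f = src g → tgt f' = src g' →
    comp (f * f') (g * g') = comp f g * comp f' g'

namespace TwoMon

variable {O A : Type} [Monoid O] [Monoid A] (C : TwoMon O A)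

attribute [simp] src_idm tgt_idm

theorem id_comp' {f : A} {a : O} (h : C.src f = a) : C.comp (C.idm a) f = f := h ▸ C.id_comp f
theorem comp_id' {f : A} {a : O} (h : C.tgt f = a) : C.comp f (C.idm a) = f := h ▸ C.comp_id f
theorem one_comp {f : A} (h : C.src f = 1) : C.comp 1 f = f := by
  simpa using C.id_comp' h
theorem comp_one {f : A} (h : C.tgt f = 1) : C.comp f 1 = f := by
  simpa using C.comp_id' h

theorem cancel_right {x y f : A} (hx : C.tgt x = C.src f) (hy : C.tgt y = C.src f)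
    (h : C.comp x f = C.comp y f) : x = y := by
  obtain ⟨f', h1, -, h3, -⟩ := C.inv f
  rw [← C.comp_id' hx, ← C.comp_id' hy, ← h3, ← C.assoc _ _ _ hx h1.symm,
    ← C.assoc _ _ _ hy h1.symm, h]

theorem cancel_left {x y f : A} (hx : C.tgt f = C.src x) (hy : C.tgt f = C.src y)
    (h : C.comp f x = C.comp f y) : x = y := by
  obtain ⟨f', -, h2, -, h4⟩ := C.inv f
  rw [← C.id_comp' hx.symm, ← C.id_comp' hy.symm, ← h4, C.assoc _ _ _ h2 hx,
    C.assoc _ _ _ h2 hy, h]

/-- Automorphisms of the unit object. -/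
def P : Submonoid A where
  carrier := {α | C.src α = 1 ∧ C.tgt α = 1}
  mul_mem' := fun ha hb => ⟨by rw [map_mul, ha.1, hb.1, one_mul], by
    rw [map_mul, ha.2, hb.2, one_mul]⟩
  one_mem' := ⟨map_one _, map_one _⟩

@[simp] theorem src_P (α : C.P) : C.src α = 1 := α.2.1
@[simp] theorem tgt_P (α : C.P) : C.tgt α = 1 := α.2.2

theorem mul_P_eq1 (f : A) (α : C.P) : f * α = C.comp (C.idm (C.src f) * α) f := by
  conv_rhs => rw [← mul_one f]
  rw [mul_one, ← mul_one f, C.inter _ _ _ _ (by simp) (by simp), mul_one, C.id_comp,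
    C.comp_one (by simp)]

theorem P_mul_eq1 (f : A) (α : C.P) : α * f = C.comp (α * C.idm (C.src f)) f := by
  have := C.inter α (C.idm (C.src f)) 1 f (by simp) (by simp)
  rw [one_mul, C.id_comp, C.comp_one (by simp)] at this
  exact this.symm

theorem mul_P_eq2 (f : A) (α : C.P) : f * α = C.comp f (C.idm (C.tgt f) * α) := by
  have := C.inter f 1 (C.idm (C.tgt f)) α (by simp) (by simp)
  rw [mul_one, C.comp_id, C.one_comp (by simp)] at this
  exact this.symm

theorem P_mul_eq2 (f : A) (α : C.P) : α * f = C.comp f (α * C.idm (C.tgt f)) := by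
  have := C.inter 1 f α (C.idm (C.tgt f)) (by simp) (by simp)
  rw [one_mul, C.comp_id, C.one_comp (by simp)] at this
  exact this.symm

theorem slide_src (f : A) (α β : C.P) :
    f * α = β * f ↔ C.idm (C.src f) * α = β * C.idm (C.src f) := by
  rw [C.mul_P_eq1, C.P_mul_eq1]
  exact ⟨C.cancel_right (by simp) (by simp), fun h => by rw [h]⟩

theorem slide_tgt (f : A) (α β : C.P) :
    f * α = β * f ↔ C.idm (C.tgt f) * α = β * C.idm (C.tgt f) := by
  rw [C.mul_P_eq2, C.P_mul_eq2]
  exact ⟨C.cancel_left (by simp) (by simp), fun h => by rw [h]⟩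

theorem P_comm (α β : C.P) : α * β = β * α := by
  apply Subtype.ext
  change (α : A) * β = β * α
  rw [C.slide_src]
  simp

theorem P_inv (α : C.P) : ∃ β : C.P, β * α = 1 := by
  obtain ⟨β, h1, h2, -, h4⟩ := C.inv α
  refine ⟨⟨β, by simpa using h1, by simpa using h2⟩, Subtype.ext ?_⟩
  change β * α = 1
  rw [C.mul_P_eq2, h2]
  simpa using h4

theorem P_mul_comp (γ : C.P) {f g : A} (h : C.tgt f = C.src g) :
    C.comp (γ * f) g = γ * C.comp f g := by
  have := C.inter γ f 1 g (by simp) h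
  rw [one_mul, C.comp_one (by simp)] at this
  exact this

theorem parallel_one {f g : A} (h : C.src f = C.src g) (hf : C.tgt f = 1) (hg : C.tgt g = 1) :
    ∃ γ : C.P, f = γ * g := by
  obtain ⟨g', h1, h2, h3, -⟩ := C.inv g
  refine ⟨⟨C.comp g' f, by rw [C.src_comp _ _ (h2.trans h.symm), h1, hg],
    by rw [C.tgt_comp _ _ (h2.trans h.symm), hf]⟩, ?_⟩
  rw [C.P_mul_eq2]
  change f = C.comp g (C.comp g' f * _)
  rw [hg, map_one, mul_one, ← C.assoc _ _ _ h1.symm (h2.trans h.symm), h3, C.id_comp' h]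

theorem parallel {f g k : A} (h : C.src f = C.src g) (hf : C.tgt f = C.src k)
    (hg : C.tgt g = C.src k) (hk : C.tgt k = 1) : ∃ γ : C.P, f = γ * g := by
  obtain ⟨γ, hγ⟩ := C.parallel_one (f := C.comp f k) (g := C.comp g k)
    (by rw [C.src_comp _ _ hf, C.src_comp _ _ hg, h]) (by rw [C.tgt_comp _ _ hf, hk])
    (by rw [C.tgt_comp _ _ hg, hk])
  rw [← C.P_mul_comp _ hg] at hγ
  exact ⟨γ, C.cancel_right hf (by simpa using hg) hγ⟩

theorem cancel_obj {x y k : A} {a b : O} (hk : C.src k = b * a) (hk' : C.tgt k = 1)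
    (hs : C.src x = C.src y) (ht : C.tgt x = C.tgt y) (h : x * C.idm b = y * C.idm b) : x = y := by
  have h1 : x * C.idm (b * a) = y * C.idm (b * a) := by
    rw [map_mul, ← mul_assoc, ← mul_assoc, h]
  have h2 : ∀ z : A, C.comp (z * C.idm (b * a)) (C.idm (C.tgt z) * k) =
      C.comp (C.idm (C.src z) * k) z := fun z => by
    have := C.inter (C.idm (C.src z)) k z 1 (by simp) (by simpa using hk')
    rw [mul_one] at this
    rw [this, C.inter _ _ _ _ (by simp) (by simp [hk]), C.comp_id, C.id_comp, C.id_comp' hk,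
      C.comp_one hk']
  have h3 := h2 x
  rw [h1, ht, h2 y, hs] at h3
  exact (C.cancel_left (by simp [hk']) (by simp [hk', hs]) h3).symm

theorem exists_slide {η κ : A} {a b : O} (h1 : C.src η = a * b) (h2 : C.tgt η = 1)
    (h3 : C.src κ = b * a) (h4 : C.tgt κ = 1) (α : C.P) :
    ∃ β : C.P, C.idm a * α = β * C.idm a := by
  have e : C.tgt (C.idm a * α * C.idm b) = C.src η := by simp [h1]
  obtain ⟨β, hβ⟩ := C.parallel_one (f := C.comp (C.idm a * α * C.idm b) η) (g := η)
    (by rw [C.src_comp _ _ e]; simp [h1]) (by rw [C.tgt_comp _ _ e, h2]) h2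
  rw [C.P_mul_eq1] at hβ
  have := C.cancel_right e (by simp) hβ
  rw [h1, map_mul, ← mul_assoc] at this
  exact ⟨β, C.cancel_obj h3 h4 (by simp) (by simp) this⟩

noncomputable instance : CommGroup C.P :=
  { (inferInstance : Monoid C.P) with
    inv := fun α => (C.P_inv α).choose
    inv_mul_cancel := fun α => (C.P_inv α).choose_spec
    mul_comm := C.P_comm }

theorem prod_slide (τ : C.P → C.P) (l : List (A × C.P × ℕ))
    (h : ∀ x ∈ l, ∀ α : C.P, x.1 * α = τ^[x.2.2] α * x.1) :
    (l.map fun x => (x.2.1 : A) * x.1).prod =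
      (l.foldr (fun x β => x.2.1 * τ^[x.2.2] β) 1 : C.P) *
        (l.map fun x => x.1).prod := by
  induction l with
  | nil => simp
  | cons x l ih =>
    simp only [List.map_cons, List.prod_cons, List.foldr_cons]
    rw [ih fun z hz => h z (List.mem_cons_of_mem _ hz), mul_assoc, ← mul_assoc x.1,
      h x List.mem_cons_self]
    simp only [Submonoid.coe_mul, mul_assoc]

/-- The relator `(t y²)² t (t y²)⁻² y⁻¹`, with arrows substituted for the letters. -/
def rel {M : Type} [Monoid M] (t T a b : M) : M :=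
  [t, a, a, t, a, a, t, b, b, T, b, b, T, b].prod

theorem main {t T : O} {η κ five a b e d k : A}
    (h1 : C.src η = t * T) (h2 : C.tgt η = 1) (h3 : C.src κ = T * t) (h4 : C.tgt κ = 1)
    (h5 : C.src five = t ^ 5) (h6 : C.tgt five = 1) (ha : C.tgt a = t) (hb : C.tgt b = T)
    (he : C.src e = rel t T (C.src a) (C.src b)) (hd : C.src d = rel t T t T)
    (he' : C.tgt e = C.src k) (hd' : C.tgt d = C.src k) (hk : C.tgt k = 1) :
    ∃ α : C.P, e = C.comp (rel (C.idm t) (C.idm T) (α * a) (b * (α⁻¹ : C.P))) d := by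
  choose τ0 hτ0 using C.exists_slide h1 h2 h3 h4
  have uniq : ∀ β β' : C.P, (β : A) * C.idm t = β' * C.idm t → β = β' := fun β β' h =>
    Subtype.ext (C.cancel_obj h1 h2 (by simp) (by simp) h)
  let τ : C.P →* C.P := MonoidHom.mk' τ0 fun α β => uniq _ _ (by
    rw [← hτ0, Submonoid.coe_mul, Submonoid.coe_mul, ← mul_assoc, hτ0, mul_assoc, hτ0, mul_assoc])
  have hτ : ∀ α : C.P, C.idm t * α = τ α * C.idm t := hτ0
  have hpow : ∀ (n : ℕ) (α : C.P),
      C.idm (t ^ n) * α = τ^[n] α * C.idm (t ^ n) := fun n => by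
    induction n with
    | zero => intro α; simp
    | succ n ih =>
      intro α
      rw [pow_succ' t, map_mul, mul_assoc, ih, ← mul_assoc, hτ, mul_assoc,
        Function.iterate_succ_apply']
  have hτ5 : ∀ α : C.P, τ (τ (τ (τ (τ α)))) = α := fun α => by
    have := hpow 5 α
    rw [← h5, ← C.slide_src, C.slide_tgt, h6] at this
    apply Subtype.ext
    simpa using this.symm
  have hT : ∀ α : C.P, C.idm T * α = τ^[4] α * C.idm T := fun α => by
    obtain ⟨β, hβ⟩ := C.exists_slide h3 h4 h1 h2 α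
    have : C.idm (t * T) * α = τ β * C.idm (t * T) := by
      rw [map_mul, mul_assoc, hβ, ← mul_assoc, hτ, mul_assoc]
    rw [← h1, ← C.slide_src, C.slide_tgt, h2] at this
    have h : α = τ β := Subtype.ext (by simpa using this)
    rw [hβ, h]
    change _ = (τ (τ (τ (τ (τ β)))) : A) * _
    rw [hτ5]
  have hA : ∀ α : C.P, a * α = τ^[1] α * a := fun α => by
    rw [C.slide_tgt, ha]; exact hτ α
  have hB : ∀ α : C.P, b * α = τ^[4] α * b := fun α => by
    rw [C.slide_tgt, hb]; exact hT α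
  have e1 : C.tgt (rel (C.idm t) (C.idm T) a b) = C.src d := by
    rw [hd]; simp [rel, ha, hb]
  obtain ⟨γ, hγ⟩ := C.parallel (f := e) (g := C.comp (rel (C.idm t) (C.idm T) a b) d) (k := k)
    (by rw [C.src_comp _ _ e1, he]; simp [rel]) he' (by rw [C.tgt_comp _ _ e1, hd']) hk
  refine ⟨τ γ * (τ (τ (τ γ)))⁻¹ * (τ (τ (τ (τ γ))))⁻¹, ?_⟩
  generalize hα : τ γ * (τ (τ (τ γ)))⁻¹ * (τ (τ (τ (τ γ))))⁻¹ = α
  rw [hγ, ← C.P_mul_comp _ e1, hB]
  congr 1
  have := C.prod_slide τ
    [(C.idm t, 1, 1), (a, α, 1), (a, α, 1), (C.idm t, 1, 1), (a, α, 1), (a, α, 1), (C.idm t, 1, 1),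
     (b, τ^[4] α⁻¹, 4), (b, τ^[4] α⁻¹, 4), (C.idm T, 1, 4),
     (b, τ^[4] α⁻¹, 4), (b, τ^[4] α⁻¹, 4), (C.idm T, 1, 4),
     (b, τ^[4] α⁻¹, 4)] (by
      intro x hx
      simp only [List.mem_cons, List.not_mem_nil, or_false] at hx
      rcases hx with rfl | rfl | rfl | rfl | rfl | rfl | rfl | rfl | rfl | rfl | rfl | rfl | rfl |
        rfl
      all_goals first | exact hA | exact hB | exact hT | exact hτ)
  simp only [List.map_cons, List.map_nil, OneMemClass.coe_one, one_mul] at this
  unfold rel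
  rw [this]
  congr 2
  have p1 : ∀ x : C.P, τ^[1] x = τ x := fun _ => rfl
  have p4 : ∀ x : C.P, τ^[4] x = τ (τ (τ (τ x))) := fun _ => rfl
  simp only [List.foldr_cons, List.foldr_nil, p1, p4, ← hα, map_mul, map_inv, map_one, hτ5,
    one_mul, mul_one]
  apply Additive.ofMul.injective
  simp only [ofMul_mul, ofMul_inv]
  abel

end TwoMon

end Pool.Agent.Lib.MP_2add11_gt
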